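import Mathlib

set_option autoImplicit false

namespace Pool.Agent.helper91.OT

/-! ## Nondeterministic one-tape Turing machines -/

/-- Moves of the head. -/
inductive Move : Type
  | left
  | stay
  | right
  deriving DecidableEq

instance : Fintype Move := ⟨{.left, .stay, .right}, by intro x; cases x <;> simp⟩

/-- The displacement of a move. -/
def Move.toInt : Move → ℤ
  | .left => -1
  | .stay => 0
  | .right => 1

/-- A nondeterministic one-tape Turing machine with input alphabet `A`: a finite set of states, a
finite tape alphabet with a blank symbol, and a transition relation.  The single tape is two-way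
infinite; the input is written on it. -/
structure NTM (A : Type) : Type 1 where
  Q : Type
  Γ : Type
  finQ : Fintype Q
  finΓ : Fintype Γ
  blank : Γ
  emb : A → Γ
  emb_inj : Function.Injective emb
  emb_ne_blank : ∀ a, emb a ≠ blank
  start : Q
  acc : Q
  δ : Q → Γ → Set (Q × Γ × Move)

variable {A : Type}

/-- Configurations: state, head position, tape contents. -/
@[ext]
structure Cfg (M : NTM A) : Type where
  q : M.Q
  pos : ℤ
  tape : ℤ → M.Γ

/-- The configuration reached by carrying out the transition `t`. -/
def Cfg.next {M : NTM A} (c : Cfg M) (t : M.Q × M.Γ × Move) : Cfg M :=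
  ⟨t.1, c.pos + t.2.2.toInt, Function.update c.tape c.pos t.2.1⟩

/-- `c'` is a next configuration of `c`. -/
def NTM.Step (M : NTM A) (c c' : Cfg M) : Prop :=
  ∃ t ∈ M.δ c.q (c.tape c.pos), c' = c.next t

/-- The machine has a genuine choice between at least two next configurations. -/
def NTM.Choice (M : NTM A) (c : Cfg M) : Prop :=
  ∃ c₁ c₂, M.Step c c₁ ∧ M.Step c c₂ ∧ c₁ ≠ c₂

/-- `M.Run t g c c'`: there is a computation of exactly `t` steps from `c` to `c'`, of which exactly
`g` are nondeterministic steps (guesses). -/
inductive NTM.Run (M : NTM A) : ℕ → ℕ → Cfg M → Cfg M → Prop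
  | refl (c : Cfg M) : M.Run 0 0 c c
  | det {t g : ℕ} {c c' c'' : Cfg M} (h : M.Step c c') (hc : ¬ M.Choice c)
      (hr : M.Run t g c' c'') : M.Run (t + 1) g c c''
  | guess {t g : ℕ} {c c' c'' : Cfg M} (h : M.Step c c') (hc : M.Choice c)
      (hr : M.Run t g c' c'') : M.Run (t + 1) (g + 1) c c''

/-- The tape with the word `x` on the cells `0, …, |x| - 1` and blanks elsewhere. -/
def NTM.tapeOf (M : NTM A) (x : List A) (i : ℤ) : M.Γ :=
  if 0 ≤ i then (x[i.toNat]?).elim M.blank M.emb else M.blank

/-- The initial configuration: start state, head on the first letter. -/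
def NTM.init (M : NTM A) (x : List A) : Cfg M := ⟨M.start, 0, M.tapeOf x⟩

/-- `M` has an accepting computation on `x` with `t` steps, `g` of which are guesses. -/
def NTM.AcceptsIn (M : NTM A) (x : List A) (t g : ℕ) : Prop :=
  ∃ c, M.Run t g (M.init x) c ∧ c.q = M.acc

/-- `M` accepts `x`. -/
def NTM.Accepts (M : NTM A) (x : List A) : Prop := ∃ t g, M.AcceptsIn x t g

/-- The class `NONDET₁(O(t), O(g))`: languages `L` such that some one-tape machine accepts exactly
`L` and has, for each word `x` of `L`, an accepting computation of length `O(t(|x|))` with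
`O(g(|x|))` nondeterministic steps. -/
def Nondet (A : Type) (t g : ℕ → ℝ) : Set (Set (List A)) :=
  {L | ∃ (M : NTM A) (C : ℝ), (∀ x, x ∈ L ↔ M.Accepts x) ∧
    ∀ x ∈ L, ∃ T G : ℕ, M.AcceptsIn x T G ∧
      (T : ℝ) ≤ C * t x.length + C ∧ (G : ℝ) ≤ C * g x.length + C}

end Pool.Agent.helper91.OT
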