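import Pool.Agent.helper91.OT.Prod
import Pool.Agent.helper91.OT.Model

set_option autoImplicit false

namespace Pool.Agent.helper91.OT

open Finset

/-! ## From one-tape machines to message passing systems -/

variable {A : Type} {k s q : ℕ}

section
variable (M : NTM A)

/-- transitions -/
abbrev NTM.Tr := M.Q × M.Γ × Move

lemma next_injective {M : NTM A} (c : Cfg M) : Function.Injective (Cfg.next c) := by
  rintro ⟨q₁, γ₁, m₁⟩ ⟨q₂, γ₂, m₂⟩ h
  have h1 : q₁ = q₂ := congrArg Cfg.q h
  have h2 : c.pos + m₁.toInt = c.pos + m₂.toInt := congrArg Cfg.pos h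
  have h3 : Function.update c.tape c.pos γ₁ = Function.update c.tape c.pos γ₂ :=
    congrArg Cfg.tape h
  have h4 : γ₁ = γ₂ := by
    have := congrFun h3 c.pos
    simpa using this
  have h5 : m₁ = m₂ := by
    have : m₁.toInt = m₂.toInt := by linarith
    cases m₁ <;> cases m₂ <;> simp [Move.toInt] at this ⊢
  rw [h1, h4, h5]

open Classical in
/-- The transition carried out by the machine with guess sequence `w`, when `g` guesses have
been used; at most `G` guesses are allowed. -/
noncomputable def NTM.tr (w : ℕ → M.Tr) (G : ℕ) (q : M.Q) (γ : M.Γ) (g : ℕ) :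
    Option (M.Tr × ℕ) :=
  if h : ∃! t, t ∈ M.δ q γ then some (h.choose, g)
  else if w g ∈ M.δ q γ ∧ g < G then some (w g, g + 1) else none

lemma tr_mem (w : ℕ → M.Tr) (G : ℕ) (q : M.Q) (γ : M.Γ) (g : ℕ) (t : M.Tr) (g' : ℕ)
    (h : M.tr w G q γ g = some (t, g')) : t ∈ M.δ q γ ∧ (g' = g ∨ g' ≤ G) := by
  unfold NTM.tr at h
  split_ifs at h with h1 h2
  · simp only [Option.some.injEq, Prod.mk.injEq] at h
    rw [← h.1, ← h.2]
    exact ⟨h1.choose_spec.1, Or.inl rfl⟩
  · simp only [Option.some.injEq, Prod.mk.injEq] at h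
    rw [← h.1, ← h.2]
    exact ⟨h2.1, Or.inr (by omega)⟩

/-- `Path w G l c g c' g'`: the machine with guess sequence `w` goes from `c` to `c'`, and `l` is
the list of the positions of the configurations visited, `c` and `c'` included. -/
inductive NTM.Path (w : ℕ → M.Tr) (G : ℕ) : List ℤ → Cfg M → ℕ → Cfg M → ℕ → Prop
  | refl (c : Cfg M) (g : ℕ) : NTM.Path w G [c.pos] c g c g
  | step {l : List ℤ} {c c'' : Cfg M} {g g' g'' : ℕ} {t : M.Tr}
      (h : M.tr w G c.q (c.tape c.pos) g = some (t, g'))
      (hr : NTM.Path w G l (c.next t) g' c'' g'') : NTM.Path w G (c.pos :: l) c g c'' g''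

lemma choice_iff (c : Cfg M) : M.Choice c ↔ (∃ t ∈ M.δ c.q (c.tape c.pos),
    ∃ t' ∈ M.δ c.q (c.tape c.pos), t ≠ t') := by
  constructor
  · rintro ⟨c₁, c₂, ⟨t, ht, h1⟩, ⟨t', ht', h2⟩, h⟩
    refine ⟨t, ht, t', ht', ?_⟩
    rintro rfl
    exact h (h1.trans h2.symm)
  · rintro ⟨t, ht, t', ht', h⟩
    exact ⟨c.next t, c.next t', ⟨t, ht, rfl⟩, ⟨t', ht', rfl⟩, fun h' => h (next_injective c h')⟩

/-- A computation with few guesses is a path for a suitable guess sequence. -/
lemma run_path {T g : ℕ} {c c' : Cfg M} (h : M.Run T g c c') (w₀ : M.Tr) :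
    ∀ g₀ G, g₀ + g ≤ G → ∃ w : ℕ → M.Tr, (∀ j, G ≤ j → w j = w₀) ∧ ∀ w' : ℕ → M.Tr,
      (∀ j, g₀ ≤ j → w' j = w j) → ∃ l : List ℤ, l.length = T + 1 ∧
        M.Path w' G l c g₀ c' (g₀ + g) := by
  induction h with
  | refl c =>
    intro g₀ G _
    exact ⟨fun _ => w₀, fun _ _ => rfl, fun w' _ => ⟨[c.pos], rfl, .refl c g₀⟩⟩
  | @det t g c c' c'' h hc hr ih =>
    intro g₀ G hG
    obtain ⟨w, hw₀, hw⟩ := ih g₀ G hG
    refine ⟨w, hw₀, fun w' hw' => ?_⟩
    obtain ⟨l, hl, hp⟩ := hw w' hw'
    refine ⟨c.pos :: l, by simp [hl], ?_⟩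
    obtain ⟨t, ht, hc'⟩ := h
    have hu : ∃! t, t ∈ M.δ c.q (c.tape c.pos) := by
      refine ⟨t, ht, fun t' ht' => ?_⟩
      by_contra hne
      exact hc ((choice_iff M c).2 ⟨t', ht', t, ht, hne⟩)
    have ht2 : hu.choose = t := hu.unique hu.choose_spec.1 ht
    refine .step (t := t) (g' := g₀) ?_ (hc' ▸ hp)
    unfold NTM.tr
    rw [dif_pos hu, ht2]
  | @guess t g c c' c'' h hc hr ih =>
    intro g₀ G hG
    obtain ⟨w, hw₀, hw⟩ := ih (g₀ + 1) G (by omega)
    obtain ⟨t, ht, hc'⟩ := h
    refine ⟨Function.update w g₀ t, ?_, fun w' hw' => ?_⟩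
    · intro j hj
      rw [Function.update_of_ne (by omega)]
      exact hw₀ j hj
    obtain ⟨l, hl, hp⟩ := hw w' (fun j hj => by
      rw [hw' j (by omega), Function.update_of_ne (by omega)])
    refine ⟨c.pos :: l, by simp [hl], ?_⟩
    have hnu : ¬ ∃! t, t ∈ M.δ c.q (c.tape c.pos) := by
      intro hu
      obtain ⟨t₁, h1, t₂, h2, hne⟩ := (choice_iff M c).1 hc
      exact hne (hu.unique h1 h2)
    have hwt : w' g₀ = t := by rw [hw' g₀ le_rfl, Function.update_self]
    refine .step (t := t) (g' := g₀ + 1) ?_ (by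
      rw [show g₀ + (g + 1) = g₀ + 1 + g by ring]; exact hc' ▸ hp)
    unfold NTM.tr
    rw [dif_neg hnu, if_pos ⟨by rw [hwt]; exact ht, by omega⟩, hwt]

/-- one step gives a run prefix -/
lemma run_cons {c c' : Cfg M} (h : M.Step c c') {T g : ℕ} {c'' : Cfg M} (hr : M.Run T g c' c'') :
    ∃ T' g', M.Run T' g' c c'' := by
  by_cases hc : M.Choice c
  · exact ⟨_, _, .guess h hc hr⟩
  · exact ⟨_, _, .det h hc hr⟩

end

section
variable {P : Type} [DecidableEq P] (M : NTM A)

open Classical in
/-- The local computation of a player `p` with fuel `f`, until the head leaves his part of the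
tape. -/
noncomputable def NTM.lrun (w : ℕ → M.Tr) (G : ℕ) (own : ℤ → P) (p : P) :
    ℕ → M.Q × ℤ × ℕ → (ℤ → M.Γ) → Option (Option (M.Q × ℤ × ℕ)) × (ℤ → M.Γ)
  | 0, _, u => (none, u)
  | f + 1, ν, u =>
    if ν.1 = M.acc then (some none, u)
    else if own ν.2.1 ≠ p then (some (some ν), u)
    else match M.tr w G ν.1 (u ν.2.1) ν.2.2 with
      | none => (none, u)
      | some (t, g') => NTM.lrun w G own p f (t.1, ν.2.1 + t.2.2.toInt, g')
          (Function.update u ν.2.1 t.2.1)

/-- global tape obtained from the local ones -/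
def glob {Γ : Type} (own : ℤ → P) (loc : P → ℤ → Γ) : ℤ → Γ := fun x => loc (own x) x

lemma glob_update {Γ : Type} (own : ℤ → P) (loc : P → ℤ → Γ) (p : P) (x : ℤ) (hx : own x = p)
    (γ : Γ) :
    glob own (Function.update loc p (Function.update (loc p) x γ))
      = Function.update (glob own loc) x γ := by
  funext y
  unfold glob
  by_cases hy : own y = p
  · rw [hy, Function.update_self]
    by_cases hxy : y = x
    · rw [hxy, Function.update_self, Function.update_self]
    · rw [Function.update_of_ne hxy, Function.update_of_ne hxy, hy]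
  · rw [Function.update_of_ne hy]
    have : y ≠ x := by rintro rfl; exact hy hx
    rw [Function.update_of_ne this]

/-- Soundness of the local computation. -/
lemma lrun_sound (w : ℕ → M.Tr) (G : ℕ) (own : ℤ → P) (p : P) (f : ℕ) :
    ∀ (ν : M.Q × ℤ × ℕ) (loc : P → ℤ → M.Γ),
      ((M.lrun w G own p f ν (loc p)).1 = some none →
        ∃ T g c', M.Run T g ⟨ν.1, ν.2.1, glob own loc⟩ c' ∧ c'.q = M.acc) ∧
      (∀ ν', (M.lrun w G own p f ν (loc p)).1 = some (some ν') →
        ∀ c'' : Cfg M, (∃ T g, M.Run T g ⟨ν'.1, ν'.2.1,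
          glob own (Function.update loc p (M.lrun w G own p f ν (loc p)).2)⟩ c'') →
        ∃ T g, M.Run T g ⟨ν.1, ν.2.1, glob own loc⟩ c'') := by
  induction f with
  | zero =>
    intro ν loc
    constructor
    · intro h; simp [NTM.lrun] at h
    · intro ν' h; simp [NTM.lrun] at h
  | succ f ih =>
    intro ν loc
    unfold NTM.lrun
    by_cases hacc : ν.1 = M.acc
    · simp only [hacc, if_true]
      refine ⟨fun _ => ⟨0, 0, _, .refl _, rfl⟩, fun ν' h => ?_⟩
      simp at h
    · simp only [hacc, if_false]
      by_cases hown : own ν.2.1 ≠ p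
      · simp only [hown, if_true, ne_eq, not_false_eq_true]
        refine ⟨fun h => ?_, fun ν' h => ?_⟩
        · simp at h
        · simp only [Option.some.injEq] at h
          subst h
          intro c'' hc
          simpa using hc
      · have hown' : own ν.2.1 = p := not_not.1 hown
        simp only [hown', if_false, ne_eq, not_true_eq_false]
        rcases htr : M.tr w G ν.1 (loc p ν.2.1) ν.2.2 with _ | ⟨t, g'⟩
        · simp
        · simp only
          set loc' := Function.update loc p (Function.update (loc p) ν.2.1 t.2.1) with hloc'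
          have hl : Function.update (loc p) ν.2.1 t.2.1 = loc' p := by
            rw [hloc', Function.update_self]
          rw [hl]
          have h := ih (t.1, ν.2.1 + t.2.2.toInt, g') loc'
          have hglob : glob own loc' = Function.update (glob own loc) ν.2.1 t.2.1 :=
            glob_update own loc p _ hown' _
          have hstep : M.Step ⟨ν.1, ν.2.1, glob own loc⟩
              ⟨t.1, ν.2.1 + t.2.2.toInt, glob own loc'⟩ := by
            refine ⟨t, ?_, ?_⟩
            · have := (tr_mem M w G _ _ _ _ _ htr).1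
              simpa [glob, hown'] using this
            · rw [hglob]; rfl
          refine ⟨fun h1 => ?_, fun ν' h1 c'' hc => ?_⟩
          · obtain ⟨T, g, c', hr, hq⟩ := h.1 h1
            obtain ⟨T', g'', hr'⟩ := run_cons M hstep hr
            exact ⟨T', g'', c', hr', hq⟩
          · have hupd : Function.update loc' p (M.lrun w G own p f
                (t.1, ν.2.1 + t.2.2.toInt, g') (loc' p)).2
                = Function.update loc p (M.lrun w G own p f
                (t.1, ν.2.1 + t.2.2.toInt, g') (loc' p)).2 := by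
              rw [hloc', Function.update_idem]
            obtain ⟨T, g, hr⟩ := h.2 ν' h1 c'' (by rw [hupd]; exact hc)
            exact run_cons M hstep hr

/-- more fuel does not change a result -/
lemma lrun_mono (w : ℕ → M.Tr) (G : ℕ) (own : ℤ → P) (p : P) (f : ℕ) :
    ∀ (ν : M.Q × ℤ × ℕ) (u : ℤ → M.Γ), (M.lrun w G own p f ν u).1 ≠ none →
      M.lrun w G own p (f + 1) ν u = M.lrun w G own p f ν u := by
  induction f with
  | zero => intro ν u h; simp [NTM.lrun] at h
  | succ f ih =>
    intro ν u h
    rw [NTM.lrun] at h ⊢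
    rw [NTM.lrun]
    by_cases hacc : ν.1 = M.acc
    · simp only [hacc, if_true]
    · simp only [hacc, if_false] at h ⊢
      by_cases hown : own ν.2.1 ≠ p
      · simp only [hown, if_true, ne_eq, not_false_eq_true]
      · simp only [hown, if_false] at h ⊢
        rcases htr : M.tr w G ν.1 (u ν.2.1) ν.2.2 with _ | ⟨t, g'⟩
        · rw [htr] at h
        · rw [htr] at h
          simp only at h ⊢
          exact ih _ _ h

end

/-- The message passing system of a machine with a guess sequence. -/
noncomputable def NTM.sys (M : NTM A) (w : ℕ → M.Tr) (G : ℕ) (own : ℤ → Fin k × Bool) (f : ℕ) :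
    Sys k (ℤ → M.Γ) (M.Q × ℤ × ℕ) where
  act ν := own ν.2.1
  step ν u := M.lrun w G own (own ν.2.1) f ν u

lemma accB_sound (M : NTM A) (w : ℕ → M.Tr) (G : ℕ) (own : ℤ → Fin k × Bool) (f : ℕ)
    (I : Finset (Fin k)) (N : ℕ) : ∀ (c : Fin k → ℕ) (ν : M.Q × ℤ × ℕ)
      (loc : Fin k × Bool → ℤ → M.Γ), (M.sys w G own f).accB I N c ν loc →
      ∃ T g c', M.Run T g ⟨ν.1, ν.2.1, glob own loc⟩ c' ∧ c'.q = M.acc := by
  induction N with
  | zero => intro c ν loc h; exact h.elim
  | succ N ih =>
    intro c ν loc h
    obtain ⟨_, h | ⟨ν', h1, h2⟩⟩ := h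
    · exact (lrun_sound M w G own (own ν.2.1) f ν loc).1 h
    · obtain ⟨T, g, c', hr, hq⟩ := ih _ _ _ h2
      obtain ⟨T', g', hr'⟩ := (lrun_sound M w G own (own ν.2.1) f ν loc).2 ν' h1 c' ⟨T, g, hr⟩
      exact ⟨T', g', c', hr', hq⟩

lemma accB_mono_fuel (M : NTM A) (w : ℕ → M.Tr) (G : ℕ) (own : ℤ → Fin k × Bool) (f : ℕ)
    (I : Finset (Fin k)) (N : ℕ) : ∀ (c : Fin k → ℕ) (ν : M.Q × ℤ × ℕ)
      (loc : Fin k × Bool → ℤ → M.Γ), (M.sys w G own f).accB I N c ν loc →
      (M.sys w G own (f + 1)).accB I N c ν loc := by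
  induction N with
  | zero => intro c ν loc h; exact h
  | succ N ih =>
    intro c ν loc h
    obtain ⟨h0, h⟩ := h
    refine ⟨h0, ?_⟩
    have hne : (M.lrun w G own (own ν.2.1) f ν (loc (own ν.2.1))).1 ≠ none := by
      rcases h with h | ⟨ν', h1, _⟩
      · intro h'
        change (M.lrun w G own (own ν.2.1) f ν (loc (own ν.2.1))).1 = some none at h
        rw [h'] at h; simp at h
      · intro h'
        change (M.lrun w G own (own ν.2.1) f ν (loc (own ν.2.1))).1 = some (some ν') at h1
        rw [h'] at h1; simp at h1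
    have hm := lrun_mono M w G own (own ν.2.1) f ν (loc (own ν.2.1)) hne
    rcases h with h | ⟨ν', h1, h2⟩
    · left
      change (M.lrun w G own (own ν.2.1) (f + 1) ν (loc (own ν.2.1))).1 = some none
      rw [hm]; exact h
    · right
      refine ⟨ν', ?_, ?_⟩
      · change (M.lrun w G own (own ν.2.1) (f + 1) ν (loc (own ν.2.1))).1 = some (some ν')
        rw [hm]; exact h1
      · change (M.sys w G own (f + 1)).accB I N _ ν' (Function.update loc (own ν.2.1)
          (M.lrun w G own (own ν.2.1) (f + 1) ν (loc (own ν.2.1))).2)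
        rw [hm]
        exact ih _ _ _ h2

/-- number of changes of owner towards the pair `i` -/
def ch (own : ℤ → Fin k × Bool) : List ℤ → Fin k → ℕ
  | [], _ => 0
  | [_], _ => 0
  | x :: y :: l, i => (if own x ≠ own y ∧ (own y).1 = i then 1 else 0) + ch own (y :: l) i

/-- number of changes of owner -/
def tot {P : Type} [DecidableEq P] (own : ℤ → P) : List ℤ → ℕ
  | [] => 0
  | [_] => 0
  | x :: y :: l => (if own x ≠ own y then 1 else 0) + tot own (y :: l)

lemma sum_ch (own : ℤ → Fin k × Bool) (l : List ℤ) : ∑ i, ch own l i = tot own l := by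
  induction l with
  | nil => simp [ch, tot]
  | cons x l ih =>
    cases l with
    | nil => simp [ch, tot]
    | cons y l =>
      simp only [ch, tot, Finset.sum_add_distrib, ih]
      congr 1
      by_cases h : own x = own y
      · simp [h]
      · simp [h]

lemma path_head (M : NTM A) (w : ℕ → M.Tr) (G : ℕ) {l : List ℤ} {c c' : Cfg M} {g g' : ℕ}
    (h : M.Path w G l c g c' g') : ∃ l', l = c.pos :: l' := by
  cases h with
  | refl => exact ⟨[], rfl⟩
  | step h hr => exact ⟨_, rfl⟩

/-- Completeness: an accepting path makes the system accept. -/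
lemma accB_complete (M : NTM A) (w : ℕ → M.Tr) (G : ℕ) (own : ℤ → Fin k × Bool)
    (I : Finset (Fin k)) {l : List ℤ} {c c' : Cfg M} {g g' : ℕ}
    (h : M.Path w G l c g c' g') (hc' : c'.q = M.acc) :
    ∀ (f N : ℕ) (b : Fin k → ℕ) (loc : Fin k × Bool → ℤ → M.Γ), glob own loc = c.tape →
      l.length ≤ f → tot own l + 1 ≤ N →
      (∀ i ∈ I, ch own l i + (if (own c.pos).1 = i then 1 else 0) ≤ b i) →
      (M.sys w G own f).accB I N b (c.q, c.pos, g) loc := by
  induction h with
  | refl c g =>
    intro f N b loc _ hf hN hb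
    obtain ⟨f, rfl⟩ : ∃ f', f = f' + 1 := ⟨f - 1, by simp at hf; omega⟩
    obtain ⟨N, rfl⟩ : ∃ N', N = N' + 1 := ⟨N - 1, by omega⟩
    refine ⟨fun hI => ?_, Or.inl ?_⟩
    · change 0 < b (own c.pos).1
      have := hb (own c.pos).1 hI
      rw [if_pos rfl] at this
      omega
    · change (M.lrun w G own (own c.pos) (f + 1) (c.q, c.pos, g) (loc (own c.pos))).1 = some none
      rw [NTM.lrun]
      simp [hc']
  | @step l c c'' g g' g'' t htr hr ih =>
    intro f N b loc hloc hf hN hb
    obtain ⟨f, rfl⟩ : ∃ f', f = f' + 1 := ⟨f - 1, by simp at hf; omega⟩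
    obtain ⟨N, rfl⟩ : ∃ N', N = N' + 1 := ⟨N - 1, by omega⟩
    have hb0 : (own c.pos).1 ∈ I → 0 < b (own c.pos).1 := by
      intro hI
      have := hb (own c.pos).1 hI
      rw [if_pos rfl] at this
      omega
    by_cases hacc : c.q = M.acc
    · refine ⟨hb0, Or.inl ?_⟩
      change (M.lrun w G own (own c.pos) (f + 1) (c.q, c.pos, g) (loc (own c.pos))).1 = some none
      rw [NTM.lrun]
      simp [hacc]
    obtain ⟨l', hl'⟩ := path_head M w G hr
    set p := own c.pos with hp
    set loc' := Function.update loc p (Function.update (loc p) c.pos t.2.1) with hloc'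
    have hglob : glob own loc' = (c.next t).tape := by
      rw [hloc', glob_update own loc p _ hp.symm, hloc]; rfl
    have hlrun : M.lrun w G own p (f + 1) (c.q, c.pos, g) (loc p)
        = M.lrun w G own p f (t.1, (c.next t).pos, g') (loc' p) := by
      rw [NTM.lrun]
      have h1 : loc p c.pos = c.tape c.pos := by rw [← hloc]; rfl
      simp only [hacc, if_false, ← hp, ne_eq, not_true_eq_false, h1, htr]
      rw [hloc', Function.update_self]
      rfl
    by_cases hsame : own (c.next t).pos = p
    · have h1 := ih hc' f (N + 1) b loc' hglob (by simp at hf; omega)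
        (by rw [hl'] at hN ⊢
            simp only [tot, ← hp, hsame] at hN
            simpa using hN)
        (by intro i hi
            have := hb i hi
            rw [hl'] at this ⊢
            simp only [ch, ← hp, hsame] at this ⊢
            simpa using this)
      obtain ⟨_, h2⟩ := h1
      refine ⟨hb0, ?_⟩
      have hact : (M.sys w G own f).act ((c.next t).q, (c.next t).pos, g') = p := hsame
      have hstep : (M.sys w G own f).step ((c.next t).q, (c.next t).pos, g') (loc' p)
          = M.lrun w G own p f (t.1, (c.next t).pos, g') (loc' p) := by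
        change M.lrun w G own (own (c.next t).pos) f (t.1, (c.next t).pos, g') (loc' p) = _
        rw [hsame]
      rw [hact, hstep, ← hlrun] at h2
      rcases h2 with h2 | ⟨ν', h2, h3⟩
      · left; exact h2
      · right
        refine ⟨ν', h2, ?_⟩
        have h4 := accB_mono_fuel M w G own f I N _ _ _ h3
        have h5 : Function.update loc' p (M.lrun w G own p (f + 1) (c.q, c.pos, g) (loc p)).2
            = Function.update loc p (M.lrun w G own p (f + 1) (c.q, c.pos, g) (loc p)).2 := by
          rw [hloc', Function.update_idem]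
        rw [h5] at h4
        exact h4
    · refine ⟨hb0, ?_⟩
      have hf1 : 1 ≤ f := by rw [hl'] at hf; simp at hf; omega
      obtain ⟨f, rfl⟩ : ∃ f', f = f' + 1 := ⟨f - 1, by omega⟩
      by_cases hacc' : t.1 = M.acc
      · left
        change (M.lrun w G own p (f + 1 + 1) (c.q, c.pos, g) (loc p)).1 = some none
        rw [hlrun, NTM.lrun]
        simp [hacc']
      · right
        have h6 : M.lrun w G own p (f + 1 + 1) (c.q, c.pos, g) (loc p)
            = (some (some (t.1, (c.next t).pos, g')), loc' p) := by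
          rw [hlrun, NTM.lrun]
          simp [hacc', hsame]
        refine ⟨(t.1, (c.next t).pos, g'), ?_, ?_⟩
        · change (M.lrun w G own p (f + 1 + 1) (c.q, c.pos, g) (loc p)).1 = _
          rw [h6]
        · change (M.sys w G own (f + 1 + 1)).accB I N (Function.update b p.1 (b p.1 - 1))
            (t.1, (c.next t).pos, g')
            (Function.update loc p (M.lrun w G own p (f + 1 + 1) (c.q, c.pos, g) (loc p)).2)
          rw [h6]
          have h7 : Function.update loc p (loc' p) = loc' := by
            rw [hloc', Function.update_self]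
          simp only [h7]
          apply ih hc' (f + 1 + 1) N _ loc' hglob (by simp at hf ⊢; omega)
          · rw [hl'] at hN ⊢
            simp only [tot, ← hp] at hN
            rw [if_pos (fun h => hsame h.symm)] at hN
            omega
          · intro i hi
            have := hb i hi
            rw [hl'] at this ⊢
            simp only [ch, ← hp] at this
            have h8 : p ≠ own (c.next t).pos := fun h => hsame h.symm
            simp only [h8, ne_eq, not_false_eq_true, true_and] at this
            by_cases hpi : p.1 = i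
            · subst hpi
              rw [Function.update_self]
              simp only [if_true] at this
              omega
            · rw [Function.update_of_ne (fun h => hpi h.symm)]
              simp only [hpi, if_false] at this
              omega

/-- consecutive positions differ by at most one -/
def Adj : List ℤ → Prop
  | [] => True
  | [_] => True
  | x :: y :: l => (y = x - 1 ∨ y = x ∨ y = x + 1) ∧ Adj (y :: l)

lemma path_adj (M : NTM A) (w : ℕ → M.Tr) (G : ℕ) {l : List ℤ} {c c' : Cfg M} {g g' : ℕ}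
    (h : M.Path w G l c g c' g') : Adj l := by
  induction h with
  | refl => trivial
  | @step l c c'' g g' g'' t htr hr ih =>
    obtain ⟨l', hl'⟩ := path_head M w G hr
    rw [hl'] at ih ⊢
    refine ⟨?_, ih⟩
    change c.pos + t.2.2.toInt = _ ∨ c.pos + t.2.2.toInt = _ ∨ c.pos + t.2.2.toInt = _
    cases t.2.2 <;> simp [Move.toInt]
    omega

/-- If no adjacent pair of positions is separated for two offsets, the number of changes is small
for some offset. -/
lemma tot_average {P : Type} [DecidableEq P] (n : ℕ) (own : ℕ → ℤ → P)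
    (hsep : ∀ x y : ℤ, (y = x - 1 ∨ y = x ∨ y = x + 1) → ∀ o < n, ∀ o' < n, own o x ≠ own o y →
      own o' x ≠ own o' y → o = o') (l : List ℤ) (hl : Adj l) :
    ∑ o ∈ range n, tot (own o) l ≤ l.length - 1 := by
  induction l with
  | nil => simp [tot]
  | cons x l ih =>
    cases l with
    | nil => simp [tot]
    | cons y l =>
      simp only [tot, Finset.sum_add_distrib]
      have h1 := ih hl.2
      have h2 : ∑ o ∈ range n, (if own o x ≠ own o y then 1 else 0) ≤ 1 := by
        rw [← Finset.card_filter, Finset.card_le_one]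
        intro a ha b hb
        rw [Finset.mem_filter, Finset.mem_range] at ha hb
        exact hsep x y hl.1 a ha.1 b hb.1 ha.2 hb.2
      simp only [List.length_cons] at h1 ⊢
      omega

end Pool.Agent.helper91.OT
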