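import Pool.Agent.helper91.OT.Res

set_option autoImplicit false

namespace Pool.Agent.helper91.OT

/-! ## Encodings of pairs of sequences and the behaviour of the machine on them -/

variable {U V : ℕ} [NeZero U] [NeZero V]

lemma sweep_append {u v : List (Cell U)} : ∀ {st st'' : SS U V} {w : List (Cell U)} {g : ℕ},
    Sweep st (u ++ v) g st'' w ↔ ∃ (st' : SS U V) (u' v' : List (Cell U)) (g₁ g₂ : ℕ),
      Sweep st u g₁ st' u' ∧ Sweep st' v g₂ st'' v' ∧ w = u' ++ v' ∧ g = g₁ + g₂ := by
  induction u with
  | nil =>
    intro st st'' w g
    constructor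
    · intro h
      exact ⟨st, [], w, 0, g, .nil st, h, rfl, by simp⟩
    · rintro ⟨st', u', v', g₁, g₂, h1, h2, rfl, rfl⟩
      cases h1
      simpa using h2
  | cons x u ih =>
    intro st st'' w g
    constructor
    · intro h
      cases h with
      | cons h hr =>
        obtain ⟨st', u', v', g₁, g₂, h1, h2, rfl, rfl⟩ := ih.1 hr
        exact ⟨st', _ :: u', v', _, g₂, .cons h h1, h2, rfl, by ring⟩
    · rintro ⟨st', u', v', g₁, g₂, h1, h2, rfl, rfl⟩
      cases h1 with
      | cons h hr =>
        have h3 := ih.2 ⟨_, _, _, _, _, hr, h2, rfl, rfl⟩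
        have h4 := Sweep.cons h h3
        rw [show ∀ a b c : ℕ, a + b + c = a + c + b from fun a b c => by ring] at h4
        exact h4

/-- deterministic part of a sweep -/
def drun : SS U V → List (Cell U) → Option (SS U V × List (Cell U))
  | st, [] => some (st, [])
  | st, x :: u => (dstep st x).bind (fun y => (drun y.1 u).map (fun w => (w.1, y.2 :: w.2)))

lemma drun_append (u v : List (Cell U)) : ∀ st : SS U V,
    drun st (u ++ v) = (drun st u).bind (fun y => (drun y.1 v).map (fun w => (w.1, y.2 ++ w.2))) := by
  induction u with
  | nil =>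
    intro st
    simp only [List.nil_append, drun, Option.bind_some]
    cases drun st v <;> rfl
  | cons x u ih =>
    intro st
    simp only [List.cons_append, drun]
    cases h : dstep st x with
    | none => simp
    | some y =>
      simp only [Option.bind_some, ih]
      cases h2 : drun y.1 u with
      | none => simp
      | some w =>
        simp only [Option.bind_some, Option.map_some]
        cases drun w.1 v <;> rfl

/-- a word without `X` -/
def noX (u : List (Cell U)) : Prop := ∀ x ∈ u, x.1 ≠ .X

lemma sweep_iff_drun {u : List (Cell U)} (hu : noX u) : ∀ {st st' : SS U V} {u' : List (Cell U)}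
    {g : ℕ}, Sweep st u g st' u' ↔ drun st u = some (st', u') ∧ g = 0 := by
  induction u with
  | nil =>
    intro st st' u' g
    constructor
    · intro h; cases h; exact ⟨rfl, rfl⟩
    · rintro ⟨h, rfl⟩
      simp only [drun, Option.some.injEq, Prod.mk.injEq] at h
      obtain ⟨rfl, rfl⟩ := h
      exact .nil _
  | cons x u ih =>
    intro st st' u' g
    have hx : x.1 ≠ .X := hu x (by simp)
    have hu' : noX u := fun y hy => hu y (by simp [hy])
    constructor
    · intro h
      cases h with
      | cons h hr =>
        obtain ⟨h1, h2⟩ := (ih hu').1 hr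
        rcases h with h | h
        · exact absurd h.1 hx
        · refine ⟨?_, by simp [h2, hx]⟩
          rw [drun, h.2]
          simp [h1]
    · rintro ⟨h, rfl⟩
      rw [drun] at h
      cases hd : dstep st x with
      | none => rw [hd] at h; simp at h
      | some y =>
        rw [hd] at h
        simp only [Option.bind_some] at h
        cases hd2 : drun y.1 u with
        | none => rw [hd2] at h; simp at h
        | some w =>
          rw [hd2] at h
          simp only [Option.map_some, Option.some.injEq, Prod.mk.injEq] at h
          obtain ⟨rfl, rfl⟩ := h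
          have h1 := (ih hu').2 ⟨hd2, rfl⟩
          have h2 := Sweep.cons (st := st) (x := x) (Or.inr ⟨hx, hd⟩) h1
          simpa [hx] using h2

/-! ### digits -/

/-- the digits (low order first) of `v`, the first `r` of them read -/
def digs (U : ℕ) [NeZero U] : ℕ → ℕ → ℕ → List (Cell U)
  | _, 0, _ => []
  | 0, n + 1, v => (.D (Fin.ofNat U v), true, true) :: digs U 0 n (v / U)
  | r + 1, n + 1, v => (.D (Fin.ofNat U v), false, true) :: digs U r n (v / U)

/-- a digit -/
def dig (U : ℕ) [NeZero U] (r v : ℕ) : Fin U := Fin.ofNat U (v / U ^ r)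

lemma digs_length (n : ℕ) : ∀ r v, (digs U r n v).length = n := by
  induction n with
  | zero => intro r v; cases r <;> rfl
  | succ n ih => intro r v; cases r <;> simp [digs, ih]

lemma digs_noX (n : ℕ) : ∀ r v, noX (digs U r n v) := by
  induction n with
  | zero => intro r v; cases r <;> simp [digs, noX]
  | succ n ih =>
    intro r v
    cases r <;>
    · intro x hx
      rw [digs] at hx
      rcases List.mem_cons.1 hx with rfl | hx
      · simp
      · exact ih _ _ x hx

lemma digs_zero (r v : ℕ) : digs U r 0 v = [] := by cases r <;> rfl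

/-- unread digits are passed by when the digit of this sweep has been read -/
lemma drun_digs_done (n : ℕ) : ∀ (r v : ℕ) (st : SS U V) (m : Bool), st.w = some m →
    drun st (digs U r n v) = some (st, digs U r n v) := by
  induction n with
  | zero => intro r v st m _; rw [digs_zero]; rfl
  | succ n ih =>
    intro r v st m hm
    cases r with
    | zero =>
      rw [digs, drun]
      simp only [dstep, if_true, hm, Option.bind_some]
      rw [ih 0 (v / U) st m hm]
      rfl
    | succ r =>
      rw [digs, drun]
      simp only [dstep, Bool.false_eq_true, if_false, Option.bind_some]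
      rw [ih r (v / U) st m hm]
      rfl

lemma drun_digs (n : ℕ) : ∀ (r v : ℕ) (st : SS U V), st.w = none → r < n →
    drun st (digs U r n v) = some ({ st with w := some (decide (dig U r v = st.a)) },
      digs U (r + 1) n v) := by
  induction n with
  | zero => intro r v st _ h; omega
  | succ n ih =>
    intro r v st hw hr
    cases r with
    | zero =>
      rw [digs, drun]
      simp only [dstep, if_true, hw, Option.bind_some]
      rw [drun_digs_done n 0 (v / U) _ (decide (Fin.ofNat U v = st.a)) rfl]
      simp only [Option.map_some, dig, pow_zero, Nat.div_one]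
      rw [digs]
    | succ r =>
      rw [digs, drun]
      simp only [dstep, Bool.false_eq_true, if_false, Option.bind_some]
      rw [ih r (v / U) st hw (by omega)]
      simp only [Option.map_some]
      rw [digs]
      have : dig U r (v / U) = dig U (r + 1) v := by
        unfold dig
        rw [Nat.div_div_eq_div_mul, pow_succ, mul_comm]
      rw [this]

lemma drun_digs_all (n : ℕ) : ∀ (r v : ℕ) (st : SS U V), n ≤ r →
    drun st (digs U r n v) = some (st, digs U r n v) := by
  induction n with
  | zero => intro r v st _; rw [digs_zero]; rfl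
  | succ n ih =>
    intro r v st hr
    obtain ⟨r, rfl⟩ : ∃ r', r = r' + 1 := ⟨r - 1, by omega⟩
    rw [digs, drun]
    simp only [dstep, Bool.false_eq_true, if_false, Option.bind_some]
    rw [ih r (v / U) st (by omega)]
    rfl

/-! ### entries -/

/-- the `n` entries starting with index `j` -/
def ents (U : ℕ) [NeZero U] (R r : ℕ) (al ok : ℕ → Bool) (val : ℕ → ℕ) : ℕ → ℕ → List (Cell U)
  | _, 0 => []
  | j, n + 1 => digs U r R (val j / 2) ++
      (.E (decide (val j % 2 = 1)), al j, ok j) :: ents U R r al ok val (j + 1) n

lemma ents_length (R r : ℕ) (al ok : ℕ → Bool) (val : ℕ → ℕ) (n : ℕ) : ∀ j,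
    (ents U R r al ok val j n).length = n * (R + 1) := by
  induction n with
  | zero => intro j; simp [ents]
  | succ n ih =>
    intro j
    rw [ents, List.length_append, digs_length, List.length_cons, ih]
    ring

lemma ents_noX (R r : ℕ) (al ok : ℕ → Bool) (val : ℕ → ℕ) (n : ℕ) : ∀ j,
    noX (ents U R r al ok val j n) := by
  induction n with
  | zero => intro j; simp [ents, noX]
  | succ n ih =>
    intro j x hx
    rw [ents] at hx
    rcases List.mem_append.1 hx with hx | hx
    · exact digs_noX _ _ _ x hx
    · rcases List.mem_cons.1 hx with rfl | hx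
      · simp
      · exact ih _ x hx

/-- counter before index `j` -/
def cn (n : ℕ) [NeZero n] (al : ℕ → Bool) (j : ℕ) : Fin n :=
  Fin.ofNat n (Nat.count (fun i => al i = true) j)

lemma ofNat_succ (n m : ℕ) [NeZero n] : Fin.ofNat n (m + 1) = Fin.ofNat n m + 1 := by
  apply Fin.ext
  rw [Fin.val_add, Fin.val_one']
  simp [Fin.ofNat]

lemma cn_succ (n : ℕ) [NeZero n] (al : ℕ → Bool) (j : ℕ) :
    cn n al (j + 1) = if al j then cn n al j + 1 else cn n al j := by
  unfold cn
  rw [Nat.count_succ]
  by_cases h : al j = true
  · simp only [h, if_true]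
    exact ofNat_succ _ _
  · simp [h]

lemma cn_zero (n : ℕ) [NeZero n] (al : ℕ → Bool) : cn n al 0 = 0 := by
  unfold cn
  rw [Nat.count_zero]
  apply Fin.ext
  simp [Fin.ofNat]

/-- alive entries after a sweep -/
def alN (n : ℕ) [NeZero n] (al : ℕ → Bool) (z : Fin n) : ℕ → Bool :=
  fun j => al j && decide (cn n al j = z)

/-- ok entries after a sweep -/
def okN (U : ℕ) [NeZero U] (r : ℕ) (ok : ℕ → Bool) (val : ℕ → ℕ) (a : Fin U) : ℕ → Bool :=
  fun j => ok j && decide (dig U r (val j / 2) = a)

lemma drun_ents (R r : ℕ) (hr : r < R) (al ok : ℕ → Bool) (val : ℕ → ℕ) (sc : Fin V) (z a : Fin U)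
    (n : ℕ) : ∀ j, drun (⟨sc, cn U al j, z, a, none⟩ : SS U V) (ents U R r al ok val j n)
      = some (⟨sc, cn U al (j + n), z, a, none⟩,
        ents U R (r + 1) (alN U al z) (okN U r ok val a) val j n) := by
  induction n with
  | zero => intro j; rfl
  | succ n ih =>
    intro j
    rw [ents, drun_append, drun_digs R r _ _ rfl hr]
    simp only [Option.bind_some, drun, dstep]
    have h1 : (if al j = true then cn U al j + 1 else cn U al j) = cn U al (j + 1) :=
      (cn_succ U al j).symm
    rw [h1, ih (j + 1)]
    simp only [Option.map_some, Option.some.injEq, Prod.mk.injEq]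
    refine ⟨?_, ?_⟩
    · congr 2; ring
    · rw [ents]
      rfl

lemma drun_ents_fail (R r : ℕ) (hr : R ≤ r) (al ok : ℕ → Bool) (val : ℕ → ℕ) (st : SS U V)
    (hw : st.w = none) (n j : ℕ) : drun st (ents U R r al ok val j (n + 1)) = none := by
  rw [ents, drun_append, drun_digs_all R r _ _ hr]
  simp [drun, dstep, hw]

/-! ### blocks -/

/-- dummies -/
def dum (U d : ℕ) : List (Cell U) := List.replicate d (.n, true, true)

lemma drun_dum (d : ℕ) (st : SS U V) : drun st (dum U d) = some (st, dum U d) := by
  induction d with
  | zero => rfl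
  | succ d ih =>
    unfold dum at ih ⊢
    rw [List.replicate_succ, drun]
    simp only [dstep, Option.bind_some, ih]
    rfl

/-- a block without its `X` -/
def body (U : ℕ) [NeZero U] (R s d r : ℕ) (al okx oky : ℕ → Bool) (vx vy : ℕ → ℕ) :
    List (Cell U) :=
  (ents U R r al okx vx 0 s ++ dum U d) ++
    ((.Y, true, true) :: (ents U R r al oky vy 0 s ++ dum U d))

lemma body_noX (R s d r : ℕ) (al okx oky : ℕ → Bool) (vx vy : ℕ → ℕ) :
    noX (body U R s d r al okx oky vx vy) := by
  intro x hx
  unfold body dum at hx
  simp only [List.mem_append, List.mem_cons, List.mem_replicate] at hx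
  rcases hx with (hx | hx) | (hx | hx | hx)
  · exact ents_noX _ _ _ _ _ _ _ x hx
  · rw [hx.2]; simp
  · rw [hx]; simp
  · exact ents_noX _ _ _ _ _ _ _ x hx
  · rw [hx.2]; simp

lemma drun_body (R s d r : ℕ) (hr : r < R) (al okx oky : ℕ → Bool) (vx vy : ℕ → ℕ) (sc : Fin V)
    (z a : Fin U) (hs : cn U al s = 0) :
    drun (⟨sc, 0, z, a, none⟩ : SS U V) (body U R s d r al okx oky vx vy)
      = some (⟨sc, 0, z, a, none⟩, body U R s d (r + 1) (alN U al z) (okN U r okx vx a)
          (okN U r oky vy a) vx vy) := by
  have h0 : (⟨sc, 0, z, a, none⟩ : SS U V) = ⟨sc, cn U al 0, z, a, none⟩ := by rw [cn_zero]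
  have h1 := drun_ents (V := V) R r hr al okx vx sc z a s 0
  have h2 := drun_ents (V := V) R r hr al oky vy sc z a s 0
  rw [cn_zero, zero_add, hs] at h1 h2
  unfold body
  rw [drun_append, drun_append, h1]
  simp only [Option.bind_some, drun_dum, Option.map_some, drun, dstep, drun_append, and_self,
    if_true]
  rw [h2]
  simp

lemma drun_body_inv (R s d r : ℕ) (hs0 : 0 < s) (al okx oky : ℕ → Bool) (vx vy : ℕ → ℕ)
    (sc : Fin V) (z a : Fin U) {st' : SS U V} {u' : List (Cell U)}
    (h : drun (⟨sc, 0, z, a, none⟩ : SS U V) (body U R s d r al okx oky vx vy) = some (st', u')) :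
    r < R ∧ cn U al s = 0 := by
  by_cases hr : r < R
  · refine ⟨hr, ?_⟩
    have h1 := drun_ents (V := V) R r hr al okx vx sc z a s 0
    rw [cn_zero, zero_add] at h1
    unfold body at h
    rw [drun_append, drun_append, h1] at h
    simp only [Option.bind_some, drun_dum, Option.map_some, drun, dstep] at h
    by_contra hne
    simp [hne] at h
  · exfalso
    obtain ⟨s, rfl⟩ : ∃ s', s = s' + 1 := ⟨s - 1, by omega⟩
    unfold body at h
    rw [drun_append, drun_append, drun_ents_fail R r (by omega) _ _ _ _ rfl] at h
    simp at h

/-- the blocks `i, …, i + n - 1` -/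
def blks (U : ℕ) [NeZero U] (R s d r : ℕ) (xa : ℕ → Bool) (al okx oky : ℕ → ℕ → Bool)
    (vx vy : ℕ → ℕ → ℕ) : ℕ → ℕ → List (Cell U)
  | _, 0 => []
  | i, n + 1 => (.X, xa i, true) :: (body U R s d r (al i) (okx i) (oky i) (vx i) (vy i) ++
      blks U R s d r xa al okx oky vx vy (i + 1) n)

lemma sweep_blks_inv (R s d r : ℕ) (hs0 : 0 < s) (xa : ℕ → Bool) (al okx oky : ℕ → ℕ → Bool)
    (vx vy : ℕ → ℕ → ℕ) (n : ℕ) : ∀ (i g : ℕ) (sc : Fin V) (z a : Fin U) (st' : SS U V)
      (u' : List (Cell U)), 0 < n →
      Sweep ⟨sc, 0, z, a, none⟩ (blks U R s d r xa al okx oky vx vy i n) g st' u' →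
      r < R ∧ ∃ (xa' : ℕ → Bool) (zc ac : ℕ → Fin U),
        u' = blks U R s d (r + 1) xa' (fun j => alN U (al j) (zc j))
          (fun j => okN U r (okx j) (vx j) (ac j)) (fun j => okN U r (oky j) (vy j) (ac j))
          vx vy i n := by
  induction n with
  | zero => intro i g sc z a st' u' h0; omega
  | succ n ih =>
    intro i g sc z a st' u' _ h
    rw [blks] at h
    cases h with
    | @cons _ st1 _ _ x' _ u1 g1 h hr =>
      rcases h with h | h
      swap
      · exact absurd rfl h.1
      obtain ⟨_, _, _, z', a', rfl, rfl⟩ := h
      obtain ⟨st2, w1, w2, g2, g3, h1, h2, rfl, rfl⟩ := sweep_append.1 hr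
      obtain ⟨h3, _⟩ := (sweep_iff_drun (body_noX _ _ _ _ _ _ _ _ _)).1 h1
      obtain ⟨hrR, hcn⟩ := drun_body_inv R s d r hs0 _ _ _ _ _ _ _ _ h3
      rw [drun_body R s d r hrR _ _ _ _ _ _ _ _ hcn] at h3
      simp only [Option.some.injEq, Prod.mk.injEq] at h3
      obtain ⟨rfl, rfl⟩ := h3
      refine ⟨hrR, ?_⟩
      rcases Nat.eq_zero_or_pos n with hn | hn
      · subst hn
        rw [blks] at h2
        cases h2
        refine ⟨fun _ => (xa i && decide (sc = 0)), fun _ => z', fun _ => a', ?_⟩
        rw [blks, blks]
      · obtain ⟨_, xa', zc, ac, rfl⟩ := ih _ _ _ _ _ _ _ hn h2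
        refine ⟨Function.update xa' i (xa i && decide (sc = 0)), Function.update zc i z',
          Function.update ac i a', ?_⟩
        have hcongr : ∀ (m i₀ : ℕ), i < i₀ →
            blks U R s d (r + 1) (Function.update xa' i (xa i && decide (sc = 0)))
              (fun j => alN U (al j) (Function.update zc i z' j))
              (fun j => okN U r (okx j) (vx j) (Function.update ac i a' j))
              (fun j => okN U r (oky j) (vy j) (Function.update ac i a' j)) vx vy i₀ m
            = blks U R s d (r + 1) xa' (fun j => alN U (al j) (zc j))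
              (fun j => okN U r (okx j) (vx j) (ac j)) (fun j => okN U r (oky j) (vy j) (ac j))
              vx vy i₀ m := by
          intro m
          induction m with
          | zero => intro i₀ _; rfl
          | succ m ihm =>
            intro i₀ hi₀
            rw [blks, blks, ihm (i₀ + 1) (by omega)]
            simp only [Function.update_of_ne (show i₀ ≠ i by omega)]
        conv_rhs => rw [blks]
        rw [hcongr n (i + 1) (by omega)]
        simp only [Function.update_self]

lemma sweep_blks (R s d r : ℕ) (hr : r < R) (xa : ℕ → Bool) (al okx oky : ℕ → ℕ → Bool)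
    (vx vy : ℕ → ℕ → ℕ) (zc ac : ℕ → Fin U) (n : ℕ) : ∀ (i : ℕ) (z a : Fin U),
      (∀ j, i ≤ j → j < i + n → cn U (al j) s = 0) →
      ∃ (z' a' : Fin U) (g : ℕ), Sweep (⟨cn V xa i, 0, z, a, none⟩ : SS U V)
        (blks U R s d r xa al okx oky vx vy i n) g ⟨cn V xa (i + n), 0, z', a', none⟩
        (blks U R s d (r + 1) (alN V xa 0) (fun j => alN U (al j) (zc j))
          (fun j => okN U r (okx j) (vx j) (ac j)) (fun j => okN U r (oky j) (vy j) (ac j))
          vx vy i n) := by
  induction n with
  | zero =>
    intro i z a _
    exact ⟨z, a, 0, .nil _⟩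
  | succ n ih =>
    intro i z a hcn
    obtain ⟨z', a', g, h⟩ := ih (i + 1) (zc i) (ac i) (fun j hj hj' => hcn j (by omega) (by omega))
    have h1 : Sweep (⟨cn V xa (i + 1), 0, zc i, ac i, none⟩ : SS U V)
        (body U R s d r (al i) (okx i) (oky i) (vx i) (vy i)) 0
        ⟨cn V xa (i + 1), 0, zc i, ac i, none⟩
        (body U R s d (r + 1) (alN U (al i) (zc i)) (okN U r (okx i) (vx i) (ac i))
          (okN U r (oky i) (vy i) (ac i)) (vx i) (vy i)) :=
      (sweep_iff_drun (body_noX _ _ _ _ _ _ _ _ _)).2
        ⟨drun_body R s d r hr (al i) (okx i) (oky i) (vx i) (vy i) (cn V xa (i + 1)) (zc i) (ac i)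
          (hcn i le_rfl (by omega)), rfl⟩
    have h2 := sweep_append.2 ⟨_, _, _, _, _, h1, h, rfl, rfl⟩
    have h3 : SStep (⟨cn V xa i, 0, z, a, none⟩ : SS U V) ((.X, xa i, true) : Cell U)
        ⟨cn V xa (i + 1), 0, zc i, ac i, none⟩ (.X, xa i && decide (cn V xa i = 0), true) := by
      refine Or.inl ⟨rfl, rfl, rfl, zc i, ac i, ?_, rfl⟩
      rw [cn_succ]
    have h4 := Sweep.cons h3 h2
    refine ⟨z', a', 0 + g + if ((.X, xa i, true) : Cell U).1 = .X then 1 else 0, ?_⟩
    rw [blks, blks]
    have : i + (n + 1) = i + 1 + n := by ring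
    rw [this]
    exact h4

/-! ### the final check -/

lemma frun_append (u v : List (Cell U)) : ∀ st : Bool × Phase,
    frun st (u ++ v) = (frun st u).bind (fun y => frun y v) := by
  induction u with
  | nil => intro st; simp [frun]
  | cons x u ih =>
    intro st
    simp only [List.cons_append, frun]
    cases fstep st x with
    | none => simp
    | some y => simp [ih]

lemma frun_digs (n : ℕ) : ∀ (r v : ℕ) (st : Bool × Phase), n ≤ r →
    frun st (digs U r n v) = some st := by
  induction n with
  | zero => intro r v st _; rw [digs_zero]; rfl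
  | succ n ih =>
    intro r v st hr
    obtain ⟨r, rfl⟩ : ∃ r', r = r' + 1 := ⟨r - 1, by omega⟩
    rw [digs, frun]
    simp only [fstep, Bool.false_eq_true, if_false, Option.bind_some]
    exact ih r (v / U) st (by omega)

lemma frun_digs_fail (n : ℕ) : ∀ (r v : ℕ) (st : Bool × Phase), r < n →
    frun st (digs U r n v) = none := by
  induction n with
  | zero => intro r v st h; omega
  | succ n ih =>
    intro r v st hr
    cases r with
    | zero =>
      rw [digs, frun]
      simp [fstep]
    | succ r =>
      rw [digs, frun]
      simp only [fstep, Bool.false_eq_true, if_false, Option.bind_some]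
      exact ih r (v / U) st (by omega)

lemma frun_dum (d : ℕ) (st : Bool × Phase) : frun st (dum U d) = some st := by
  induction d with
  | zero => rfl
  | succ d ih =>
    unfold dum at ih ⊢
    rw [List.replicate_succ, frun]
    simp only [fstep, Option.bind_some, ih]

/-- information drawn from the final check of a list of entries -/
lemma frun_ents_inv (R r : ℕ) (al ok : ℕ → Bool) (val : ℕ → ℕ) (n : ℕ) :
    ∀ (j : ℕ) (st st' : Bool × Phase), frun st (ents U R r al ok val j n) = some st' →
      st'.2 = st.2 ∨ ∃ J, j ≤ J ∧ J < j + n ∧ al J = true ∧ ok J = true ∧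
        ((st.2 = .x0 ∧ st'.2 = .x1 (decide (val J % 2 = 1))) ∨
          (st.2 = .y0 (decide (val J % 2 = 1)) ∧ st'.2 = .y1)) := by
  induction n with
  | zero =>
    intro j st st' h
    simp only [ents, frun, Option.some.injEq] at h
    left; rw [h]
  | succ n ih =>
    intro j st st' h
    rw [ents, frun_append] at h
    cases h1 : frun st (digs U r R (val j / 2)) with
    | none => rw [h1] at h; simp at h
    | some st1 =>
      have hst1 : st1 = st := by
        by_cases hr : R ≤ r
        · rw [frun_digs R r _ _ hr] at h1
          simpa using h1.symm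
        · rw [frun_digs_fail R r _ _ (by omega)] at h1
          simp at h1
      subst hst1
      rw [h1] at h
      simp only [Option.bind_some] at h
      rw [frun] at h
      cases h2 : fstep st1 ((.E (decide (val j % 2 = 1)), al j, ok j) : Cell U) with
      | none => rw [h2] at h; simp at h
      | some st2 =>
        rw [h2] at h
        simp only [Option.bind_some] at h
        have h3 := ih (j + 1) st2 st' h
        simp only [fstep] at h2
        split_ifs at h2 with h4 h5
        · split at h2
          · rename_i hph
            simp only [Option.some.injEq] at h2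
            subst h2
            rcases h3 with h3 | ⟨J, _, _, _, _, h6 | h6⟩
            · right
              exact ⟨j, le_rfl, by omega, h4, h5, Or.inl ⟨hph, h3⟩⟩
            · simp at h6
            · simp at h6
          · rename_i c' hph
            split_ifs at h2 with h7
            simp only [Option.some.injEq] at h2
            subst h2
            rcases h3 with h3 | ⟨J, _, _, _, _, h6 | h6⟩
            · right
              refine ⟨j, le_rfl, by omega, h4, h5, Or.inr ⟨?_, h3⟩⟩
              rw [hph, h7]
            · simp at h6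
            · simp at h6
          · simp at h2
        · simp only [Option.some.injEq] at h2
          subst h2
          rcases h3 with h3 | ⟨J, hJ1, hJ2, h6⟩
          · left; exact h3
          · right; exact ⟨J, by omega, by omega, h6⟩

lemma frun_ents_none (R : ℕ) (al ok : ℕ → Bool) (val : ℕ → ℕ) (n : ℕ) :
    ∀ (j : ℕ) (st : Bool × Phase), (∀ i, j ≤ i → i < j + n → al i = false) →
      frun st (ents U R R al ok val j n) = some st := by
  induction n with
  | zero => intro j st _; rfl
  | succ n ih =>
    intro j st h
    rw [ents, frun_append, frun_digs R R _ _ le_rfl]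
    simp only [Option.bind_some, frun, fstep, h j le_rfl (by omega), Bool.false_eq_true, if_false]
    exact ih (j + 1) st (fun i hi hi' => h i (by omega) (by omega))

lemma frun_ents_one (R : ℕ) (al ok : ℕ → Bool) (val : ℕ → ℕ) (J : ℕ)
    (hok : ok J = true) (sep : Bool) (n : ℕ) :
    ∀ j : ℕ, j ≤ J → J < j + n → (∀ i, i < j + n → (al i = true ↔ i = J)) →
      frun (sep, .x0) (ents U R R al ok val j n) = some (sep, .x1 (decide (val J % 2 = 1))) ∧
      frun (sep, .y0 (decide (val J % 2 = 1))) (ents U R R al ok val j n) = some (sep, .y1) := by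
  induction n with
  | zero => intro j h1 h2; omega
  | succ n ih =>
    intro j h1 h2 hal
    rw [ents]
    simp only [frun_append, frun_digs R R _ _ le_rfl, Option.bind_some]
    by_cases hj : j = J
    · subst hj
      have hj' : al j = true := (hal j (by omega)).2 rfl
      have hrest : ∀ i, j + 1 ≤ i → i < j + 1 + n → al i = false := by
        intro i hi hi'
        by_contra hne
        have := (hal i (by omega)).1 (by simpa using hne)
        omega
      simp only [frun, fstep, hj', hok, if_true, Option.bind_some,
        frun_ents_none R al ok val n (j + 1) _ hrest, and_self]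
    · have hj' : al j = false := by
        by_contra hne
        exact hj ((hal j (by omega)).1 (by simpa using hne))
      simp only [frun, fstep, hj', Bool.false_eq_true, if_false, Option.bind_some]
      exact ih (j + 1) (by omega) (by omega) (fun i hi => hal i (by omega))

/-- final check on a block, soundness -/
lemma frun_block_inv (R s d r : ℕ) (xa : Bool) (al okx oky : ℕ → Bool) (vx vy : ℕ → ℕ)
    (st st' : Bool × Phase)
    (h : frun st ((.X, xa, true) :: body U R s d r al okx oky vx vy) = some st') :
    (st.2 = .start ∨ st.2 = .y1) ∧ ((∃ c, st'.2 = .y0 c) ∨ (st'.2 = .y1 ∧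
      ∃ J J', J < s ∧ J' < s ∧ al J = true ∧ al J' = true ∧ okx J = true ∧ oky J' = true ∧
        (vx J % 2 = 1 ↔ vy J' % 2 = 1))) := by
  rw [frun] at h
  cases h1 : fstep st ((.X, xa, true) : Cell U) with
  | none => rw [h1] at h; simp at h
  | some st1 =>
    rw [h1] at h
    simp only [Option.bind_some] at h
    have h2 : (st.2 = .start ∨ st.2 = .y1) ∧ st1.2 = .x0 := by
      simp only [fstep] at h1
      split_ifs at h1
      split at h1
      · rename_i hph
        simp only [Option.some.injEq] at h1
        exact ⟨Or.inl hph, by rw [← h1]⟩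
      · rename_i hph
        simp only [Option.some.injEq] at h1
        exact ⟨Or.inr hph, by rw [← h1]⟩
      · simp at h1
    refine ⟨h2.1, ?_⟩
    unfold body at h
    rw [frun_append, frun_append] at h
    cases h3 : frun st1 (ents U R r al okx vx 0 s) with
    | none => rw [h3] at h; simp at h
    | some st2 =>
      rw [h3] at h
      simp only [Option.bind_some, frun_dum, frun] at h
      cases h4 : fstep st2 ((.Y, true, true) : Cell U) with
      | none => rw [h4] at h; simp at h
      | some st3 =>
        rw [h4] at h
        simp only [Option.bind_some, frun_append] at h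
        cases h5 : frun st3 (ents U R r al oky vy 0 s) with
        | none => rw [h5] at h; simp at h
        | some st4 =>
          rw [h5] at h
          simp only [Option.bind_some, frun_dum, Option.some.injEq] at h
          subst h
          have h6 := frun_ents_inv R r al okx vx s 0 _ _ h3
          have h7 := frun_ents_inv R r al oky vy s 0 _ _ h5
          simp only [fstep] at h4
          split at h4
          swap
          · simp at h4
          rename_i c hc
          simp only [Option.some.injEq] at h4
          subst h4
          rcases h6 with h6 | ⟨J, _, hJ, halJ, hokJ, h8 | h8⟩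
          · rw [hc, h2.2] at h6; simp at h6
          · rw [hc] at h8
            have hcJ : c = decide (vx J % 2 = 1) := by simpa using h8.2
            rcases h7 with h7 | ⟨J', _, hJ', halJ', hokJ', h9 | h9⟩
            · left; exact ⟨c, h7⟩
            · simp at h9
            · right
              refine ⟨h9.2, J, J', by omega, by omega, halJ, halJ', hokJ, hokJ', ?_⟩
              have : c = decide (vy J' % 2 = 1) := by simpa using h9.1
              rw [hcJ] at this
              simpa using this
          · rw [h2.2] at h8; simp at h8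

lemma frun_block (R s d : ℕ) (xa : Bool) (al okx oky : ℕ → Bool) (vx vy : ℕ → ℕ)
    (sep : Bool) (ph : Phase) (hph : ph = .start ∨ ph = .y1) (hsep : (sep && xa) = false) (J : ℕ)
    (hJ : J < s) (hal : ∀ i, i < s → (al i = true ↔ i = J)) (hokx : okx J = true)
    (hoky : oky J = true) (hv : vx J % 2 = vy J % 2) :
    frun (sep, ph) ((.X, xa, true) :: body U R s d R al okx oky vx vy)
      = some (sep || xa, .y1) := by
  have h1 := (frun_ents_one (U := U) R al okx vx J hokx (sep || xa) s 0 (by omega) (by omega)
    (fun i hi => hal i (by omega))).1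
  have h2 := (frun_ents_one (U := U) R al oky vy J hoky (sep || xa) s 0 (by omega) (by omega)
    (fun i hi => hal i (by omega))).2
  have h0 : fstep (sep, ph) ((.X, xa, true) : Cell U) = some (sep || xa, .x0) := by
    simp only [fstep]
    rw [hsep]
    rcases hph with rfl | rfl <;> simp
  rw [frun, h0]
  simp only [Option.bind_some]
  unfold body
  rw [frun_append, frun_append, h1]
  simp only [Option.bind_some, frun_dum, frun, fstep, frun_append]
  rw [hv, h2]
  simp only [Option.bind_some, frun_dum]

end Pool.Agent.helper91.OT
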