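import Pool.Agent.helper91.OT.Geo

set_option autoImplicit false

namespace Pool.Agent.helper91.OT

open Filter Real

/-! ## Asymptotics -/

lemma ev (x y K : ℝ) (h : x < y) :
    ∀ᶠ R : ℕ in atTop, K * ((R : ℝ) + 1) * (2 : ℝ) ^ (x * R) < (2 : ℝ) ^ (y * R) := by
  have h2 : (0 : ℝ) < 2 := by norm_num
  set r : ℝ := (2 : ℝ) ^ (x - y) with hr
  have hr0 : 0 < r := rpow_pos_of_pos h2 _
  have hr1 : r < 1 := rpow_lt_one_of_one_lt_of_neg (by norm_num) (by linarith)
  have h3 : Tendsto (fun R : ℕ => K * ((R : ℝ) * r ^ R + r ^ R)) atTop (nhds (K * (0 + 0))) :=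
    ((tendsto_self_mul_const_pow_of_lt_one hr0.le hr1).add
      (tendsto_pow_atTop_nhds_zero_of_lt_one hr0.le hr1)).const_mul K
  simp only [add_zero, mul_zero] at h3
  filter_upwards [h3.eventually (gt_mem_nhds zero_lt_one)] with R hR
  have h4 : (2 : ℝ) ^ (x * R) = r ^ R * (2 : ℝ) ^ (y * R) := by
    rw [hr, ← rpow_natCast, ← rpow_mul h2.le, ← rpow_add h2]
    congr 1; ring
  have h5 : (0 : ℝ) < (2 : ℝ) ^ (y * R) := rpow_pos_of_pos h2 _
  rw [h4]
  calc K * ((R : ℝ) + 1) * (r ^ R * (2 : ℝ) ^ (y * R))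
      = (K * ((R : ℝ) * r ^ R + r ^ R)) * (2 : ℝ) ^ (y * R) := by ring
    _ < 1 * (2 : ℝ) ^ (y * R) := by gcongr
    _ = _ := one_mul _

/-! ## The lower bound for all machines -/

theorem lower_final (u v : ℕ) (hu : 0 < u) (hv : 0 < v) (a δ : ℝ) (ha : 0 ≤ a) (hδ : 0 ≤ δ)
    (hav : a * (u + v : ℝ) < v) (hδu : δ * (u + v : ℝ) < u)
    (M : NTM (Letter (2 ^ u))) (C : ℝ)
    (hM : ∀ x, (mach (2 ^ u) (2 ^ v)).Accepts x ↔ M.Accepts x)
    (hC : ∀ x, (mach (2 ^ u) (2 ^ v)).Accepts x → ∃ T G : ℕ, M.AcceptsIn x T G ∧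
      (T : ℝ) ≤ C * (x.length : ℝ) ^ (1 + δ) + C ∧ (G : ℝ) ≤ C * (x.length : ℝ) ^ a + C) :
    False := by
  have h2 : (0 : ℝ) < 2 := by norm_num
  have hlog2 : 0 < Real.log 2 := Real.log_pos (by norm_num)
  have hu' : (0 : ℝ) < u := by exact_mod_cast hu
  have hv' : (0 : ℝ) < v := by exact_mod_cast hv
  have ha1 : a < 1 := by
    by_contra hcon
    have : (u + v : ℝ) ≤ a * (u + v) := by nlinarith
    linarith
  have hδ1 : δ < 1 := by
    by_contra hcon
    have : (u + v : ℝ) ≤ δ * (u + v) := by nlinarith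
    linarith
  -- the exponent ρ
  set η : ℝ := min ((v - a * (u + v)) / 2) ((u - δ * (u + v)) / 2) with hη
  have hη0 : 0 < η := lt_min (by linarith) (by linarith)
  have hη1 : η ≤ (v - a * (u + v)) / 2 := min_le_left _ _
  have hη2 : η ≤ (u - δ * (u + v)) / 2 := min_le_right _ _
  set ρ : ℝ := u + v + η with hρ
  have hρ0 : 0 < ρ := by positivity
  have haη : a * η ≤ η := mul_le_of_le_one_left hη0.le ha1.le
  have hδη : δ * η ≤ η := mul_le_of_le_one_left hη0.le hδ1.le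
  have haρ : a * ρ < v := by
    have h : a * ρ = a * (u + v) + a * η := by rw [hρ]; ring
    rw [h]; linarith
  have hδρ : δ * ρ < u := by
    have h : δ * ρ = δ * (u + v) + δ * η := by rw [hρ]; ring
    rw [h]; linarith
  -- the constants
  set C' : ℝ := max C 1 with hC'
  have hC'1 : 1 ≤ C' := le_max_right _ _
  have hCC' : C ≤ C' := le_max_left _ _
  set D : ℝ := (Nat.card M.Tr : ℝ) with hD
  have hD1 : 1 ≤ D := by
    have := M.finQ
    have := M.finΓ
    have : Nonempty M.Tr := ⟨(M.start, M.blank, .left)⟩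
    have : 0 < Nat.card M.Tr := Nat.card_pos
    rw [hD]; exact_mod_cast this
  have hlogD : 0 ≤ Real.log D := Real.log_nonneg hD1
  set K₁ : ℝ := 2 + 2 * (Nat.card M.Q : ℝ) * (2 * C' + 2) with hK₁
  have hK₁1 : 1 ≤ K₁ := by
    have : (0 : ℝ) ≤ 2 * (Nat.card M.Q : ℝ) * (2 * C' + 2) := by positivity
    linarith
  set K₂ : ℝ := Real.log K₁ + a * ρ * Real.log 2 with hK₂
  have hK₂0 : 0 ≤ K₂ := by
    have := Real.log_nonneg hK₁1
    positivity
  obtain ⟨R, ⟨hE1, hE2⟩, hE3⟩ := (((ev 0 η 8 hη0).and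
    (ev (δ * ρ) u (18 * C' * K₂ * 288 ^ 2) hδρ)).and
    (ev (a * ρ) v ((2 * C' * Real.log D + ρ * Real.log 2) / Real.log 2) haρ)).exists
  -- the parameters
  set k : ℕ := (2 ^ v) ^ R with hk
  set s : ℕ := (2 ^ u) ^ R with hs
  set q : ℕ := 2 * s with hq
  set d : ℕ := 1 + s * (R + 1) with hd
  set n : ℕ := k * (2 * (1 + s * (R + 1) + d)) with hn
  have hk0 : 0 < k := by positivity
  have hs0 : 0 < s := by positivity
  have hd0 : 0 < d := by omega
  have hn4 : n = 4 * (k * d) := by rw [hn, ← hd]; ring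
  have hn0 : 0 < n := by rw [hn4]; positivity
  have hkR : (k : ℝ) = (2 : ℝ) ^ ((v : ℝ) * R) := by
    rw [hk]; push_cast
    rw [rpow_mul h2.le, rpow_natCast, rpow_natCast]
  have hsR : (s : ℝ) = (2 : ℝ) ^ ((u : ℝ) * R) := by
    rw [hs]; push_cast
    rw [rpow_mul h2.le, rpow_natCast, rpow_natCast]
  have hnle : (n : ℝ) ≤ (2 : ℝ) ^ (ρ * R) := by
    have h3 : (n : ℝ) ≤ 8 * ((R : ℝ) + 1) * (k * s) := by
      have h4 : n ≤ 8 * (R + 1) * (k * s) := by
        rw [hn4, hd]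
        have h5 : 1 ≤ s * (R + 1) := Nat.one_le_iff_ne_zero.2 (by positivity)
        calc 4 * (k * (1 + s * (R + 1))) ≤ 4 * (k * (s * (R + 1) + s * (R + 1))) := by gcongr
          _ = 8 * (R + 1) * (k * s) := by ring
      exact_mod_cast h4
    have h6 : (2 : ℝ) ^ (ρ * R) = (2 : ℝ) ^ (η * R) * (k * s) := by
      rw [hkR, hsR, ← rpow_add h2, ← rpow_add h2, hρ]
      congr 1; ring
    rw [h6]
    refine h3.trans ?_
    have h7 : (0 : ℝ) ≤ k * s := by positivity
    have h8 : 8 * ((R : ℝ) + 1) ≤ (2 : ℝ) ^ (η * R) := by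
      simp only [zero_mul, rpow_zero, mul_one] at hE1
      exact hE1.le
    exact mul_le_mul_of_nonneg_right h8 h7
  have hn1 : (1 : ℝ) ≤ n := by exact_mod_cast hn0
  have hnpos : (0 : ℝ) < n := by linarith
  have hna : (n : ℝ) ^ a ≤ (2 : ℝ) ^ (a * ρ * R) := by
    calc (n : ℝ) ^ a ≤ ((2 : ℝ) ^ (ρ * R)) ^ a := rpow_le_rpow hnpos.le hnle ha
      _ = _ := by rw [← rpow_mul h2.le]; congr 1; ring
  have hnδ : (n : ℝ) ^ δ ≤ (2 : ℝ) ^ (δ * ρ * R) := by
    calc (n : ℝ) ^ δ ≤ ((2 : ℝ) ^ (ρ * R)) ^ δ := rpow_le_rpow hnpos.le hnle hδ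
      _ = _ := by rw [← rpow_mul h2.le]; congr 1; ring
  have hna1 : (1 : ℝ) ≤ (n : ℝ) ^ a := one_le_rpow hn1 ha
  have hnδ1 : (1 : ℝ) ≤ (n : ℝ) ^ δ := one_le_rpow hn1 hδ
  have hn1δ : (n : ℝ) ^ (1 + δ) = n * (n : ℝ) ^ δ := by
    rw [rpow_add hnpos, rpow_one]
  have hX1 : (1 : ℝ) ≤ (2 : ℝ) ^ (a * ρ * R) := hna1.trans hna
  -- resources
  set T0 : ℕ := ⌊C' * (n : ℝ) ^ (1 + δ) + C'⌋₊ with hT0
  set G0 : ℕ := ⌊C' * (n : ℝ) ^ a + C'⌋₊ with hG0
  set C0 : ℕ := 2 * (T0 / d + 1) / k with hC0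
  have hT0le : (T0 : ℝ) ≤ 2 * C' * (n * (n : ℝ) ^ δ) := by
    have h3 : (T0 : ℝ) ≤ C' * (n : ℝ) ^ (1 + δ) + C' := Nat.floor_le (by positivity)
    rw [hn1δ] at h3
    have h4 : 1 ≤ (n : ℝ) * (n : ℝ) ^ δ := one_le_mul_of_one_le_of_one_le hn1 hnδ1
    have h5 : C' ≤ C' * (n * (n : ℝ) ^ δ) := le_mul_of_one_le_right (by linarith) h4
    linarith
  have hG0le : (G0 : ℝ) ≤ 2 * C' * (2 : ℝ) ^ (a * ρ * R) := by
    have h3 : (G0 : ℝ) ≤ C' * (n : ℝ) ^ a + C' := Nat.floor_le (by positivity)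
    have h4 : C' ≤ C' * (2 : ℝ) ^ (a * ρ * R) := le_mul_of_one_le_right (by linarith) hX1
    have h5 : C' * (n : ℝ) ^ a ≤ C' * (2 : ℝ) ^ (a * ρ * R) :=
      mul_le_mul_of_nonneg_left hna (by linarith)
    linarith
  have hC0le : (C0 : ℝ) ≤ 18 * C' * (2 : ℝ) ^ (δ * ρ * R) := by
    have hdR : (0 : ℝ) < d := by exact_mod_cast hd0
    have hkR0 : (0 : ℝ) < k := by exact_mod_cast hk0
    have hk1 : (1 : ℝ) ≤ k := by exact_mod_cast hk0
    have h3 : (C0 : ℝ) ≤ (2 * (T0 / d + 1) : ℝ) / k := by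
      rw [hC0]
      refine (Nat.cast_div_le).trans ?_
      have h4 : (((T0 / d : ℕ)) : ℝ) ≤ (T0 : ℝ) / d := Nat.cast_div_le
      push_cast
      gcongr
    have h5 : (2 * (T0 / d + 1) : ℝ) / k ≤ 16 * C' * (n : ℝ) ^ δ + 2 := by
      have h6 : (n : ℝ) = 4 * (k * d) := by exact_mod_cast hn4
      have h7 : (2 * (T0 / d + 1) : ℝ) / k = 2 * T0 / (k * d) + 2 / k := by field_simp
      rw [h7]
      have h8 : 2 * (T0 : ℝ) / (k * d) ≤ 16 * C' * (n : ℝ) ^ δ := by
        rw [div_le_iff₀ (by positivity)]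
        calc 2 * (T0 : ℝ) ≤ 2 * (2 * C' * (n * (n : ℝ) ^ δ)) := by gcongr
          _ = 16 * C' * (n : ℝ) ^ δ * (k * d) := by
            conv_lhs => rw [h6]
            conv_rhs => rw [h6]
            ring
      have h9 : (2 : ℝ) / k ≤ 2 := by
        rw [div_le_iff₀ hkR0]; linarith
      linarith
    calc (C0 : ℝ) ≤ 16 * C' * (n : ℝ) ^ δ + 2 := h3.trans h5
      _ ≤ 18 * C' * (n : ℝ) ^ δ := by
          have h6 : 1 ≤ C' * (n : ℝ) ^ δ := one_le_mul_of_one_le_of_one_le hC'1 hnδ1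
          linarith
      _ ≤ 18 * C' * (2 : ℝ) ^ (δ * ρ * R) := by gcongr
  have hlog : Real.log (M.nout G0) ≤ K₂ * ((R : ℝ) + 1) := by
    have h3 : M.nout G0 ≤ K₁ * (2 : ℝ) ^ (a * ρ * R) := by
      unfold NTM.nout
      have hQ : (0 : ℝ) ≤ (Nat.card M.Q : ℝ) := by positivity
      calc 2 + 2 * (Nat.card M.Q : ℝ) * ((G0 : ℝ) + 2)
          ≤ 2 * (2 : ℝ) ^ (a * ρ * R) + 2 * (Nat.card M.Q : ℝ) *
            (2 * C' * (2 : ℝ) ^ (a * ρ * R) + 2 * (2 : ℝ) ^ (a * ρ * R)) := by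
            gcongr
            · linarith
            · linarith
        _ = _ := by rw [hK₁]; ring
    have h4 : 0 < M.nout G0 := by
      unfold NTM.nout; positivity
    calc Real.log (M.nout G0) ≤ Real.log (K₁ * (2 : ℝ) ^ (a * ρ * R)) := Real.log_le_log h4 h3
      _ = Real.log K₁ + a * ρ * R * Real.log 2 := by
          rw [Real.log_mul (by positivity) (by positivity), Real.log_rpow h2]
      _ ≤ K₂ * ((R : ℝ) + 1) := by
          rw [hK₂]
          have h5 := Real.log_nonneg hK₁1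
          have h6 : 0 ≤ a * ρ * Real.log 2 := by positivity
          have h7 : (0 : ℝ) ≤ R := Nat.cast_nonneg R
          have h8 := mul_nonneg h5 h7
          have h9 : (Real.log K₁ + a * ρ * Real.log 2) * ((R : ℝ) + 1)
              = Real.log K₁ * R + Real.log K₁ + a * ρ * R * Real.log 2 + a * ρ * Real.log 2 := by
            ring
          rw [h9]; linarith
  -- apply the lower bound
  have hmain := lower_main (A := Letter (2 ^ u)) (k := k) (s := s) (q := q) M hk0 hs0 rfl d hd0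
    (own k hk0 d) (own_sep k hk0 d) (fun o _ p => own_exit k hk0 d hd0 o p)
    (enc (2 ^ u) R d) (fun o ho x ω ω' h => enc_local M k hk0 d hd o ho x ω ω' h)
    (fun ω h => enc_sound (V := 2 ^ v) R d hk0 rfl ω ((hM _).2 h)) T0 G0 C0
    (by
      intro ω hω
      have hacc := enc_complete (V := 2 ^ v) R d hk ω hω
      obtain ⟨T, G, h3, h4, h5⟩ := hC _ hacc
      rw [enc_length] at h4 h5
      refine ⟨T, ?_, G, ?_, h3⟩
      · apply Nat.le_floor
        refine h4.trans ?_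
        gcongr
      · apply Nat.le_floor
        refine h5.trans ?_
        gcongr)
    (by
      have h3 := Nat.lt_mul_div_succ (2 * (T0 / d + 1)) hk0
      rw [hC0]
      exact h3.le)
    (by
      have hsR0 : (0 : ℝ) < s := by exact_mod_cast hs0
      have hnout : 0 ≤ Real.log (M.nout G0) := by
        apply Real.log_nonneg
        unfold NTM.nout
        have : (0 : ℝ) ≤ 2 * (Nat.card M.Q : ℝ) * ((G0 : ℝ) + 2) := by positivity
        linarith
      have h3 : (C0 : ℝ) * Real.log (M.nout G0)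
          ≤ (18 * C' * (2 : ℝ) ^ (δ * ρ * R)) * (K₂ * ((R : ℝ) + 1)) := by
        gcongr
      have h4 : (C0 : ℝ) * Real.log (M.nout G0) * 288 ^ 2 ≤ s := by
        calc (C0 : ℝ) * Real.log (M.nout G0) * 288 ^ 2
            ≤ (18 * C' * (2 : ℝ) ^ (δ * ρ * R)) * (K₂ * ((R : ℝ) + 1)) * 288 ^ 2 := by gcongr
          _ = 18 * C' * K₂ * 288 ^ 2 * ((R : ℝ) + 1) * (2 : ℝ) ^ (δ * ρ * R) := by ring
          _ ≤ s := by rw [hsR]; exact hE2.le
      have h5 : (C0 : ℝ) * Real.log (M.nout G0) / ((1 / 12 : ℝ) ^ 2 / 2 * s) ≤ 1 / 288 := by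
        rw [div_le_iff₀ (by positivity)]
        have h6 : (1 : ℝ) / 288 * ((1 / 12 : ℝ) ^ 2 / 2 * s) = s / 288 ^ 2 := by ring
        rw [h6, le_div_iff₀ (by norm_num)]
        exact h4
      calc (C0 : ℝ) * Real.log (M.nout G0) / ((1 / 12 : ℝ) ^ 2 / 2 * s) + (1 / 12 : ℝ) ^ 2 / 2
          ≤ 1 / 288 + (1 / 12 : ℝ) ^ 2 / 2 := by gcongr
        _ = (1 / 12 : ℝ) ^ 2 := by norm_num)
  -- contradiction
  have hdR : (0 : ℝ) < d := by exact_mod_cast hd0
  have h3 : (k : ℝ) * Real.log 2 ≤ G0 * Real.log D + Real.log d := by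
    have h4 := Real.log_le_log (by positivity) hmain
    rw [Real.log_pow, Real.log_mul (by positivity) hdR.ne', Real.log_pow] at h4
    exact h4
  have h5 : Real.log d ≤ ρ * Real.log 2 * R := by
    have h6 : (d : ℝ) ≤ n := by
      have : d ≤ n := by
        rw [hn4]
        calc d = 1 * (1 * d) := by ring
          _ ≤ 4 * (k * d) := by gcongr <;> omega
      exact_mod_cast this
    calc Real.log d ≤ Real.log ((2 : ℝ) ^ (ρ * R)) := Real.log_le_log hdR (h6.trans hnle)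
      _ = _ := by rw [Real.log_rpow h2]; ring
  have h7 : (G0 : ℝ) * Real.log D + Real.log d
      ≤ (2 * C' * Real.log D + ρ * Real.log 2) * (((R : ℝ) + 1) * (2 : ℝ) ^ (a * ρ * R)) := by
    have hR0 : (0 : ℝ) ≤ R := Nat.cast_nonneg R
    have h8 : (G0 : ℝ) * Real.log D ≤ 2 * C' * Real.log D * (((R : ℝ) + 1) *
        (2 : ℝ) ^ (a * ρ * R)) := by
      calc (G0 : ℝ) * Real.log D ≤ 2 * C' * (2 : ℝ) ^ (a * ρ * R) * Real.log D := by gcongr
        _ = 2 * C' * Real.log D * (1 * (2 : ℝ) ^ (a * ρ * R)) := by ring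
        _ ≤ _ := by gcongr; linarith
    have h9 : ρ * Real.log 2 * R ≤ ρ * Real.log 2 * (((R : ℝ) + 1) *
        (2 : ℝ) ^ (a * ρ * R)) := by
      have h10 : (R : ℝ) ≤ ((R : ℝ) + 1) * (2 : ℝ) ^ (a * ρ * R) := by
        have h11 : (R : ℝ) + 1 ≤ ((R : ℝ) + 1) * (2 : ℝ) ^ (a * ρ * R) :=
          le_mul_of_one_le_right (by linarith) hX1
        linarith
      exact mul_le_mul_of_nonneg_left h10 (by positivity)
    linarith
  have h10 : (2 * C' * Real.log D + ρ * Real.log 2) * (((R : ℝ) + 1) * (2 : ℝ) ^ (a * ρ * R))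
      < k * Real.log 2 := by
    have h11 := mul_lt_mul_of_pos_right hE3 hlog2
    rw [← hkR] at h11
    calc _ = (2 * C' * Real.log D + ρ * Real.log 2) / Real.log 2 * ((R : ℝ) + 1) *
          (2 : ℝ) ^ (a * ρ * R) * Real.log 2 := by field_simp
      _ < _ := h11
  linarith

/-! ## The upper bound -/

theorem upper_final (u v : ℕ) (hu : 0 < u) (hv : 0 < v) (b : ℝ)
    (hb : (v : ℝ) / (u + v) < b) :
    {x | (mach (2 ^ u) (2 ^ v)).Accepts x} ∈
      Nondet (Letter (2 ^ u)) (fun n => n * Real.log n) (fun n => (n : ℝ) ^ b) := by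
  have hlog2 : 0 < Real.log 2 := Real.log_pos (by norm_num)
  have hu' : (0 : ℝ) < u := by exact_mod_cast hu
  have hv' : (0 : ℝ) < v := by exact_mod_cast hv
  set κ : ℝ := (v : ℝ) / (u + v) with hκ
  have hκ0 : 0 < κ := by positivity
  have hbκ : 0 < b - κ := by linarith
  set C : ℝ := 4 / Real.log 2 + 2 / ((b - κ) * Real.log 2) + 3 with hC
  have hC0 : 0 ≤ C := by positivity
  have hC1 : 4 / Real.log 2 ≤ C := by
    have : 0 ≤ 2 / ((b - κ) * Real.log 2) := by positivity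
    linarith
  have hC2 : 2 / ((b - κ) * Real.log 2) ≤ C := by
    have : 0 ≤ 4 / Real.log 2 := by positivity
    linarith
  have hC3 : 3 ≤ C := by
    have : 0 ≤ 4 / Real.log 2 := by positivity
    have : 0 ≤ 2 / ((b - κ) * Real.log 2) := by positivity
    linarith
  refine ⟨mach (2 ^ u) (2 ^ v), C, fun x => Iff.rfl, ?_⟩
  intro x hx
  obtain ⟨R, m, hm0, hm1, hm2, T, hT, G, hG, hacc⟩ := resources x hx
  refine ⟨T, G, hacc, ?_, ?_⟩
  all_goals
    have hn2 : 2 ≤ x.length := by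
      have h1 : 1 ≤ m * (2 ^ u) ^ R := Nat.one_le_iff_ne_zero.2 (by positivity)
      have h2 : 2 * m * (2 ^ u) ^ R = 2 * (m * (2 ^ u) ^ R) := by ring
      omega
    have hnR : (2 : ℝ) ≤ x.length := by exact_mod_cast hn2
    have hnpos : (0 : ℝ) < x.length := by linarith
    have hlogn : Real.log 2 ≤ Real.log x.length := Real.log_le_log (by norm_num) hnR
    have hlogn0 : 0 ≤ Real.log x.length := by linarith
    have hR : (R : ℝ) ≤ Real.log x.length / Real.log 2 := by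
      rw [le_div_iff₀ hlog2]
      have h1 : 2 ^ R ≤ x.length := by
        calc 2 ^ R ≤ (2 ^ u) ^ R := Nat.pow_le_pow_left (by
              calc 2 = 2 ^ 1 := by norm_num
                _ ≤ 2 ^ u := Nat.pow_le_pow_right (by norm_num) hu) R
          _ = 1 * 1 * (2 ^ u) ^ R := by ring
          _ ≤ 2 * m * (2 ^ u) ^ R := by gcongr <;> omega
          _ ≤ x.length := hm1
      have h2 : ((2 : ℝ) ^ R) ≤ x.length := by exact_mod_cast h1
      have h3 := Real.log_le_log (by positivity) h2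
      rwa [Real.log_pow] at h3
  · -- time
    have h1 : (T : ℝ) ≤ R * (2 * x.length + 2) + x.length + 3 := by exact_mod_cast hT
    have h2 : (R : ℝ) * (2 * x.length + 2) ≤ Real.log x.length / Real.log 2 * (3 * x.length) := by
      have : (2 * x.length + 2 : ℝ) ≤ 3 * x.length := by linarith
      gcongr
    have h3 : (x.length : ℝ) ≤ x.length * Real.log x.length / Real.log 2 := by
      rw [le_div_iff₀ hlog2]
      gcongr
    have h4 : 0 ≤ (x.length : ℝ) * Real.log x.length := by positivity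
    calc (T : ℝ) ≤ Real.log x.length / Real.log 2 * (3 * x.length)
          + x.length * Real.log x.length / Real.log 2 + 3 := by linarith
      _ = 4 / Real.log 2 * (x.length * Real.log x.length) + 3 := by ring
      _ ≤ C * (x.length * Real.log x.length) + C := by gcongr
  · -- guesses
    have h1 : (G : ℝ) ≤ R * (m + 1) + 1 := by exact_mod_cast hG
    have hmR : (1 : ℝ) ≤ m := by exact_mod_cast hm0
    have h2 : (m : ℝ) ≤ (x.length : ℝ) ^ κ := by
      have h3 : m ^ (u + v) ≤ x.length ^ v := by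
        calc m ^ (u + v) = m ^ v * m ^ u := by rw [pow_add, mul_comm]
          _ ≤ m ^ v * ((2 ^ v) ^ R) ^ u := by gcongr
          _ = (m * (2 ^ u) ^ R) ^ v := by
            rw [mul_pow]
            congr 1
            simp only [← pow_mul]
            congr 1; ring
          _ ≤ x.length ^ v := by
            apply Nat.pow_le_pow_left
            calc m * (2 ^ u) ^ R = 1 * m * (2 ^ u) ^ R := by ring
              _ ≤ 2 * m * (2 ^ u) ^ R := by gcongr; norm_num
              _ ≤ x.length := hm1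
      have h4 : (m : ℝ) ^ (u + v) ≤ (x.length : ℝ) ^ v := by exact_mod_cast h3
      have h5 : ((m : ℝ) ^ (u + v)) ^ ((1 : ℝ) / (u + v)) ≤
          ((x.length : ℝ) ^ v) ^ ((1 : ℝ) / (u + v)) :=
        Real.rpow_le_rpow (by positivity) h4 (by positivity)
      rw [← Real.rpow_natCast, ← Real.rpow_natCast, ← Real.rpow_mul (by positivity),
        ← Real.rpow_mul (by positivity)] at h5
      have h6 : ((u + v : ℕ) : ℝ) * (1 / (u + v)) = 1 := by push_cast; field_simp
      have h7 : (v : ℝ) * (1 / (u + v)) = κ := by rw [hκ]; ring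
      rw [h6, h7, Real.rpow_one] at h5
      exact h5
    have h8 : Real.log x.length ≤ (x.length : ℝ) ^ (b - κ) / (b - κ) :=
      Real.log_le_rpow_div hnpos.le hbκ
    have h9 : (R : ℝ) * (m + 1) ≤ 2 / ((b - κ) * Real.log 2) * (x.length : ℝ) ^ b := by
      calc (R : ℝ) * (m + 1) ≤ (Real.log x.length / Real.log 2) * (2 * m) := by
            gcongr
            linarith
        _ ≤ ((x.length : ℝ) ^ (b - κ) / (b - κ) / Real.log 2) * (2 * (x.length : ℝ) ^ κ) := by
            gcongr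
        _ = 2 / ((b - κ) * Real.log 2) * ((x.length : ℝ) ^ (b - κ) * (x.length : ℝ) ^ κ) := by
            field_simp
        _ = _ := by rw [← Real.rpow_add hnpos]; congr 2; ring
    calc (G : ℝ) ≤ 2 / ((b - κ) * Real.log 2) * (x.length : ℝ) ^ b + 1 := by linarith
      _ ≤ C * (x.length : ℝ) ^ b + C := by
        have : (0 : ℝ) ≤ (x.length : ℝ) ^ b := by positivity
        nlinarith

/-- The class is monotone. -/
lemma nondet_mono (A : Type) (t t' g g' : ℕ → ℝ) (K : ℝ) (hK : 0 ≤ K)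
    (ht0 : ∀ n, 0 ≤ t n) (hg0 : ∀ n, 0 ≤ g n)
    (ht : ∀ n, t n ≤ K * t' n + K) (hg : ∀ n, g n ≤ K * g' n + K)
    (ht'0 : ∀ n, 0 ≤ t' n) (hg'0 : ∀ n, 0 ≤ g' n) : Nondet A t g ⊆ Nondet A t' g' := by
  rintro L ⟨M, C, hM, hC⟩
  refine ⟨M, |C| * (K + 1), hM, ?_⟩
  intro x hx
  obtain ⟨T, G, h, hT, hG⟩ := hC x hx
  have hCa : C ≤ |C| := le_abs_self C
  have hC0 : 0 ≤ |C| := abs_nonneg C
  refine ⟨T, G, h, ?_, ?_⟩
  · calc (T : ℝ) ≤ C * t x.length + C := hT
      _ ≤ |C| * t x.length + |C| := by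
          have := mul_le_mul_of_nonneg_right hCa (ht0 x.length)
          linarith
      _ ≤ |C| * (K * t' x.length + K) + |C| := by
          have := mul_le_mul_of_nonneg_left (ht x.length) hC0
          linarith
      _ ≤ |C| * (K + 1) * t' x.length + |C| * (K + 1) := by
          have := mul_nonneg hC0 (ht'0 x.length)
          nlinarith
  · calc (G : ℝ) ≤ C * g x.length + C := hG
      _ ≤ |C| * g x.length + |C| := by
          have := mul_le_mul_of_nonneg_right hCa (hg0 x.length)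
          linarith
      _ ≤ |C| * (K * g' x.length + K) + |C| := by
          have := mul_le_mul_of_nonneg_left (hg x.length) hC0
          linarith
      _ ≤ |C| * (K + 1) * g' x.length + |C| * (K + 1) := by
          have := mul_nonneg hC0 (hg'0 x.length)
          nlinarith

/-- **Main theorem.** -/
theorem main (a b δ : ℝ) (ha : 0 ≤ a) (hab : a < b) (hδ : 0 ≤ δ) (hbδ : b + δ < 1) :
    ∃ u : ℕ, ∃ L : Set (List (Letter (2 ^ u))),
      L ∈ Nondet (Letter (2 ^ u)) (fun n => n * Real.log n) (fun n => (n : ℝ) ^ b) ∧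
      L ∉ Nondet (Letter (2 ^ u)) (fun n => (n : ℝ) ^ (1 + δ)) (fun n => (n : ℝ) ^ a) := by
  obtain ⟨r, hr1, hr2⟩ := exists_rat_btwn hab
  have hr0 : (0 : ℝ) < r := lt_of_le_of_lt ha hr1
  have hr0' : 0 < r := by exact_mod_cast hr0
  have hr1' : (r : ℝ) < 1 := by linarith
  have hr1'' : r < 1 := by exact_mod_cast hr1'
  set v : ℕ := r.num.toNat with hv
  set N : ℕ := r.den with hN
  have hnum : 0 < r.num := Rat.num_pos.2 hr0'
  have hvnum : (v : ℤ) = r.num := Int.toNat_of_nonneg hnum.le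
  have hN0 : 0 < N := r.den_pos
  have hrv : (r : ℝ) = v / N := by
    have h1 : (r : ℝ) = (r.num : ℝ) / (r.den : ℝ) := by exact_mod_cast (Rat.num_div_den r).symm
    rw [h1, ← hN, ← hvnum]
    simp
  have hNR : (0 : ℝ) < N := by exact_mod_cast hN0
  have hvN : v < N := by
    have : (v : ℝ) < N := by
      rw [hrv, div_lt_one hNR] at hr1'
      exact hr1'
    exact_mod_cast this
  have hv0 : 0 < v := by
    have : (0 : ℤ) < v := by rw [hvnum]; exact hnum
    exact_mod_cast this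
  set u : ℕ := N - v with hu
  have hu0 : 0 < u := by omega
  have huvN : (u : ℝ) + v = N := by
    have : u + v = N := by omega
    exact_mod_cast this
  have hκ : (v : ℝ) / (u + v) = r := by rw [huvN, hrv]
  refine ⟨u, {x | (mach (2 ^ u) (2 ^ v)).Accepts x}, ?_, ?_⟩
  · exact upper_final u v hu0 hv0 b (by rw [hκ]; exact hr2)
  · rintro ⟨M, C, hM, hC⟩
    refine lower_final u v hu0 hv0 a δ ha hδ ?_ ?_ M C (fun x => ?_) (fun x hx => hC x hx)
    · rw [huvN]
      rw [hrv] at hr1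
      rw [lt_div_iff₀ hNR] at hr1
      exact hr1
    · rw [huvN]
      have h1 : (r : ℝ) * N = v := by rw [hrv]; field_simp
      have h2 : δ < 1 - r := by linarith
      have h3 : (u : ℝ) = (1 - r) * N := by
        have : (u : ℝ) = N - v := by linarith
        rw [this, ← h1]; ring
      rw [h3]
      gcongr
    · rw [← hM x]; rfl

end Pool.Agent.helper91.OT
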