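import Pool.Agent.helper91.OT.Cut

set_option autoImplicit false

namespace Pool.Agent.helper91.OT

open Finset

variable {A : Type} {k s q : ℕ}

lemma lrun_out {P : Type} [DecidableEq P] (M : NTM A) (w : ℕ → M.Tr) (G : ℕ) (own : ℤ → P) (p : P)
    (E : Finset ℤ) (hE : ∀ x y : ℤ, own x = p → (y = x - 1 ∨ y = x ∨ y = x + 1) → own y ≠ p → y ∈ E)
    (f : ℕ) : ∀ (ν ν' : M.Q × ℤ × ℕ) (u : ℤ → M.Γ), (own ν.2.1 = p ∨ ν.2.1 ∈ E) →
      (M.lrun w G own p f ν u).1 = some (some ν') →
      ν'.2.1 ∈ E ∧ (ν'.2.2 = ν.2.2 ∨ ν'.2.2 ≤ G) := by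
  induction f with
  | zero => intro ν ν' u _ h; simp [NTM.lrun] at h
  | succ f ih =>
    intro ν ν' u hν h
    rw [NTM.lrun] at h
    by_cases hacc : ν.1 = M.acc
    · simp [hacc] at h
    · simp only [hacc, if_false] at h
      by_cases hown : own ν.2.1 ≠ p
      · simp only [hown, if_true, ne_eq, not_false_eq_true, Option.some.injEq] at h
        subst h
        exact ⟨hν.resolve_left hown, Or.inl rfl⟩
      · have hown' : own ν.2.1 = p := not_not.1 hown
        simp only [hown', if_false, ne_eq, not_true_eq_false] at h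
        rcases htr : M.tr w G ν.1 (u ν.2.1) ν.2.2 with _ | ⟨t, g'⟩
        · rw [htr] at h; simp at h
        · rw [htr] at h
          simp only at h
          have hg := (tr_mem M w G _ _ _ _ _ htr).2
          have hν' : own (ν.2.1 + t.2.2.toInt) = p ∨ ν.2.1 + t.2.2.toInt ∈ E := by
            by_cases ho : own (ν.2.1 + t.2.2.toInt) = p
            · exact Or.inl ho
            · right
              apply hE _ _ hown' _ ho
              cases t.2.2 <;> simp [Move.toInt]
              omega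
          have := ih _ _ _ hν' h
          refine ⟨this.1, ?_⟩
          simp only at this
          rcases this.2 with h1 | h1
          · rcases hg with h2 | h2
            · left; rw [h1, h2]
            · right; rw [h1]; exact h2
          · right; exact h1

/-- the bound for the number of answers of a player -/
noncomputable def NTM.nout (M : NTM A) (G : ℕ) : ℝ :=
  2 + 2 * (Nat.card M.Q) * (G + 2)

lemma sys_out (M : NTM A) (w : ℕ → M.Tr) (G : ℕ) (own : ℤ → Fin k × Bool) (f : ℕ)
    (hE : ∀ p, ∃ E : Finset ℤ, E.card ≤ 2 ∧ ∀ x y : ℤ, own x = p →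
      (y = x - 1 ∨ y = x ∨ y = x + 1) → own y ≠ p → y ∈ E) (ν : M.Q × ℤ × ℕ) :
    ∃ O : Finset (Option (Option (M.Q × ℤ × ℕ))), (O.card : ℝ) ≤ M.nout G ∧
      ∀ l, ((M.sys w G own f).step ν l).1 ∈ O := by
  classical
  obtain ⟨E, hE2, hE⟩ := hE (own ν.2.1)
  have := M.finQ
  refine ⟨insert none (insert (some none) (((univ : Finset M.Q) ×ˢ E ×ˢ
    (insert ν.2.2 (range (G + 1)))).image (fun x => some (some x)))), ?_, ?_⟩
  · have h1 : (insert none (insert (some none) (((univ : Finset M.Q) ×ˢ E ×ˢ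
        (insert ν.2.2 (range (G + 1)))).image (fun x => (some (some x) :
          Option (Option (M.Q × ℤ × ℕ))))))).card ≤ 2 + 2 * (Nat.card M.Q) * (G + 2) := by
      refine (Finset.card_insert_le _ _).trans ?_
      have h2 := Finset.card_insert_le (some none) (((univ : Finset M.Q) ×ˢ E ×ˢ
        (insert ν.2.2 (range (G + 1)))).image (fun x => (some (some x) :
          Option (Option (M.Q × ℤ × ℕ)))))
      have h3 := Finset.card_image_le (s := ((univ : Finset M.Q) ×ˢ E ×ˢ
        (insert ν.2.2 (range (G + 1))))) (f := fun x => (some (some x) :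
          Option (Option (M.Q × ℤ × ℕ))))
      have h4 : ((univ : Finset M.Q) ×ˢ E ×ˢ (insert ν.2.2 (range (G + 1)))).card
          ≤ 2 * (Nat.card M.Q) * (G + 2) := by
        rw [Finset.card_product, Finset.card_product, Finset.card_univ, Nat.card_eq_fintype_card]
        have h5 := Finset.card_insert_le ν.2.2 (range (G + 1))
        rw [Finset.card_range] at h5
        calc Fintype.card M.Q * (E.card * (insert ν.2.2 (range (G + 1))).card)
            ≤ Fintype.card M.Q * (2 * (G + 1 + 1)) := by gcongr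
          _ = _ := by ring
      omega
    unfold NTM.nout
    exact_mod_cast h1
  · intro u
    change (M.lrun w G own (own ν.2.1) f ν u).1 ∈ _
    rcases h : (M.lrun w G own (own ν.2.1) f ν u).1 with _ | _ | ν'
    · simp
    · simp
    · have := lrun_out M w G own (own ν.2.1) E hE f ν ν' u (Or.inl rfl) h
      simp only [Finset.mem_insert, Finset.mem_image, reduceCtorEq, false_or, Option.some.injEq]
      refine ⟨ν', ?_, rfl⟩
      simp only [Finset.mem_product, Finset.mem_univ, true_and, Finset.mem_insert,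
        Finset.mem_range]
      refine ⟨this.1, ?_⟩
      rcases this.2 with h1 | h1
      · left; exact h1
      · right; omega

/-- extension of a finite guess sequence -/
def extW {X : Type} (x₀ : X) {G : ℕ} (v : Fin G → X) : ℕ → X :=
  fun j => if h : j < G then v ⟨j, h⟩ else x₀

lemma fac_univ (hs : 0 < s) (hq : q = 2 * s) (θ L : ℝ) (I : Finset (Fin k)) (C0 : ℕ)
    (i : Fin k) : fac s q θ L I (fun _ => C0) (fun _ => univ) i
      = ((q : ℝ) ^ s) ^ 2 * (if i ∈ I then (C0 * L / (θ * s) + θ) else 1) := by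
  unfold fac
  split_ifs
  · rw [pot_univ hs hq]
  · simp [Fintype.card_fun]; ring

open Classical in
/-- the mass accepted for one guess sequence, one offset and one set of cheap pairs -/
lemma mass_bound (M : NTM A) (hs : 0 < s) (hq : q = 2 * s) (w : ℕ → M.Tr) (G : ℕ)
    (own : ℤ → Fin k × Bool) (f : ℕ)
    (hE : ∀ p, ∃ E : Finset ℤ, E.card ≤ 2 ∧ ∀ x y : ℤ, own x = p →
      (y = x - 1 ∨ y = x ∨ y = x + 1) → own y ≠ p → y ∈ E)
    (enc : (Fin k × Bool → Fin s → Fin q) → List A)
    (hloc : ∀ x ω ω', ω (own x) = ω' (own x) → M.tapeOf (enc ω) x = M.tapeOf (enc ω') x)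
    (hacc : ∀ ω, M.Accepts (enc ω) → ∀ i, 0 < agr (ω (i, false)) (ω (i, true)))
    (I : Finset (Fin k)) (hI : k ≤ 2 * I.card) (N C0 : ℕ) (ε : ℝ) (hε : 0 < ε) (hε1 : ε ≤ 1)
    (hφ : C0 * Real.log (M.nout G) / (ε ^ 2 / 2 * s) + ε ^ 2 / 2 ≤ ε ^ 2) :
    ((univ.filter (fun ω : Fin k × Bool → Fin s → Fin q =>
      (M.sys w G own f).accB I N (fun _ => C0) (M.start, 0, 0)
        (fun p => M.tapeOf (enc (fun _ => ω p))))).card : ℝ)
      ≤ (((q : ℝ) ^ s) ^ 2) ^ k * ε ^ k := by
  have hM1 : 1 ≤ M.nout G := by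
    unfold NTM.nout
    have : (0 : ℝ) ≤ 2 * (Nat.card M.Q) * (G + 2) := by positivity
    linarith
  have hL : 0 ≤ Real.log (M.nout G) := Real.log_nonneg hM1
  have h1 := prod_lemma hs hq (ε ^ 2 / 2) (by positivity) (M.nout G) hM1 (M.sys w G own f)
    (sys_out M w G own f hE) I N (fun _ => C0) (M.start, 0, 0)
    (fun _ z => M.tapeOf (enc (fun _ => z))) (fun _ => univ) (by
      intro ω _ h i _
      apply hacc ω _ i
      obtain ⟨T, g, c', hr, hq'⟩ := accB_sound M w G own f I N _ _ _ h
      refine ⟨T, g, c', ?_, hq'⟩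
      convert hr using 1
      unfold NTM.init
      congr 1
      funext x
      unfold glob
      exact hloc x _ _ rfl)
  have h2 : Fintype.piFinset (fun _ : Fin k × Bool => (univ : Finset (Fin s → Fin q))) = univ :=
    Fintype.piFinset_univ
  rw [h2] at h1
  refine h1.trans ?_
  simp only [fac_univ hs hq]
  rw [Finset.prod_mul_distrib, Finset.prod_const, Finset.card_univ, Fintype.card_fin]
  apply mul_le_mul_of_nonneg_left _ (by positivity)
  rw [Finset.prod_ite, Finset.prod_const_one, mul_one, Finset.prod_const]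
  have h3 : (univ.filter (fun i => i ∈ I)).card = I.card := by simp
  rw [h3]
  have h4 : (0 : ℝ) ≤ C0 * Real.log (M.nout G) / (ε ^ 2 / 2 * s) + ε ^ 2 / 2 := by positivity
  calc (C0 * Real.log (M.nout G) / (ε ^ 2 / 2 * s) + ε ^ 2 / 2) ^ I.card
      ≤ (ε ^ 2) ^ I.card := pow_le_pow_left₀ h4 hφ _
    _ = ε ^ (2 * I.card) := by rw [pow_mul]
    _ ≤ ε ^ k := pow_le_pow_of_le_one hε.le hε1 hI

open Classical in
/-- **Lower bound.** -/
theorem lower_main (M : NTM A) (hk : 0 < k) (hs : 0 < s) (hq : q = 2 * s) (n : ℕ) (hn : 0 < n)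
    (own : ℕ → ℤ → Fin k × Bool)
    (hsep : ∀ x y : ℤ, (y = x - 1 ∨ y = x ∨ y = x + 1) → ∀ o < n, ∀ o' < n, own o x ≠ own o y →
      own o' x ≠ own o' y → o = o')
    (hE : ∀ o < n, ∀ p, ∃ E : Finset ℤ, E.card ≤ 2 ∧ ∀ x y : ℤ, own o x = p →
      (y = x - 1 ∨ y = x ∨ y = x + 1) → own o y ≠ p → y ∈ E)
    (enc : (Fin k × Bool → Fin s → Fin q) → List A)
    (hloc : ∀ o < n, ∀ x ω ω', ω (own o x) = ω' (own o x) →
      M.tapeOf (enc ω) x = M.tapeOf (enc ω') x)
    (hacc : ∀ ω, M.Accepts (enc ω) → ∀ i, 0 < agr (ω (i, false)) (ω (i, true)))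
    (T0 G0 C0 : ℕ)
    (hres : ∀ ω, (∀ i, 0 < agr (ω (i, false)) (ω (i, true))) →
      ∃ T ≤ T0, ∃ G ≤ G0, M.AcceptsIn (enc ω) T G)
    (hC : 2 * (T0 / n + 1) ≤ k * (C0 + 1))
    (hφ : C0 * Real.log (M.nout G0) / ((1 / 12 : ℝ) ^ 2 / 2 * s) + (1 / 12 : ℝ) ^ 2 / 2
      ≤ (1 / 12 : ℝ) ^ 2) :
    (2 : ℝ) ^ k ≤ (Nat.card M.Tr : ℝ) ^ G0 * n := by
  have := M.finQ
  have := M.finΓ
  have hq0 : 0 < q := by omega
  -- a default transition (if there is none the statement is easy to get)
  have hw₀ : Nonempty M.Tr := ⟨(M.start, M.blank, .left)⟩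
  obtain ⟨w₀⟩ := hw₀
  set Good : Finset (Fin k × Bool → Fin s → Fin q) :=
    univ.filter (fun ω => ∀ i, 0 < agr (ω (i, false)) (ω (i, true))) with hGood
  set E : (Fin G0 → M.Tr) → ℕ → Finset (Fin k) → Finset (Fin k × Bool → Fin s → Fin q) :=
    fun v o I => univ.filter (fun ω : Fin k × Bool → Fin s → Fin q =>
      (M.sys (extW w₀ v) G0 (own o) (T0 + 1)).accB I (T0 + 2) (fun _ => C0) (M.start, 0, 0)
        (fun p => M.tapeOf (enc (fun _ => ω p)))) with hEdef
  set Is : Finset (Finset (Fin k)) := univ.filter (fun I => k ≤ 2 * I.card) with hIs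
  -- the covering
  have hcover : Good ⊆ (univ : Finset (Fin G0 → M.Tr)).biUnion (fun v =>
      (range n).biUnion (fun o => Is.biUnion (fun I => E v o I))) := by
    intro ω hω
    rw [hGood, Finset.mem_filter] at hω
    obtain ⟨T, hT, G, hG, c', hr, hc'⟩ := hres ω hω.2
    obtain ⟨w, hw1, hw2⟩ := run_path M hr w₀ 0 G0 (by omega)
    obtain ⟨l, hl, hp⟩ := hw2 w (fun _ _ => rfl)
    have hw3 : extW w₀ (fun j : Fin G0 => w j) = w := by
      funext j
      unfold extW
      split_ifs with h
      · rfl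
      · exact (hw1 j (not_lt.1 h)).symm
    have hadj := path_adj M w G0 hp
    have havg := tot_average n own hsep l hadj
    rw [hl] at havg
    obtain ⟨o, ho, hto⟩ : ∃ o ∈ range n, n * tot (own o) l ≤ T := by
      by_contra hcon
      push Not at hcon
      have h1 : ∑ o ∈ range n, (T + 1) ≤ ∑ o ∈ range n, n * tot (own o) l :=
        Finset.sum_le_sum (fun o ho => hcon o ho)
      rw [← Finset.mul_sum, Finset.sum_const, Finset.card_range, smul_eq_mul] at h1
      have h2 : n * ∑ o ∈ range n, tot (own o) l ≤ n * T := by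
        apply Nat.mul_le_mul_left
        simpa using havg
      have h3 : n * T < n * (T + 1) := Nat.mul_lt_mul_of_pos_left (Nat.lt_succ_self T) hn
      omega
    have hto' : tot (own o) l ≤ T0 / n := by
      rw [Nat.le_div_iff_mul_le hn]
      calc tot (own o) l * n = n * tot (own o) l := mul_comm _ _
        _ ≤ T := hto
        _ ≤ T0 := hT
    set m : Fin k → ℕ := fun i => ch (own o) l i + (if (own o 0).1 = i then 1 else 0) with hm
    have hsum : ∑ i, m i = tot (own o) l + 1 := by
      rw [hm]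
      simp only [Finset.sum_add_distrib, sum_ch]
      simp
    set I : Finset (Fin k) := univ.filter (fun i => m i ≤ C0) with hIdef
    have hbad : (univ.filter (fun i => ¬ m i ≤ C0)).card * (C0 + 1) ≤ T0 / n + 1 := by
      calc (univ.filter (fun i => ¬ m i ≤ C0)).card * (C0 + 1)
          = ∑ i ∈ univ.filter (fun i => ¬ m i ≤ C0), (C0 + 1) := by
            rw [Finset.sum_const, smul_eq_mul]
        _ ≤ ∑ i ∈ univ.filter (fun i => ¬ m i ≤ C0), m i := by
            apply Finset.sum_le_sum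
            intro i hi
            have := (Finset.mem_filter.1 hi).2
            omega
        _ ≤ ∑ i, m i := Finset.sum_le_sum_of_subset (Finset.filter_subset _ _)
        _ ≤ T0 / n + 1 := by rw [hsum]; omega
    have hIcard : k ≤ 2 * I.card := by
      have h1 : I.card + (univ.filter (fun i => ¬ m i ≤ C0)).card = k := by
        rw [hIdef, Finset.card_filter_add_card_filter_not]
        simp
      have h2 : 2 * (univ.filter (fun i => ¬ m i ≤ C0)).card ≤ k := by
        by_contra hcon
        have hcon := not_le.1 hcon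
        have h3 : (k + 1) * (C0 + 1) ≤ 2 * (univ.filter (fun i => ¬ m i ≤ C0)).card * (C0 + 1) :=
          Nat.mul_le_mul_right _ hcon
        have h4 : (k + 1) * (C0 + 1) = k * (C0 + 1) + (C0 + 1) := by ring
        have h5 : 2 * (univ.filter (fun i => ¬ m i ≤ C0)).card * (C0 + 1)
          = 2 * ((univ.filter (fun i => ¬ m i ≤ C0)).card * (C0 + 1)) := by ring
        omega
      omega
    rw [Finset.mem_biUnion]
    refine ⟨fun j : Fin G0 => w j, Finset.mem_univ _, ?_⟩
    rw [Finset.mem_biUnion]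
    refine ⟨o, ho, ?_⟩
    rw [Finset.mem_biUnion]
    refine ⟨I, by rw [hIs]; simp [hIcard], ?_⟩
    rw [hEdef]
    simp only [Finset.mem_filter, Finset.mem_univ, true_and]
    rw [hw3]
    have hglob : glob (own o) (fun p => M.tapeOf (enc (fun _ => ω p))) = (M.init (enc ω)).tape := by
      funext x
      unfold glob
      exact hloc o (Finset.mem_range.1 ho) x _ _ rfl
    have htot : tot (own o) l ≤ T := by
      calc tot (own o) l ≤ n * tot (own o) l := Nat.le_mul_of_pos_left _ hn
        _ ≤ T := hto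
    have := accB_complete M w G0 (own o) I hp hc' (T0 + 1) (T0 + 2) (fun _ => C0)
      (fun p => M.tapeOf (enc (fun _ => ω p))) hglob (by omega) (by omega) (by
        intro i hi
        rw [hIdef, Finset.mem_filter] at hi
        exact hi.2)
    exact this
  -- counting
  have hcardE : ∀ v o I, o ∈ range n → I ∈ Is → ((E v o I).card : ℝ)
      ≤ (((q : ℝ) ^ s) ^ 2) ^ k * (1 / 12 : ℝ) ^ k := by
    intro v o I ho hI
    rw [Finset.mem_range] at ho
    rw [hIs, Finset.mem_filter] at hI
    exact mass_bound M hs hq (extW w₀ v) G0 (own o) (T0 + 1) (hE o ho) enc (hloc o ho) hacc I hI.2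
      (T0 + 2) C0 (1 / 12) (by norm_num) (by norm_num) hφ
  have h1 : (Good.card : ℝ) ≤ (Nat.card M.Tr : ℝ) ^ G0 * (n * (2 ^ k *
      ((((q : ℝ) ^ s) ^ 2) ^ k * (1 / 12 : ℝ) ^ k))) := by
    calc (Good.card : ℝ) ≤ (((univ : Finset (Fin G0 → M.Tr)).biUnion (fun v =>
          (range n).biUnion (fun o => Is.biUnion (fun I => E v o I)))).card : ℝ) := by
          exact_mod_cast Finset.card_le_card hcover
      _ ≤ ∑ v : Fin G0 → M.Tr, ∑ o ∈ range n, ∑ I ∈ Is, ((E v o I).card : ℝ) := by
          have : ((univ : Finset (Fin G0 → M.Tr)).biUnion (fun v =>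
            (range n).biUnion (fun o => Is.biUnion (fun I => E v o I)))).card
            ≤ ∑ v : Fin G0 → M.Tr, ∑ o ∈ range n, ∑ I ∈ Is, (E v o I).card := by
            refine Finset.card_biUnion_le.trans (Finset.sum_le_sum fun v _ => ?_)
            refine Finset.card_biUnion_le.trans (Finset.sum_le_sum fun o _ => ?_)
            exact Finset.card_biUnion_le
          exact_mod_cast this
      _ ≤ ∑ v : Fin G0 → M.Tr, ∑ o ∈ range n, ∑ I ∈ Is,
            (((q : ℝ) ^ s) ^ 2) ^ k * (1 / 12 : ℝ) ^ k := by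
          refine Finset.sum_le_sum fun v _ => Finset.sum_le_sum fun o ho =>
            Finset.sum_le_sum fun I hI => hcardE v o I ho hI
      _ = (Nat.card M.Tr : ℝ) ^ G0 * (n * (Is.card * ((((q : ℝ) ^ s) ^ 2) ^ k
            * (1 / 12 : ℝ) ^ k))) := by
          simp only [Finset.sum_const, Finset.card_univ, nsmul_eq_mul, Finset.card_range,
            Fintype.card_fun, Fintype.card_fin]
          rw [Nat.card_eq_fintype_card]
          push_cast
          ring
      _ ≤ _ := by
          have : (Is.card : ℝ) ≤ 2 ^ k := by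
            have h2 := Finset.card_le_univ Is
            rw [Fintype.card_finset, Fintype.card_fin] at h2
            exact_mod_cast h2
          gcongr
  have h2 : (((q : ℝ) ^ s) ^ 2) ^ k * (1 / 3 : ℝ) ^ k ≤ (Good.card : ℝ) := by
    have h3 := int_count (s := s) (q := q) hs hq
    have h4 : Good.card = (univ.filter (fun p : (Fin s → Fin q) × (Fin s → Fin q) =>
        0 < agr p.1 p.2)).card ^ k := by
      have h5 : (Fintype.piFinset (fun _ : Fin k => univ.filter
          (fun p : (Fin s → Fin q) × (Fin s → Fin q) => 0 < agr p.1 p.2))).card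
          = (univ.filter (fun p : (Fin s → Fin q) × (Fin s → Fin q) =>
        0 < agr p.1 p.2)).card ^ k := by
        rw [Fintype.card_piFinset]; simp
      rw [← h5]
      refine Finset.card_bij' (fun ω _ => fun i => (ω (i, false), ω (i, true)))
        (fun ξ _ => fun p => if p.2 then (ξ p.1).2 else (ξ p.1).1) ?_ ?_ ?_ ?_
      · intro ω hω
        rw [hGood, Finset.mem_filter] at hω
        simp only [Fintype.mem_piFinset, Finset.mem_filter, Finset.mem_univ, true_and]
        exact hω.2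
      · intro ξ hξ
        simp only [Fintype.mem_piFinset, Finset.mem_filter, Finset.mem_univ, true_and] at hξ
        rw [hGood, Finset.mem_filter]
        exact ⟨Finset.mem_univ _, fun i => by simpa using hξ i⟩
      · intro ω _
        funext ⟨i, b⟩
        cases b <;> simp
      · intro ξ _
        funext i
        simp
    rw [h4]
    push_cast
    rw [← mul_pow]
    apply pow_le_pow_left₀ (by positivity)
    linarith
  have h3 := h2.trans h1
  have hQ : (0 : ℝ) < (((q : ℝ) ^ s) ^ 2) ^ k := by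
    have : (0 : ℝ) < q := by exact_mod_cast hq0
    positivity
  have h4 : (1 / 3 : ℝ) ^ k ≤ (Nat.card M.Tr : ℝ) ^ G0 * (n * (2 ^ k * (1 / 12 : ℝ) ^ k)) := by
    have h5 : (((q : ℝ) ^ s) ^ 2) ^ k * (1 / 3 : ℝ) ^ k ≤ (((q : ℝ) ^ s) ^ 2) ^ k *
        ((Nat.card M.Tr : ℝ) ^ G0 * (n * (2 ^ k * (1 / 12 : ℝ) ^ k))) := by
      calc _ ≤ _ := h3
        _ = _ := by ring
    exact le_of_mul_le_mul_left h5 hQ
  have h5 : (2 : ℝ) ^ k * (1 / 12 : ℝ) ^ k = (1 / 6 : ℝ) ^ k := by
    rw [← mul_pow]; norm_num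
  rw [h5] at h4
  have h6 : (0 : ℝ) < 6 ^ k := by positivity
  calc (2 : ℝ) ^ k = (1 / 3 : ℝ) ^ k * 6 ^ k := by rw [← mul_pow]; norm_num
    _ ≤ ((Nat.card M.Tr : ℝ) ^ G0 * (n * (1 / 6 : ℝ) ^ k)) * 6 ^ k := by gcongr
    _ = (Nat.card M.Tr : ℝ) ^ G0 * n * ((1 / 6 : ℝ) ^ k * 6 ^ k) := by ring
    _ = _ := by rw [← mul_pow]; norm_num

end Pool.Agent.helper91.OT
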