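import Pool.Agent.helper91.OT.Sem
import Pool.Agent.helper91.OT.Lower

set_option autoImplicit false

namespace Pool.Agent.helper91.OT

/-! ## Encodings of inputs and the geometry of the cuts -/

variable {U V : ℕ} [NeZero U] [NeZero V] {k s q : ℕ}

/-- values as natural numbers -/
def valOf (ω : Fin k × Bool → Fin s → Fin q) (b : Bool) (i j : ℕ) : ℕ :=
  if h : i < k ∧ j < s then (ω (⟨i, h.1⟩, b) ⟨j, h.2⟩ : ℕ) else 0

/-- the encoding, as a list of cells -/
def encW (U : ℕ) [NeZero U] (R d : ℕ) (ω : Fin k × Bool → Fin (U ^ R) → Fin q) : List (Cell U) :=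
  blks U R (U ^ R) d 0 (fun _ => true) (fun _ _ => true) (fun _ _ => true) (fun _ _ => true)
    (valOf ω false) (valOf ω true) 0 k

/-- the encoding -/
def enc (U : ℕ) [NeZero U] (R d : ℕ) (ω : Fin k × Bool → Fin (U ^ R) → Fin q) :
    List (Letter U) := (encW U R d ω).map Prod.fst

lemma digs_flags (n : ℕ) : ∀ v, ∀ x ∈ digs U 0 n v, x.2 = (true, true) := by
  induction n with
  | zero => intro v x hx; simp [digs] at hx
  | succ n ih =>
    intro v x hx
    rw [digs] at hx
    rcases List.mem_cons.1 hx with rfl | hx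
    · rfl
    · exact ih _ x hx

lemma ents_flags (R : ℕ) (val : ℕ → ℕ) (n : ℕ) : ∀ j,
    ∀ x ∈ ents U R 0 (fun _ => true) (fun _ => true) val j n, x.2 = (true, true) := by
  induction n with
  | zero => intro j x hx; simp [ents] at hx
  | succ n ih =>
    intro j x hx
    rw [ents] at hx
    rcases List.mem_append.1 hx with hx | hx
    · exact digs_flags _ _ x hx
    · rcases List.mem_cons.1 hx with rfl | hx
      · rfl
      · exact ih _ x hx

lemma blks_flags (R s d : ℕ) (vx vy : ℕ → ℕ → ℕ) (n : ℕ) : ∀ i,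
    ∀ x ∈ blks U R s d 0 (fun _ => true) (fun _ _ => true) (fun _ _ => true) (fun _ _ => true)
      vx vy i n, x.2 = (true, true) := by
  induction n with
  | zero => intro i x hx; simp [blks] at hx
  | succ n ih =>
    intro i x hx
    rw [blks] at hx
    rcases List.mem_cons.1 hx with rfl | hx
    · rfl
    · rcases List.mem_append.1 hx with hx | hx
      · unfold body dum at hx
        simp only [List.mem_append, List.mem_cons, List.mem_replicate] at hx
        rcases hx with (hx | hx) | (hx | hx | hx)
        · exact ents_flags _ _ _ _ x hx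
        · rw [hx.2]
        · rw [hx]
        · exact ents_flags _ _ _ _ x hx
        · rw [hx.2]
      · exact ih _ x hx

lemma inp_enc (R d : ℕ) (ω : Fin k × Bool → Fin (U ^ R) → Fin q) :
    inp (enc U R d ω) = encW U R d ω := by
  unfold inp enc
  rw [List.map_map]
  conv_rhs => rw [← List.map_id (encW U R d ω)]
  apply List.map_congr_left
  intro x hx
  have := blks_flags _ _ _ _ _ _ _ x hx
  simp only [Function.comp, id]
  rw [← this]

/-- acceptance of an encoding gives agreements -/
theorem enc_sound (R d : ℕ) (hk : 0 < k) (hq : q = 2 * U ^ R)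
    (ω : Fin k × Bool → Fin (U ^ R) → Fin q) (h : (mach U V).Accepts (enc U R d ω)) :
    ∀ i, 0 < agr (ω (i, false)) (ω (i, true)) := by
  obtain ⟨R', hR'⟩ := accepts_chain _ h
  rw [inp_enc] at hR'
  intro i
  have hval : ∀ b i j, valOf ω b i j / 2 < U ^ R := by
    intro b i j
    have hb : 0 < U := Nat.pos_of_ne_zero (NeZero.ne U)
    have hs0 : 0 < U ^ R := by positivity
    unfold valOf
    split_ifs with h
    · have := (ω (⟨i, h.1⟩, b) ⟨j, h.2⟩).isLt
      omega
    · simpa using hs0
  obtain ⟨j, hj, h1⟩ := chain_sound (V := V) R d k hk (valOf ω false) (valOf ω true)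
    (hval false) (hval true) R' 0 (fun _ => true) (fun _ _ => true) (fun _ _ => true)
    (fun _ _ => true) (Nat.zero_le _) hR' (fun i => ⟨0, by simp, by
      funext j; simp [Nat.mod_one]⟩) (fun i j₁ j₂ _ _ => by simp [Nat.mod_one]) i i.isLt
  unfold agr
  rw [Finset.card_pos]
  refine ⟨⟨j, hj⟩, ?_⟩
  rw [Finset.mem_filter]
  refine ⟨Finset.mem_univ _, ?_⟩
  unfold valOf at h1
  rw [dif_pos ⟨i.isLt, hj⟩, dif_pos ⟨i.isLt, hj⟩] at h1
  exact Fin.ext h1

/-- agreements give acceptance -/
theorem enc_complete (R d : ℕ) (hk : k = V ^ R)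
    (ω : Fin k × Bool → Fin (U ^ R) → Fin q)
    (h : ∀ i, 0 < agr (ω (i, false)) (ω (i, true))) :
    (mach U V).Accepts (enc U R d ω) := by
  have h1 : ∀ i : Fin k, ∃ j : Fin (U ^ R), ω (i, false) j = ω (i, true) j := by
    intro i
    have := h i
    unfold agr at this
    rw [Finset.card_pos] at this
    obtain ⟨j, hj⟩ := this
    exact ⟨j, (Finset.mem_filter.1 hj).2⟩
  choose J hJ using h1
  set J' : ℕ → ℕ := fun i => if hi : i < k then (J ⟨i, hi⟩ : ℕ) else 0 with hJ'
  set W : ℕ → ℕ := fun i => valOf ω false i (J' i) / 2 with hW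
  have hJlt : ∀ i < V ^ R, J' i < U ^ R := by
    intro i hi
    rw [hJ']
    simp only
    rw [dif_pos (by omega)]
    exact (J _).isLt
  have heq : ∀ i < V ^ R, valOf ω false i (J' i) = valOf ω true i (J' i) := by
    intro i hi
    have hik : i < k := by omega
    unfold valOf
    rw [dif_pos ⟨hik, hJlt i hi⟩, dif_pos ⟨hik, hJlt i hi⟩]
    have h2 : (⟨J' i, hJlt i hi⟩ : Fin (U ^ R)) = J ⟨i, hik⟩ := by
      apply Fin.ext
      simp [hJ', hik]
    rw [h2, hJ]
  have hc := chain_complete (U := U) (V := V) R d (valOf ω false) (valOf ω true) J' W hJlt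
    (fun i _ => rfl) (fun i hi => by rw [hW]; simp only; rw [heq i hi])
    (fun i hi => by rw [heq i hi]) R 0 (by ring)
  have hcont : cont U V R d (valOf ω false) (valOf ω true) J' W 0 (V ^ R) = encW U R d ω := by
    unfold cont encW
    rw [← hk]
    simp [Nat.mod_one]
  rw [hcont, ← inp_enc] at hc
  obtain ⟨T, _, G, _, hacc⟩ := chain_accepts _ R hc
  exact ⟨T, G, hacc⟩

lemma body_length (R s d r : ℕ) (al okx oky : ℕ → Bool) (vx vy : ℕ → ℕ) :
    (body U R s d r al okx oky vx vy).length = 2 * (s * (R + 1) + d) + 1 := by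
  unfold body dum
  simp only [List.length_append, List.length_cons, ents_length, List.length_replicate]
  ring

lemma blks_length (R s d r : ℕ) (xa : ℕ → Bool) (al okx oky : ℕ → ℕ → Bool)
    (vx vy : ℕ → ℕ → ℕ) (n : ℕ) : ∀ i,
    (blks U R s d r xa al okx oky vx vy i n).length = n * (2 * (1 + s * (R + 1) + d)) := by
  induction n with
  | zero => intro i; simp [blks]
  | succ n ih =>
    intro i
    rw [blks, List.length_cons, List.length_append, body_length, ih]
    ring

lemma enc_length (R d : ℕ) (ω : Fin k × Bool → Fin (U ^ R) → Fin q) :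
    (enc U R d ω).length = k * (2 * (1 + U ^ R * (R + 1) + d)) := by
  unfold enc encW
  rw [List.length_map, blks_length]

lemma getElem_skip (u w : List (Cell U)) (d x : ℕ) (hu : u.length = d) (hx : ¬ x < d) :
    (u ++ w)[x]? = w[x - d]? := by
  rw [List.getElem?_append_right (by omega), hu]

lemma getElem_take (u w : List (Cell U)) (d x : ℕ) (hu : u.length = d) (hx : x < d) :
    (u ++ w)[x]? = u[x]? := List.getElem?_append_left (by omega)

lemma blks_getElem (R s d : ℕ) (hd : d = 1 + s * (R + 1)) (n : ℕ) :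
    ∀ (i x : ℕ) (vx vy vx' vy' : ℕ → ℕ → ℕ),
      (∀ m, x / (2 * d) = 2 * m → x % (2 * d) < d → vx (i + m) = vx' (i + m)) →
      (∀ m, x / (2 * d) = 2 * m + 1 → x % (2 * d) < d → vy (i + m) = vy' (i + m)) →
      (blks U R s d 0 (fun _ => true) (fun _ _ => true) (fun _ _ => true) (fun _ _ => true)
        vx vy i n)[x]? =
      (blks U R s d 0 (fun _ => true) (fun _ _ => true) (fun _ _ => true) (fun _ _ => true)
        vx' vy' i n)[x]? := by
  have hd0 : 0 < d := by omega
  induction n with
  | zero => intro i x vx vy vx' vy' _ _; rfl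
  | succ n ih =>
    intro i x vx vy vx' vy' h1 h2
    have h0 : ∀ vx vy : ℕ → ℕ → ℕ, blks U R s d 0 (fun _ => true) (fun _ _ => true)
        (fun _ _ => true) (fun _ _ => true) vx vy i (n + 1)
        = (((.X, true, true) : Cell U) :: ents U R 0 (fun _ => true) (fun _ => true) (vx i) 0 s) ++
          (dum U d ++ ((((.Y, true, true) : Cell U) ::
            ents U R 0 (fun _ => true) (fun _ => true) (vy i) 0 s) ++
          (dum U d ++ blks U R s d 0 (fun _ => true) (fun _ _ => true)
            (fun _ _ => true) (fun _ _ => true) vx vy (i + 1) n))) := by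
      intro vx vy
      rw [blks]
      unfold body
      simp [List.append_assoc]
    rw [h0, h0]
    have hlen : ∀ (c : Cell U) (v : ℕ → ℕ), (c :: ents U R 0 (fun _ => true) (fun _ => true) v 0
        s).length = d := by
      intro c v; rw [List.length_cons, ents_length]; omega
    have hdum : (dum U d).length = d := by unfold dum; simp
    by_cases hx1 : x < d
    · have hx2 : x / (2 * d) = 0 := Nat.div_eq_of_lt (by omega)
      have hx3 : x % (2 * d) = x := Nat.mod_eq_of_lt (by omega)
      have h3 := h1 0 (by omega) (by omega)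
      rw [getElem_take _ _ d x (hlen _ _) hx1, getElem_take _ _ d x (hlen _ _) hx1]
      simp only [add_zero] at h3
      rw [h3]
    · rw [getElem_skip _ _ d x (hlen _ _) hx1, getElem_skip _ _ d x (hlen _ _) hx1]
      by_cases hx2 : x - d < d
      · rw [getElem_take _ _ d (x - d) hdum hx2, getElem_take _ _ d (x - d) hdum hx2]
      · rw [getElem_skip _ _ d (x - d) hdum hx2, getElem_skip _ _ d (x - d) hdum hx2]
        by_cases hx3 : x - d - d < d
        · have hx4 : x / (2 * d) = 1 := by
            rw [Nat.div_eq_iff (by omega)]; omega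
          have hx5 : x % (2 * d) = x - 2 * d := by
            rw [Nat.mod_eq_sub_mod (by omega), Nat.mod_eq_of_lt (by omega)]
          have h3 := h2 0 (by omega) (by omega)
          rw [getElem_take _ _ d (x - d - d) (hlen _ _) hx3,
            getElem_take _ _ d (x - d - d) (hlen _ _) hx3]
          simp only [add_zero] at h3
          rw [h3]
        · rw [getElem_skip _ _ d (x - d - d) (hlen _ _) hx3,
            getElem_skip _ _ d (x - d - d) (hlen _ _) hx3]
          by_cases hx4 : x - d - d - d < d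
          · rw [getElem_take _ _ d (x - d - d - d) hdum hx4,
              getElem_take _ _ d (x - d - d - d) hdum hx4]
          · rw [getElem_skip _ _ d (x - d - d - d) hdum hx4,
              getElem_skip _ _ d (x - d - d - d) hdum hx4]
            have hx5 : x = (x - d - d - d - d) + 2 * d * 2 := by omega
            have hdiv : x / (2 * d) = (x - d - d - d - d) / (2 * d) + 2 := by
              conv_lhs => rw [hx5]
              rw [Nat.add_mul_div_left _ _ (by omega)]
            have hmod : x % (2 * d) = (x - d - d - d - d) % (2 * d) := by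
              conv_lhs => rw [hx5]
              rw [Nat.add_mul_mod_self_left]
            apply ih (i + 1) (x - d - d - d - d) vx vy vx' vy'
            · intro m hm hm'
              have := h1 (m + 1) (by omega) (by omega)
              rw [show i + 1 + m = i + (m + 1) by ring]
              exact this
            · intro m hm hm'
              have := h2 (m + 1) (by omega) (by omega)
              rw [show i + 1 + m = i + (m + 1) by ring]
              exact this

/-- the player number `m` (with clamping) -/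
def plr (k : ℕ) (hk : 0 < k) (m : ℕ) : Fin k × Bool :=
  (⟨min (2 * k - 1) m / 2, by omega⟩, decide (min (2 * k - 1) m % 2 = 1))

lemma plr_congr (k : ℕ) (hk : 0 < k) (m m' : ℕ) (h : min (2 * k - 1) m = min (2 * k - 1) m') :
    plr k hk m = plr k hk m' := by
  unfold plr
  exact Prod.ext (Fin.ext (by simp [h])) (by simp [h])

/-- the player owning a cell: the cuts are in the deserts, with offset `o` -/
def own (k : ℕ) (hk : 0 < k) (d o : ℕ) (x : ℤ) : Fin k × Bool :=
  plr k hk ((x + d - o) / (2 * d)).toNat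

lemma own_ne (k : ℕ) (hk : 0 < k) (d o : ℕ) (x y : ℤ) (h : own k hk d o x ≠ own k hk d o y) :
    min (2 * k - 1) ((x + d - o) / (2 * d)).toNat
      ≠ min (2 * k - 1) ((y + d - o) / (2 * d)).toNat := by
  intro h'
  apply h
  exact plr_congr k hk _ _ h'

lemma own_eq (k : ℕ) (hk : 0 < k) (d o : ℕ) (x : ℤ) (p : Fin k × Bool)
    (h : own k hk d o x = p) : min (2 * k - 1) ((x + d - o) / (2 * d)).toNat
      = 2 * (p.1 : ℕ) + (if p.2 then 1 else 0) := by
  subst h
  unfold own plr
  simp only [decide_eq_true_eq]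
  split_ifs <;> omega

/-- between adjacent cells the quotient changes only at a cut -/
lemma quot_step (d : ℕ) (hd : 0 < d) (x : ℤ) (h : x / (2 * d : ℤ) ≠ (x + 1) / (2 * d : ℤ)) :
    (x + 1) / (2 * d : ℤ) = x / (2 * d : ℤ) + 1 ∧ x + 1 = (x / (2 * d : ℤ) + 1) * (2 * d) := by
  have hd' : (0 : ℤ) < 2 * d := by positivity
  have h1 := Int.mul_ediv_add_emod x (2 * d)
  have h2 := Int.emod_nonneg x hd'.ne'
  have h3 := Int.emod_lt_of_pos x hd'
  by_cases h4 : x % (2 * d : ℤ) + 1 = 2 * d
  · have h5 : x + 1 = (x / (2 * d : ℤ) + 1) * (2 * d) := by linarith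
    refine ⟨?_, h5⟩
    rw [h5, Int.mul_ediv_cancel _ hd'.ne']
  · exfalso
    apply h
    have h5 : x + 1 = (x % (2 * d : ℤ) + 1) + (2 * d) * (x / (2 * d : ℤ)) := by linarith
    have h6 : (x % (2 * d : ℤ) + 1) / (2 * d : ℤ) = 0 :=
      Int.ediv_eq_zero_of_lt (by omega) (by omega)
    rw [h5, Int.add_mul_ediv_left _ _ hd'.ne', h6, zero_add]

lemma own_cut (k : ℕ) (hk : 0 < k) (d : ℕ) (hd : 0 < d) (o : ℕ) (x : ℤ)
    (h : own k hk d o x ≠ own k hk d o (x + 1)) :
    ∃ m : ℤ, x + 1 + d - o = (m + 1) * (2 * d) ∧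
      min (2 * k - 1) ((x + d - o) / (2 * d)).toNat = m.toNat ∧
      min (2 * k - 1) ((x + 1 + d - o) / (2 * d)).toNat = m.toNat + 1 ∧ 0 ≤ m := by
  have h1 := own_ne k hk d o x (x + 1) h
  have h2 : (x + d - o) / (2 * d : ℤ) ≠ ((x + d - o) + 1) / (2 * d : ℤ) := by
    intro h'
    apply h1
    rw [h', show x + 1 + (d : ℤ) - o = x + d - o + 1 by ring]
  obtain ⟨h3, h4⟩ := quot_step d hd (x + d - o) h2
  have h5 : (x + 1 + d - o) / (2 * d : ℤ) = (x + d - o) / (2 * d) + 1 := by
    rw [show x + 1 + (d : ℤ) - o = x + d - o + 1 by ring, h3]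
  rw [h5] at h1 ⊢
  refine ⟨(x + d - o) / (2 * d), by linarith, ?_, ?_, ?_⟩ <;> omega

lemma own_sep (k : ℕ) (hk : 0 < k) (d : ℕ) (x y : ℤ)
    (hxy : y = x - 1 ∨ y = x ∨ y = x + 1) : ∀ o < d, ∀ o' < d, own k hk d o x ≠ own k hk d o y →
      own k hk d o' x ≠ own k hk d o' y → o = o' := by
  intro o ho o' ho' h h'
  have hd : 0 < d := by omega
  have key : ∀ z : ℤ, own k hk d o z ≠ own k hk d o (z + 1) →
      own k hk d o' z ≠ own k hk d o' (z + 1) → o = o' := by
    intro z h1 h2
    obtain ⟨m, hm, _⟩ := own_cut k hk d hd o z h1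
    obtain ⟨m', hm', _⟩ := own_cut k hk d hd o' z h2
    have h3 : (o' : ℤ) - o = (m - m') * (2 * d) := by linarith
    have h4 : m - m' = 0 := by
      by_contra hne
      rcases lt_or_gt_of_ne hne with hlt | hgt
      · have : (m - m') * (2 * (d : ℤ)) ≤ -1 * (2 * d) :=
          mul_le_mul_of_nonneg_right (by omega) (by positivity)
        omega
      · have : 1 * (2 * (d : ℤ)) ≤ (m - m') * (2 * d) :=
          mul_le_mul_of_nonneg_right (by omega) (by positivity)
        omega
    rw [h4, zero_mul] at h3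
    omega
  rcases hxy with rfl | rfl | rfl
  · apply key (x - 1)
    · rw [sub_add_cancel]; exact h.symm
    · rw [sub_add_cancel]; exact h'.symm
  · exact absurd rfl h
  · exact key x h h'

lemma own_exit (k : ℕ) (hk : 0 < k) (d : ℕ) (hd : 0 < d) (o : ℕ) (p : Fin k × Bool) :
    ∃ E : Finset ℤ, E.card ≤ 2 ∧ ∀ x y : ℤ, own k hk d o x = p →
      (y = x - 1 ∨ y = x ∨ y = x + 1) → own k hk d o y ≠ p → y ∈ E := by
  set m : ℤ := 2 * (p.1 : ℕ) + (if p.2 then 1 else 0) with hm
  refine ⟨{(m + 1) * (2 * d) - d + o, m * (2 * d) - d + o - 1}, Finset.card_le_two, ?_⟩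
  intro x y hx hxy hy
  have hx' := own_eq k hk d o x p hx
  rcases hxy with rfl | rfl | rfl
  · have h1 : own k hk d o (x - 1) ≠ own k hk d o (x - 1 + 1) := by
      rw [sub_add_cancel, hx]; exact hy
    obtain ⟨m', hm', _, h3, h4⟩ := own_cut k hk d hd o (x - 1) h1
    rw [sub_add_cancel] at h3 hm'
    rw [hx'] at h3
    have h5 : m = m' + 1 := by
      rw [hm]
      split_ifs at h3 ⊢ <;> omega
    rw [Finset.mem_insert, Finset.mem_singleton]
    right
    rw [h5]; linarith
  · exact absurd hx hy
  · have h1 : own k hk d o x ≠ own k hk d o (x + 1) := by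
      rw [hx]; exact fun h => hy h.symm
    obtain ⟨m', hm', h3, _, h4⟩ := own_cut k hk d hd o x h1
    rw [hx'] at h3
    have h5 : m = m' := by
      rw [hm]
      split_ifs at h3 ⊢ <;> omega
    rw [Finset.mem_insert, Finset.mem_singleton]
    left
    rw [h5]; linarith

/-- data cells are owned by the right player -/
lemma own_data (k : ℕ) (hk : 0 < k) (d : ℕ) (o : ℕ) (ho : o < d) (x : ℕ) (m : ℕ)
    (hm : x / (2 * d) = m) (hx : x % (2 * d) < d) :
    min (2 * k - 1) (((x : ℤ) + d - o) / (2 * d)).toNat = min (2 * k - 1) m := by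
  have hd : (0 : ℤ) < 2 * d := by omega
  have h1 := Nat.div_add_mod x (2 * d)
  rw [hm] at h1
  have h2 : (x : ℤ) + d - o = ((x % (2 * d) : ℕ) + d - o : ℤ) + (2 * d) * (m : ℤ) := by
    have : (x : ℤ) = 2 * d * m + (x % (2 * d) : ℕ) := by exact_mod_cast h1.symm
    linarith
  rw [h2, Int.add_mul_ediv_left _ _ hd.ne', Int.ediv_eq_zero_of_lt (by omega) (by omega)]
  simp

/-- **Locality** of the encoding. -/
theorem enc_local {R : ℕ} (M : NTM (Letter U)) (k : ℕ) (hk : 0 < k) (d : ℕ)
    (hd : d = 1 + U ^ R * (R + 1)) (o : ℕ) (ho : o < d) (x : ℤ)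
    (ω ω' : Fin k × Bool → Fin (U ^ R) → Fin q)
    (h : ω (own k hk d o x) = ω' (own k hk d o x)) :
    M.tapeOf (enc U R d ω) x = M.tapeOf (enc U R d ω') x := by
  unfold NTM.tapeOf
  split_ifs with h0
  swap
  · rfl
  obtain ⟨n, rfl⟩ := Int.eq_ofNat_of_zero_le h0
  have key : (enc U R d ω)[n]? = (enc U R d ω')[n]? := by
    unfold enc encW
    rw [List.getElem?_map, List.getElem?_map]
    congr 1
    apply blks_getElem R (U ^ R) d hd k 0 n
    · intro m hm hm'
      have h1 := own_data k hk d o ho n (2 * m) hm hm'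
      funext j
      unfold valOf
      by_cases hmk : m < k
      · have h2 : own k hk d o (n : ℤ) = (⟨m, hmk⟩, false) := by
          unfold own
          rw [plr_congr k hk _ _ h1]
          unfold plr
          simp only [Prod.mk.injEq, Fin.mk.injEq, decide_eq_false_iff_not]
          omega
        rw [h2] at h
        split_ifs with h3
        · simp only [zero_add]
          rw [h]
        · rfl
      · rw [dif_neg (by omega), dif_neg (by omega)]
    · intro m hm hm'
      have h1 := own_data k hk d o ho n (2 * m + 1) hm hm'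
      funext j
      unfold valOf
      by_cases hmk : m < k
      · have h2 : own k hk d o (n : ℤ) = (⟨m, hmk⟩, true) := by
          unfold own
          rw [plr_congr k hk _ _ h1]
          unfold plr
          simp only [Prod.mk.injEq, Fin.mk.injEq, decide_eq_true_eq]
          omega
        rw [h2] at h
        split_ifs with h3
        · simp only [zero_add]
          rw [h]
        · rfl
      · rw [dif_neg (by omega), dif_neg (by omega)]
  simp only [Int.toNat_natCast]
  rw [key]

end Pool.Agent.helper91.OT
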