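import Pool.Agent.helper91.OT.Model

set_option autoImplicit false

namespace Pool.Agent.helper91.OT

/-! ## The sieving machine -/

/-- input letters: dummy, start of an `x`-part, start of a `y`-part, end of an entry, digit -/
inductive Letter (U : ℕ) : Type
  | n
  | X
  | Y
  | E (c : Bool)
  | D (d : Fin U)
  deriving DecidableEq

/-- A tape cell: a letter with two flags (`X`: alive; `E`: alive, ok; `D`: unread). -/
abbrev Cell (U : ℕ) := Letter U × Bool × Bool

/-- state during a sieving sweep -/
@[ext]
structure SS (U V : ℕ) : Type where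
  sc : Fin V
  cnt : Fin U
  z : Fin U
  a : Fin U
  w : Option Bool
  deriving DecidableEq

/-- phase during the final sweep -/
inductive Phase : Type
  | start
  | x0
  | x1 (c : Bool)
  | y0 (c : Bool)
  | y1
  deriving DecidableEq

/-- states -/
inductive St (U V : ℕ) : Type
  | L
  | S (st : SS U V)
  | F (sep : Bool) (ph : Phase)
  | acc
  deriving DecidableEq

instance (U : ℕ) : Finite (Letter U) := by
  let f : Letter U → Fin 3 ⊕ Bool ⊕ Fin U := fun x => match x with
    | .n => .inl 0
    | .X => .inl 1
    | .Y => .inl 2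
    | .E c => .inr (.inl c)
    | .D d => .inr (.inr d)
  refine Finite.of_injective f ?_
  intro x y h
  cases x <;> cases y <;> simp_all [f]

instance (U V : ℕ) : Finite (SS U V) := by
  refine Finite.of_injective (fun x : SS U V => (x.sc, x.cnt, x.z, x.a, x.w)) ?_
  intro x y h
  simp only [Prod.mk.injEq] at h
  ext <;> simp [h]

instance : Finite Phase := by
  let f : Phase → Fin 3 ⊕ Bool ⊕ Bool := fun x => match x with
    | .start => .inl 0
    | .x0 => .inl 1
    | .y1 => .inl 2
    | .x1 c => .inr (.inl c)
    | .y0 c => .inr (.inr c)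
  refine Finite.of_injective f ?_
  intro x y h
  cases x <;> cases y <;> simp_all [f]

instance (U V : ℕ) : Finite (St U V) := by
  let f : St U V → Fin 2 ⊕ SS U V ⊕ (Bool × Phase) := fun x => match x with
    | .L => .inl 0
    | .acc => .inl 1
    | .S st => .inr (.inl st)
    | .F sep ph => .inr (.inr (sep, ph))
  refine Finite.of_injective f ?_
  intro x y h
  cases x <;> cases y <;> simp_all [f]

variable {U V : ℕ} [NeZero U] [NeZero V]

/-- the sieving transducer on letters other than `X` -/
def dstep (st : SS U V) (x : Cell U) : Option (SS U V × Cell U) :=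
  match x with
  | (.n, f1, f2) => some (st, (.n, f1, f2))
  | (.X, _, _) => none
  | (.Y, f1, f2) => if st.cnt = 0 ∧ st.w = none then some (st, (.Y, f1, f2)) else none
  | (.D d, f1, f2) =>
    if f1 then
      match st.w with
      | none => some ({ st with w := some (decide (d = st.a)) }, (.D d, false, f2))
      | some _ => some (st, (.D d, f1, f2))
    else some (st, (.D d, f1, f2))
  | (.E c, f1, f2) =>
    match st.w with
    | none => none
    | some m => some ({ st with cnt := if f1 then st.cnt + 1 else st.cnt, w := none },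
        (.E c, f1 && decide (st.cnt = st.z), f2 && m))

/-- the sieving transducer -/
def SStep (st : SS U V) (x : Cell U) (st' : SS U V) (x' : Cell U) : Prop :=
  (x.1 = .X ∧ st.cnt = 0 ∧ st.w = none ∧ ∃ z a,
    st' = ⟨if x.2.1 then st.sc + 1 else st.sc, 0, z, a, none⟩ ∧
    x' = (.X, x.2.1 && decide (st.sc = 0), x.2.2)) ∨
  (x.1 ≠ .X ∧ dstep st x = some (st', x'))

/-- the final check -/
def fstep (st : Bool × Phase) (x : Cell U) : Option (Bool × Phase) :=
  match x with
  | (.n, _, _) => some st
  | (.X, f1, _) => if st.1 && f1 then none else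
      match st.2 with
      | .start => some (st.1 || f1, .x0)
      | .y1 => some (st.1 || f1, .x0)
      | _ => none
  | (.Y, _, _) =>
      match st.2 with
      | .x1 c => some (st.1, .y0 c)
      | _ => none
  | (.D _, f1, _) => if f1 then none else some st
  | (.E c, f1, f2) =>
      if f1 then
        if f2 then
          match st.2 with
          | .x0 => some (st.1, .x1 c)
          | .y0 c' => if c = c' then some (st.1, .y1) else none
          | _ => none
        else none
      else some st

/-- transition relation -/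
def delta : St U V → Option (Cell U) → Set (St U V × Option (Cell U) × Move)
  | .L, some x => {(.L, some x, .left)}
  | .L, none => {(.S ⟨0, 0, 0, 0, none⟩, none, .right), (.F false .start, none, .right)}
  | .S st, some x => {t | ∃ st' x', SStep st x st' x' ∧ t = (.S st', some x', .right)}
  | .S st, none => {t | st.cnt = 0 ∧ st.w = none ∧ t = (.L, none, .left)}
  | .F sep ph, some x => {t | ∃ y, fstep (sep, ph) x = some y ∧ t = (.F y.1 y.2, some x, .right)}
  | .F _ ph, none => {t | ph = .y1 ∧ t = (.acc, none, .stay)}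
  | .acc, _ => ∅

variable (U V)

/-- the machine -/
@[reducible] noncomputable def mach : NTM (Letter U) where
  Q := St U V
  Γ := Option (Cell U)
  finQ := Fintype.ofFinite _
  finΓ := Fintype.ofFinite _
  blank := none
  emb a := some (a, true, true)
  emb_inj := by intro a b h; simpa using h
  emb_ne_blank := by intro a; simp
  start := .L
  acc := .acc
  δ := delta

variable {U V}

/-- tape with a word of cells -/
def tapeW (u : List (Cell U)) (i : ℤ) : Option (Cell U) := if 0 ≤ i then u[i.toNat]? else none

lemma tapeW_append (u v : List (Cell U)) (x : Cell U) :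
    tapeW (u ++ x :: v) (u.length : ℤ) = some x := by
  unfold tapeW
  simp

lemma tapeW_end (u : List (Cell U)) : tapeW u (u.length : ℤ) = none := by
  unfold tapeW; simp

lemma tapeW_update (u v : List (Cell U)) (x y : Cell U) :
    Function.update (tapeW (u ++ x :: v)) (u.length : ℤ) (some y) = tapeW (u ++ y :: v) := by
  funext i
  by_cases hi : i = u.length
  · subst hi; rw [Function.update_self, tapeW_append]
  · rw [Function.update_of_ne hi]
    unfold tapeW
    split_ifs with h
    · rw [List.getElem?_append, List.getElem?_append]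
      split_ifs with h2
      · rfl
      · have h3 : i.toNat - u.length ≠ 0 := by omega
        obtain ⟨m, hm⟩ := Nat.exists_eq_succ_of_ne_zero h3
        rw [hm]; simp
    · rfl

lemma update_none_eq {Γ : Type} (f : ℤ → Option Γ) (i : ℤ) (h : f i = none) :
    Function.update f i none = f := by
  rw [← h, Function.update_eq_self]

/-- `c` leads to acceptance within `T` steps and `g` guesses -/
def AccBy {A : Type} (M : NTM A) (c : Cfg M) (T g : ℕ) : Prop :=
  ∃ T' g' c', M.Run T' g' c c' ∧ c'.q = M.acc ∧ T' ≤ T ∧ g' ≤ g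

lemma AccBy.guess {A : Type} {M : NTM A} {c c' : Cfg M} {T g : ℕ} (h : M.Step c c')
    (h2 : AccBy M c' T g) : AccBy M c (T + 1) (g + 1) := by
  obtain ⟨T', g', c'', hr, hq, hT, hg⟩ := h2
  by_cases hc : M.Choice c
  · exact ⟨_, _, c'', .guess h hc hr, hq, by omega, by omega⟩
  · exact ⟨_, _, c'', .det h hc hr, hq, by omega, by omega⟩

lemma AccBy.det {A : Type} {M : NTM A} {c c' : Cfg M} {T g : ℕ} (h : M.Step c c')
    (hu : ∀ t ∈ M.δ c.q (c.tape c.pos), ∀ t' ∈ M.δ c.q (c.tape c.pos), t = t')
    (h2 : AccBy M c' T g) : AccBy M c (T + 1) g := by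
  obtain ⟨T', g', c'', hr, hq, hT, hg⟩ := h2
  have hc : ¬ M.Choice c := by
    rintro ⟨c₁, c₂, ⟨t, ht, h1⟩, ⟨t', ht', h2⟩, hne⟩
    exact hne (by rw [h1, h2, hu t ht t' ht'])
  exact ⟨_, _, c'', .det h hc hr, hq, by omega, by omega⟩

/-- `c` leads to acceptance in exactly `T` steps -/
def AccIn {A : Type} (M : NTM A) (c : Cfg M) (T : ℕ) : Prop :=
  ∃ g c', M.Run T g c c' ∧ c'.q = M.acc

lemma AccIn.cases {A : Type} {M : NTM A} {c : Cfg M} {T : ℕ} (h : AccIn M c T) (hq : c.q ≠ M.acc) :
    ∃ T', T = T' + 1 ∧ ∃ t ∈ M.δ c.q (c.tape c.pos), AccIn M (c.next t) T' := by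
  obtain ⟨g, c', hr, hc'⟩ := h
  cases hr with
  | refl => exact absurd hc' hq
  | det h hc hr =>
    obtain ⟨t, ht, rfl⟩ := h
    exact ⟨_, rfl, t, ht, _, _, hr, hc'⟩
  | guess h hc hr =>
    obtain ⟨t, ht, rfl⟩ := h
    exact ⟨_, rfl, t, ht, _, _, hr, hc'⟩

/-- configuration of the machine -/
abbrev cfg (q : St U V) (i : ℤ) (u : List (Cell U)) : Cfg (mach U V) := ⟨q, i, tapeW u⟩

/-- a sweep: `Sweep st u g st' u'` -/
inductive Sweep : SS U V → List (Cell U) → ℕ → SS U V → List (Cell U) → Prop
  | nil (st : SS U V) : Sweep st [] 0 st []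
  | cons {st st' st'' : SS U V} {x x' : Cell U} {u u' : List (Cell U)} {g : ℕ}
      (h : SStep st x st' x') (hr : Sweep st' u g st'' u') :
      Sweep st (x :: u) (g + if x.1 = .X then 1 else 0) st'' (x' :: u')

/-- the final check on a word -/
def frun : Bool × Phase → List (Cell U) → Option (Bool × Phase)
  | st, [] => some st
  | st, x :: u => (fstep st x).bind (fun st' => frun st' u)

/-- A chain of `R` sieving sweeps followed by a successful final check. -/
def Chain (V : ℕ) [NeZero V] : List (Cell U) → ℕ → Prop
  | u, 0 => ∃ sep, frun (false, .start) u = some (sep, .y1)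
  | u, R + 1 => ∃ (g : ℕ) (st : SS U V) (u' : List (Cell U)),
      Sweep ⟨0, 0, 0, 0, none⟩ u g st u' ∧ st.cnt = 0 ∧ st.w = none ∧ Chain V u' R

lemma sweep_length {st st' : SS U V} {u u' : List (Cell U)} {g : ℕ} (h : Sweep st u g st' u') :
    u'.length = u.length := by
  induction h with
  | nil => rfl
  | cons h hr ih => simp [ih]

/-- moving left -/
lemma left_acc (u : List (Cell U)) (n : ℕ) : ∀ T, n ≤ u.length →
    AccIn (mach U V) (cfg .L ((n : ℤ) - 1) u) T →
    ∃ T', T = T' + n ∧ AccIn (mach U V) (cfg .L (-1) u) T' := by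
  induction n with
  | zero => intro T _ h; exact ⟨T, rfl, by simpa using h⟩
  | succ n ih =>
    intro T hn h
    obtain ⟨T', rfl, t, ht, h1⟩ := h.cases (by change St.L ≠ St.acc; simp)
    have hx : tapeW u (((n + 1 : ℕ) : ℤ) - 1) = some (u[n]) := by
      unfold tapeW
      simp
    change t ∈ delta .L (tapeW u (((n + 1 : ℕ) : ℤ) - 1)) at ht
    rw [hx] at ht
    simp only [delta, Set.mem_singleton_iff] at ht
    subst ht
    have h2 : (cfg .L (((n + 1 : ℕ) : ℤ) - 1) u : Cfg (mach U V)).next (.L, some u[n], .left)
        = cfg .L ((n : ℤ) - 1) u := by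
      unfold Cfg.next
      simp only [Move.toInt]
      congr 1
      · push_cast; ring
      · rw [← hx, Function.update_eq_self]
    rw [h2] at h1
    obtain ⟨T'', rfl, h3⟩ := ih T' (by omega) h1
    exact ⟨T'', by ring, h3⟩

/-- the sieving sweep, read off from an accepting computation -/
lemma sweep_acc (v : List (Cell U)) : ∀ (u : List (Cell U)) (st : SS U V) (T : ℕ),
    AccIn (mach U V) (cfg (.S st) u.length (u ++ v)) T →
    ∃ (g : ℕ) (st' : SS U V) (v' : List (Cell U)), Sweep st v g st' v' ∧ st'.cnt = 0 ∧
      st'.w = none ∧ ∃ T', T' < T ∧ AccIn (mach U V) (cfg .L (-1) (u ++ v')) T' := by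
  induction v with
  | nil =>
    intro u st T h
    obtain ⟨T', rfl, t, ht, h1⟩ := h.cases (by change St.S st ≠ St.acc; simp)
    change t ∈ delta (.S st) (tapeW (u ++ []) (u.length : ℤ)) at ht
    rw [List.append_nil, tapeW_end] at ht
    simp only [delta, Set.mem_ofPred_eq] at ht
    obtain ⟨h2, h3, rfl⟩ := ht
    refine ⟨0, st, [], .nil st, h2, h3, ?_⟩
    rw [List.append_nil] at h1 ⊢
    have h4 : (cfg (.S st) u.length u : Cfg (mach U V)).next (.L, none, .left)
        = cfg .L ((u.length : ℤ) - 1) u := by
      unfold Cfg.next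
      simp only [Move.toInt]
      congr 1
      exact update_none_eq _ _ (tapeW_end u)
    rw [h4] at h1
    obtain ⟨T'', rfl, h5⟩ := left_acc u u.length T' le_rfl h1
    exact ⟨T'', by omega, h5⟩
  | cons x v ih =>
    intro u st T h
    obtain ⟨T', rfl, t, ht, h1⟩ := h.cases (by change St.S st ≠ St.acc; simp)
    change t ∈ delta (.S st) (tapeW (u ++ x :: v) (u.length : ℤ)) at ht
    rw [tapeW_append] at ht
    simp only [delta, Set.mem_ofPred_eq] at ht
    obtain ⟨st', x', hs, rfl⟩ := ht
    have h4 : (cfg (.S st) u.length (u ++ x :: v) : Cfg (mach U V)).next (.S st', some x', .right)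
        = cfg (.S st') ((u ++ [x']).length) ((u ++ [x']) ++ v) := by
      unfold Cfg.next
      simp only [Move.toInt]
      congr 1
      · simp
      · rw [List.append_assoc]
        exact tapeW_update u v x x'
    rw [h4] at h1
    obtain ⟨g, st'', v', hsw, hc, hw, T'', hT'', h5⟩ := ih _ _ _ h1
    refine ⟨_, st'', x' :: v', .cons hs hsw, hc, hw, T'', by omega, ?_⟩
    simpa using h5

/-- the final sweep, read off from an accepting computation -/
lemma final_acc (v : List (Cell U)) : ∀ (u : List (Cell U)) (st : Bool × Phase) (T : ℕ),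
    AccIn (mach U V) (cfg (.F st.1 st.2) u.length (u ++ v)) T →
    ∃ sep, frun st v = some (sep, .y1) := by
  induction v with
  | nil =>
    intro u st T h
    obtain ⟨T', rfl, t, ht, h1⟩ := h.cases (by change St.F st.1 st.2 ≠ St.acc; simp)
    change t ∈ delta (.F st.1 st.2) (tapeW (u ++ []) (u.length : ℤ)) at ht
    rw [List.append_nil, tapeW_end] at ht
    simp only [delta, Set.mem_ofPred_eq] at ht
    refine ⟨st.1, ?_⟩
    rw [frun, ← ht.1]
  | cons x v ih =>
    intro u st T h
    obtain ⟨T', rfl, t, ht, h1⟩ := h.cases (by change St.F st.1 st.2 ≠ St.acc; simp)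
    change t ∈ delta (.F st.1 st.2) (tapeW (u ++ x :: v) (u.length : ℤ)) at ht
    rw [tapeW_append] at ht
    simp only [delta, Set.mem_ofPred_eq] at ht
    obtain ⟨y, hs, rfl⟩ := ht
    have h4 : (cfg (.F st.1 st.2) u.length (u ++ x :: v) : Cfg (mach U V)).next
        (.F y.1 y.2, some x, .right)
        = cfg (.F y.1 y.2) ((u ++ [x]).length) ((u ++ [x]) ++ v) := by
      unfold Cfg.next
      simp only [Move.toInt]
      congr 1
      · simp
      · rw [List.append_assoc]
        exact tapeW_update u v x x
    rw [h4] at h1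
    obtain ⟨sep, h5⟩ := ih _ _ _ h1
    refine ⟨sep, ?_⟩
    rw [frun]
    have : fstep st x = some y := hs
    rw [this]
    exact h5

/-- acceptance gives a chain -/
lemma chain_of_acc : ∀ (T : ℕ) (u : List (Cell U)),
    AccIn (mach U V) (cfg .L (-1) u) T → ∃ R, Chain V u R := by
  intro T
  induction T using Nat.strong_induction_on with
  | _ T ih =>
    intro u h
    obtain ⟨T', rfl, t, ht, h1⟩ := h.cases (by change St.L ≠ St.acc; simp)
    change t ∈ delta .L (tapeW u (-1)) at ht
    have hx : tapeW u (-1) = none := by unfold tapeW; simp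
    rw [hx] at ht
    simp only [delta, Set.mem_insert_iff, Set.mem_singleton_iff] at ht
    rcases ht with rfl | rfl
    · have h4 : (cfg .L (-1) u : Cfg (mach U V)).next (.S ⟨0, 0, 0, 0, none⟩, none, .right)
          = cfg (.S ⟨0, 0, 0, 0, none⟩) (([] : List (Cell U)).length) ([] ++ u) := by
        unfold Cfg.next
        simp only [Move.toInt]
        congr 1
        exact update_none_eq _ _ hx
      rw [h4] at h1
      obtain ⟨g, st', v', hsw, hc, hw, T'', hT'', h5⟩ := sweep_acc u [] _ _ h1
      obtain ⟨R, hR⟩ := ih T'' (by omega) v' (by simpa using h5)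
      exact ⟨R + 1, g, st', v', hsw, hc, hw, hR⟩
    · have h4 : (cfg .L (-1) u : Cfg (mach U V)).next (.F false .start, none, .right)
          = cfg (.F false .start) (([] : List (Cell U)).length) ([] ++ u) := by
        unfold Cfg.next
        simp only [Move.toInt]
        congr 1
        exact update_none_eq _ _ hx
      rw [h4] at h1
      exact ⟨0, final_acc u [] (false, .start) _ h1⟩

/-- moving left costs no guesses -/
lemma left_by (u : List (Cell U)) (T g : ℕ) (h : AccBy (mach U V) (cfg .L (-1) u) T g) (n : ℕ) :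
    n ≤ u.length → AccBy (mach U V) (cfg .L ((n : ℤ) - 1) u) (T + n) g := by
  induction n with
  | zero => intro _; simpa using h
  | succ n ih =>
    intro hn
    have hx : tapeW u (((n + 1 : ℕ) : ℤ) - 1) = some (u[n]) := by
      unfold tapeW
      simp
    have h2 : (cfg .L (((n + 1 : ℕ) : ℤ) - 1) u : Cfg (mach U V)).next (.L, some u[n], .left)
        = cfg .L ((n : ℤ) - 1) u := by
      unfold Cfg.next
      simp only [Move.toInt]
      congr 1
      · push_cast; ring
      · rw [← hx, Function.update_eq_self]
    refine AccBy.det (c' := cfg .L ((n : ℤ) - 1) u) ⟨_, ?_, h2.symm⟩ ?_ (ih (by omega))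
    · change _ ∈ delta .L (tapeW u (((n + 1 : ℕ) : ℤ) - 1))
      rw [hx]
      simp [delta]
    · intro t ht t' ht'
      change t ∈ delta .L (tapeW u (((n + 1 : ℕ) : ℤ) - 1)) at ht
      change t' ∈ delta .L (tapeW u (((n + 1 : ℕ) : ℤ) - 1)) at ht'
      rw [hx] at ht ht'
      simp only [delta, Set.mem_singleton_iff] at ht ht'
      rw [ht, ht']

lemma sweep_by {v v' : List (Cell U)} {st st' : SS U V} {g : ℕ} (h : Sweep st v g st' v')
    (hc : st'.cnt = 0) (hw : st'.w = none) : ∀ (u : List (Cell U)) (T g' : ℕ),
    AccBy (mach U V) (cfg .L (-1) (u ++ v')) T g' →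
    AccBy (mach U V) (cfg (.S st) u.length (u ++ v)) (T + u.length + 2 * v.length + 1) (g' + g) := by
  induction h with
  | nil st =>
    intro u T g' h
    rw [List.append_nil] at h ⊢
    have h4 : (cfg (.S st) u.length u : Cfg (mach U V)).next (.L, none, .left)
        = cfg .L ((u.length : ℤ) - 1) u := by
      unfold Cfg.next
      simp only [Move.toInt]
      congr 1
      exact update_none_eq _ _ (tapeW_end u)
    have h5 := left_by u T g' h u.length le_rfl
    refine AccBy.det (c' := cfg .L ((u.length : ℤ) - 1) u) ⟨_, ?_, h4.symm⟩ ?_ (by simpa using h5)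
    · change _ ∈ delta (.S st) (tapeW u (u.length : ℤ))
      rw [tapeW_end]
      simp [delta, hc, hw]
    · intro t ht t' ht'
      change t ∈ delta (.S st) (tapeW u (u.length : ℤ)) at ht
      change t' ∈ delta (.S st) (tapeW u (u.length : ℤ)) at ht'
      rw [tapeW_end] at ht ht'
      simp only [delta, Set.mem_ofPred_eq] at ht ht'
      rw [ht.2.2, ht'.2.2]
  | @cons st st' st'' x x' v v' g hs hr ih =>
    intro u T g' h
    have h1 := ih hc hw (u ++ [x']) T g' (by simpa using h)
    have h4 : (cfg (.S st) u.length (u ++ x :: v) : Cfg (mach U V)).next (.S st', some x', .right)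
        = cfg (.S st') ((u ++ [x']).length) ((u ++ [x']) ++ v) := by
      unfold Cfg.next
      simp only [Move.toInt]
      congr 1
      · simp
      · rw [List.append_assoc]
        exact tapeW_update u v x x'
    have hstep : (mach U V).Step (cfg (.S st) u.length (u ++ x :: v))
        (cfg (.S st') ((u ++ [x']).length) ((u ++ [x']) ++ v)) := by
      refine ⟨(.S st', some x', .right), ?_, h4.symm⟩
      change _ ∈ delta (.S st) (tapeW (u ++ x :: v) (u.length : ℤ))
      rw [tapeW_append]
      exact ⟨st', x', hs, rfl⟩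
    have hlen : T + (u ++ [x']).length + 2 * v.length + 1 + 1
        ≤ T + u.length + 2 * (x :: v).length + 1 := by
      simp; omega
    by_cases hX : x.1 = .X
    · have h5 := AccBy.guess hstep h1
      obtain ⟨a1, a2, a3, a4, a5, a6, a7⟩ := h5
      refine ⟨a1, a2, a3, a4, a5, by omega, ?_⟩
      simp only [hX, if_true]
      omega
    · have h5 := AccBy.det hstep (by
        intro t ht t' ht'
        change t ∈ delta (.S st) (tapeW (u ++ x :: v) (u.length : ℤ)) at ht
        change t' ∈ delta (.S st) (tapeW (u ++ x :: v) (u.length : ℤ)) at ht'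
        rw [tapeW_append] at ht ht'
        obtain ⟨s1, x1, h6, rfl⟩ := ht
        obtain ⟨s2, x2, h7, rfl⟩ := ht'
        rcases h6 with h6 | h6
        · exact absurd h6.1 hX
        rcases h7 with h7 | h7
        · exact absurd h7.1 hX
        have := h6.2.symm.trans h7.2
        simp only [Option.some.injEq, Prod.mk.injEq] at this
        rw [this.1, this.2]) h1
      obtain ⟨a1, a2, a3, a4, a5, a6, a7⟩ := h5
      refine ⟨a1, a2, a3, a4, a5, by omega, ?_⟩
      simp only [hX, if_false]
      omega

lemma final_by (v : List (Cell U)) : ∀ (u : List (Cell U)) (st : Bool × Phase) (sep : Bool),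
    frun st v = some (sep, .y1) →
    AccBy (mach U V) (cfg (.F st.1 st.2) u.length (u ++ v)) (v.length + 1) 0 := by
  induction v with
  | nil =>
    intro u st sep h
    rw [frun] at h
    simp only [Option.some.injEq] at h
    rw [List.append_nil]
    have h4 : (cfg (.F st.1 st.2) u.length u : Cfg (mach U V)).next (.acc, none, .stay)
        = cfg .acc (u.length : ℤ) u := by
      unfold Cfg.next
      simp only [Move.toInt, add_zero]
      congr 1
      exact update_none_eq _ _ (tapeW_end u)
    refine AccBy.det (c' := cfg .acc (u.length : ℤ) u) ⟨_, ?_, h4.symm⟩ ?_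
      ⟨0, 0, _, .refl _, rfl, le_rfl, le_rfl⟩
    · change _ ∈ delta (.F st.1 st.2) (tapeW u (u.length : ℤ))
      rw [tapeW_end, h]
      simp [delta]
    · intro t ht t' ht'
      change t ∈ delta (.F st.1 st.2) (tapeW u (u.length : ℤ)) at ht
      change t' ∈ delta (.F st.1 st.2) (tapeW u (u.length : ℤ)) at ht'
      rw [tapeW_end] at ht ht'
      simp only [delta, Set.mem_ofPred_eq] at ht ht'
      rw [ht.2, ht'.2]
  | cons x v ih =>
    intro u st sep h
    rw [frun] at h
    rcases hf : fstep st x with _ | y
    · rw [hf] at h; simp at h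
    · rw [hf] at h
      have h1 := ih (u ++ [x]) y sep h
      have h4 : (cfg (.F st.1 st.2) u.length (u ++ x :: v) : Cfg (mach U V)).next
          (.F y.1 y.2, some x, .right)
          = cfg (.F y.1 y.2) ((u ++ [x]).length) ((u ++ [x]) ++ v) := by
        unfold Cfg.next
        simp only [Move.toInt]
        congr 1
        · simp
        · rw [List.append_assoc]
          exact tapeW_update u v x x
      refine AccBy.det (c' := cfg (.F y.1 y.2) ((u ++ [x]).length) ((u ++ [x]) ++ v))
        ⟨_, ?_, h4.symm⟩ ?_ h1
      · change _ ∈ delta (.F st.1 st.2) (tapeW (u ++ x :: v) (u.length : ℤ))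
        rw [tapeW_append]
        exact ⟨y, hf, rfl⟩
      · intro t ht t' ht'
        change t ∈ delta (.F st.1 st.2) (tapeW (u ++ x :: v) (u.length : ℤ)) at ht
        change t' ∈ delta (.F st.1 st.2) (tapeW (u ++ x :: v) (u.length : ℤ)) at ht'
        rw [tapeW_append] at ht ht'
        obtain ⟨y1, h6, rfl⟩ := ht
        obtain ⟨y2, h7, rfl⟩ := ht'
        have := h6.symm.trans h7
        simp only [Option.some.injEq] at this
        rw [this]

/-- number of `X` letters -/
def nX (u : List (Cell U)) : ℕ := u.countP (fun x => x.1 = .X)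

lemma dstep_fst {st st' : SS U V} {x x' : Cell U} (h : dstep st x = some (st', x')) :
    x'.1 = x.1 := by
  obtain ⟨l, f1, f2⟩ := x
  cases l with
  | n => simp only [dstep, Option.some.injEq, Prod.mk.injEq] at h; rw [← h.2]
  | X => simp [dstep] at h
  | Y =>
    simp only [dstep] at h
    split_ifs at h
    simp only [Option.some.injEq, Prod.mk.injEq] at h; rw [← h.2]
  | E c =>
    simp only [dstep] at h
    split at h
    · simp at h
    · simp only [Option.some.injEq, Prod.mk.injEq] at h; rw [← h.2]
  | D d =>
    simp only [dstep] at h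
    split_ifs at h
    · split at h
      · simp only [Option.some.injEq, Prod.mk.injEq] at h; rw [← h.2]
      · simp only [Option.some.injEq, Prod.mk.injEq] at h; rw [← h.2]
    · simp only [Option.some.injEq, Prod.mk.injEq] at h; rw [← h.2]

lemma SStep_fst {st st' : SS U V} {x x' : Cell U} (h : SStep st x st' x') : x'.1 = x.1 := by
  rcases h with ⟨h1, _, _, z, a, _, h2⟩ | ⟨h1, h2⟩
  · rw [h2, h1]
  · exact dstep_fst h2

lemma sweep_nX {st st' : SS U V} {u u' : List (Cell U)} {g : ℕ} (h : Sweep st u g st' u') :
    nX u' = nX u ∧ g = nX u := by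
  induction h with
  | nil => simp [nX]
  | @cons st st' st'' x x' u u' g hs hr ih =>
    unfold nX at ih ⊢
    rw [List.countP_cons, List.countP_cons, SStep_fst hs, ih.1, ih.2]
    by_cases h : x.1 = .X <;> simp [h]

/-- a chain gives a short accepting computation -/
lemma acc_of_chain (R : ℕ) : ∀ u : List (Cell U), Chain V u R →
    AccBy (mach U V) (cfg .L (-1) u) (R * (2 * u.length + 2) + u.length + 2)
      (R * (nX u + 1) + 1) := by
  induction R with
  | zero =>
    rintro u ⟨sep, h⟩
    have hx : tapeW u (-1) = none := by unfold tapeW; simp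
    have h1 := final_by (V := V) u [] (false, .start) sep h
    have h4 : (cfg .L (-1) u : Cfg (mach U V)).next (.F false .start, none, .right)
        = cfg (.F false .start) (([] : List (Cell U)).length) ([] ++ u) := by
      unfold Cfg.next
      simp only [Move.toInt]
      congr 1
      exact update_none_eq _ _ hx
    have h5 := AccBy.guess (M := mach U V) (c := cfg .L (-1) u) ⟨(.F false .start, none, .right),
      by change _ ∈ delta .L (tapeW u (-1)); rw [hx]; simp [delta], h4.symm⟩ h1
    obtain ⟨a1, a2, a3, a4, a5, a6, a7⟩ := h5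
    exact ⟨a1, a2, a3, a4, a5, by omega, by omega⟩
  | succ R ih =>
    rintro u ⟨g, st, u', hs, hc, hw, h⟩
    have hx : tapeW u (-1) = none := by unfold tapeW; simp
    obtain ⟨hn, hg⟩ := sweep_nX hs
    have hl := sweep_length hs
    have h0 := ih u' h
    have h1 := sweep_by hs hc hw [] _ _ (by simpa using h0)
    have h4 : (cfg .L (-1) u : Cfg (mach U V)).next (.S ⟨0, 0, 0, 0, none⟩, none, .right)
        = cfg (.S ⟨0, 0, 0, 0, none⟩) (([] : List (Cell U)).length) ([] ++ u) := by
      unfold Cfg.next
      simp only [Move.toInt]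
      congr 1
      exact update_none_eq _ _ hx
    have h5 := AccBy.guess (M := mach U V) (c := cfg .L (-1) u)
      ⟨(.S ⟨0, 0, 0, 0, none⟩, none, .right),
      by change _ ∈ delta .L (tapeW u (-1)); rw [hx]; simp [delta], h4.symm⟩ h1
    obtain ⟨a1, a2, a3, a4, a5, a6, a7⟩ := h5
    refine ⟨a1, a2, a3, a4, a5, ?_, ?_⟩
    · rw [hl] at a6
      simp only [List.length_nil] at a6
      have : (R + 1) * (2 * u.length + 2) = R * (2 * u.length + 2) + (2 * u.length + 2) := by ring
      omega
    · rw [hn, hg] at a7
      have : (R + 1) * (nX u + 1) = R * (nX u + 1) + (nX u + 1) := by ring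
      omega

end Pool.Agent.helper91.OT
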