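import Mathlib

set_option autoImplicit false

namespace Pool.Agent.helper91.OT

open Finset

/-! ## Potential function for one pair (coordinate agreement problem) -/

variable {s q : ℕ}

/-- number of coordinates in which `x` and `y` agree -/
def agr (x y : Fin s → Fin q) : ℕ := (univ.filter (fun t => x t = y t)).card

lemma exp_neg_le (u : ℝ) (hu : 0 ≤ u) : Real.exp (-u) ≤ 1 - u + u ^ 2 / 2 := by
  have h1 : 1 + u + u ^ 2 / 2 ≤ Real.exp u := Real.quadratic_le_exp_of_nonneg hu
  have h2 : 0 < 1 + u + u ^ 2 / 2 := by positivity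
  rw [Real.exp_neg]
  calc (Real.exp u)⁻¹ ≤ (1 + u + u ^ 2 / 2)⁻¹ := by gcongr
    _ ≤ 1 - u + u ^ 2 / 2 := by
        rw [inv_le_iff_one_le_mul₀ h2]
        nlinarith [sq_nonneg (u ^ 2), sq_nonneg u]

lemma sum_exp_le (q : ℕ) (hq : 0 < q) (g : Fin q → ℝ) (h0 : ∀ v, 0 ≤ g v) (h1 : ∀ v, g v ≤ 1)
    (θ : ℝ) (hθ : 0 < θ) :
    ∑ v, Real.exp (-(θ * g v)) ≤ q * Real.exp (-(θ * ((∑ v, g v) / q)) + θ ^ 2 / 2) := by
  have hq' : (0 : ℝ) < q := by exact_mod_cast hq
  calc ∑ v, Real.exp (-(θ * g v)) ≤ ∑ v, (1 - θ * g v + θ ^ 2 / 2) := by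
        apply Finset.sum_le_sum
        intro v _
        refine (exp_neg_le _ (mul_nonneg hθ.le (h0 v))).trans ?_
        have : (θ * g v) ^ 2 ≤ θ ^ 2 := by
          rw [mul_pow]
          have h2 : g v ^ 2 ≤ 1 := by nlinarith [h0 v, h1 v]
          nlinarith [sq_nonneg θ]
        linarith
    _ = q * (-(θ * ((∑ v, g v) / q)) + θ ^ 2 / 2 + 1) := by
        rw [Finset.sum_add_distrib, Finset.sum_sub_distrib, ← Finset.mul_sum]
        simp
        field_simp
        ring
    _ ≤ q * Real.exp (-(θ * ((∑ v, g v) / q)) + θ ^ 2 / 2) := by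
        gcongr
        exact Real.add_one_le_exp _

/-- lower tail bound relative to a large set -/
lemma dev_bound (hq : 0 < q) (g : Fin s → Fin q → ℝ) (h0 : ∀ t v, 0 ≤ g t v)
    (h1 : ∀ t v, g t v ≤ 1) (θ : ℝ) (hθ : 0 < θ) (A : Finset (Fin s → Fin q)) (hA : A.Nonempty) :
    (A.card : ℝ) * (∑ t, (∑ v, g t v) / q - (Real.log ((q : ℝ) ^ s / A.card) / θ + θ * s / 2))
      ≤ ∑ x ∈ A, ∑ t, g t (x t) := by
  have hq' : (0 : ℝ) < q := by exact_mod_cast hq
  have hA' : (0 : ℝ) < A.card := by exact_mod_cast hA.card_pos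
  set S : (Fin s → Fin q) → ℝ := fun x => ∑ t, g t (x t) with hS
  set m : ℝ := (∑ x ∈ A, S x) / A.card with hm
  have hsum : ∑ x ∈ A, S x = A.card * m := by rw [hm]; field_simp
  have key1 : (A.card : ℝ) * Real.exp (-(θ * m)) ≤ ∑ x ∈ A, Real.exp (-(θ * S x)) := by
    calc (A.card : ℝ) * Real.exp (-(θ * m))
        = ∑ x ∈ A, Real.exp (-(θ * m)) * ((-(θ * S x) - (-(θ * m))) + 1) := by
          rw [← Finset.mul_sum, Finset.sum_add_distrib, Finset.sum_sub_distrib,
            Finset.sum_neg_distrib, ← Finset.mul_sum, hsum]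
          simp
          ring
      _ ≤ ∑ x ∈ A, Real.exp (-(θ * S x)) := by
          apply Finset.sum_le_sum
          intro x _
          calc Real.exp (-(θ * m)) * ((-(θ * S x) - (-(θ * m))) + 1)
              ≤ Real.exp (-(θ * m)) * Real.exp (-(θ * S x) - (-(θ * m))) := by
                gcongr
                exact Real.add_one_le_exp _
            _ = Real.exp (-(θ * S x)) := by
                rw [← Real.exp_add]; congr 1; ring
  have key2 : ∑ x ∈ A, Real.exp (-(θ * S x)) ≤ ∏ t : Fin s, ∑ v, Real.exp (-(θ * g t v)) := by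
    calc ∑ x ∈ A, Real.exp (-(θ * S x)) ≤ ∑ x : Fin s → Fin q, Real.exp (-(θ * S x)) :=
          Finset.sum_le_sum_of_subset_of_nonneg (Finset.subset_univ _)
            (fun _ _ _ => (Real.exp_pos _).le)
      _ = ∏ t : Fin s, ∑ v, Real.exp (-(θ * g t v)) := by
          rw [Finset.prod_univ_sum]
          simp only [Fintype.piFinset_univ]
          apply Finset.sum_congr rfl
          intro x _
          rw [← Real.exp_sum]
          congr 1
          rw [hS]
          simp only [Finset.mul_sum, Finset.sum_neg_distrib]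
  have key3 : ∏ t : Fin s, ∑ v, Real.exp (-(θ * g t v))
      ≤ (q : ℝ) ^ s * Real.exp (-(θ * ∑ t, (∑ v, g t v) / q) + θ ^ 2 / 2 * s) := by
    calc ∏ t : Fin s, ∑ v, Real.exp (-(θ * g t v))
        ≤ ∏ t : Fin s, ((q : ℝ) * Real.exp (-(θ * ((∑ v, g t v) / q)) + θ ^ 2 / 2)) := by
          apply Finset.prod_le_prod
          · intro t _
            exact Finset.sum_nonneg (fun _ _ => (Real.exp_pos _).le)
          · intro t _
            exact sum_exp_le q hq (g t) (h0 t) (h1 t) θ hθ
      _ = (q : ℝ) ^ s * Real.exp (-(θ * ∑ t, (∑ v, g t v) / q) + θ ^ 2 / 2 * s) := by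
          rw [Finset.prod_mul_distrib, ← Real.exp_sum]
          simp only [Finset.prod_const, Finset.card_univ, Fintype.card_fin]
          congr 2
          rw [Finset.sum_add_distrib, Finset.mul_sum, Finset.sum_neg_distrib, Finset.sum_const,
            Finset.card_univ, Fintype.card_fin, nsmul_eq_mul]
          ring
  have key4 : (A.card : ℝ) * Real.exp (-(θ * m))
      ≤ (q : ℝ) ^ s * Real.exp (-(θ * ∑ t, (∑ v, g t v) / q) + θ ^ 2 / 2 * s) :=
    key1.trans (key2.trans key3)
  have hN : (0 : ℝ) < (q : ℝ) ^ s := by positivity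
  have key5 := Real.log_le_log (mul_pos hA' (Real.exp_pos _)) key4
  rw [Real.log_mul hA'.ne' (Real.exp_pos _).ne', Real.log_mul hN.ne' (Real.exp_pos _).ne',
    Real.log_exp, Real.log_exp] at key5
  have key6 : Real.log ((q : ℝ) ^ s / A.card) = Real.log ((q : ℝ) ^ s) - Real.log A.card :=
    Real.log_div hN.ne' hA'.ne'
  have key7 : θ * (∑ t, (∑ v, g t v) / q - (Real.log ((q : ℝ) ^ s / A.card) / θ + θ * s / 2))
      ≤ θ * m := by
    have : ∀ a b c : ℝ, θ * (a - (b / θ + θ * c / 2)) = θ * a - b - θ ^ 2 / 2 * c := by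
      intro a b c
      field_simp
      ring
    rw [this, key6]
    linarith
  have key8 := le_of_mul_le_mul_left key7 hθ
  have key9 := mul_le_mul_of_nonneg_left key8 hA'.le
  rw [← hsum] at key9
  exact key9

/-- deviation of a set -/
noncomputable def dev (s q : ℕ) (θ : ℝ) (A : Finset (Fin s → Fin q)) : ℝ :=
  Real.log ((q : ℝ) ^ s / A.card) / θ + θ * s / 2

lemma agr_sum (x : Fin s → Fin q) (B : Finset (Fin s → Fin q)) :
    (∑ y ∈ B, (agr x y : ℝ)) = ∑ t, ((B.filter (fun y => y t = x t)).card : ℝ) := by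
  simp only [agr, Finset.card_filter]
  push_cast
  rw [Finset.sum_comm]
  apply Finset.sum_congr rfl
  intro t _
  apply Finset.sum_congr rfl
  intro y _
  simp [eq_comm]

/-- the average number of agreements on a large rectangle is almost the expected one -/
lemma rect_bound (hq : 0 < q) (θ : ℝ) (hθ : 0 < θ) (A B : Finset (Fin s → Fin q))
    (hA : A.Nonempty) (hB : B.Nonempty) :
    (A.card : ℝ) * B.card * (s - dev s q θ A - dev s q θ B)
      ≤ q * ∑ x ∈ A, ∑ y ∈ B, (agr x y : ℝ) := by
  have hq' : (0 : ℝ) < q := by exact_mod_cast hq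
  have hB' : (0 : ℝ) < B.card := by exact_mod_cast hB.card_pos
  -- marginals of B
  set P : Fin s → Fin q → ℝ := fun t v => ((B.filter (fun y => y t = v)).card : ℝ) / B.card with hP
  have hP0 : ∀ t v, 0 ≤ P t v := fun t v => by positivity
  have hPsum : ∀ t, ∑ v, P t v = 1 := by
    intro t
    rw [hP]
    simp only
    rw [← Finset.sum_div]
    have : (∑ v, ((B.filter (fun y => y t = v)).card : ℝ)) = B.card := by
      rw [← Nat.cast_sum]
      congr 1
      rw [Finset.card_eq_sum_card_fiberwise (f := fun y : Fin s → Fin q => y t) (t := univ)]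
      intro y _; simp
    rw [this]; field_simp
  set h : Fin s → Fin q → ℝ := fun t v => min 1 (q * P t v) with hh
  set g : Fin s → Fin q → ℝ := fun t v => if q * P t v < 1 then 1 else 0 with hg
  have h1 := dev_bound hq h (fun t v => le_min zero_le_one (mul_nonneg hq'.le (hP0 t v)))
    (fun t v => min_le_left _ _) θ hθ A hA
  have h2 := dev_bound hq g (fun t v => by rw [hg]; simp only; split_ifs <;> norm_num)
    (fun t v => by rw [hg]; simp only; split_ifs <;> norm_num) θ hθ B hB
  -- average of g over B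
  have h3 : ∑ y ∈ B, ∑ t, g t (y t) = B.card * ∑ t, ∑ v, P t v * g t v := by
    rw [Finset.sum_comm, Finset.mul_sum]
    apply Finset.sum_congr rfl
    intro t _
    rw [Finset.mul_sum]
    have : ∀ v, (B.card : ℝ) * (P t v * g t v) = ∑ y ∈ B.filter (fun y => y t = v), g t (y t) := by
      intro v
      rw [Finset.sum_congr rfl (g := fun _ => g t v)
        (fun y hy => by rw [(Finset.mem_filter.1 hy).2])]
      rw [Finset.sum_const, nsmul_eq_mul, hP]
      field_simp
    simp only [this]
    rw [Finset.sum_fiberwise_of_maps_to]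
    intro y _; simp
  rw [h3] at h2
  have h4 : ∑ t, (∑ v, g t v) / q - dev s q θ B ≤ ∑ t, ∑ v, P t v * g t v := by
    have := le_of_mul_le_mul_left h2 hB'
    exact this
  -- relation between the mean of h and g
  have h5 : ∀ t, (∑ v, h t v) / q = 1 - ((∑ v, g t v) / q - ∑ v, P t v * g t v) := by
    intro t
    have h6 : ∀ v, h t v = 1 - g t v + q * (P t v * g t v) := by
      intro v
      rw [hh, hg]
      simp only
      split_ifs with hc
      · rw [min_eq_right hc.le]; ring
      · rw [min_eq_left (not_lt.1 hc)]; ring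
    simp only [h6]
    rw [Finset.sum_add_distrib, Finset.sum_sub_distrib, ← Finset.mul_sum]
    simp only [Finset.sum_const, Finset.card_univ, Fintype.card_fin, nsmul_eq_mul, mul_one]
    field_simp
    ring
  have h7 : (s : ℝ) - dev s q θ B ≤ ∑ t, (∑ v, h t v) / q := by
    simp only [h5]
    rw [Finset.sum_sub_distrib, Finset.sum_sub_distrib]
    simp only [Finset.sum_const, Finset.card_univ, Fintype.card_fin, nsmul_eq_mul, mul_one]
    linarith
  have h8 : (q : ℝ) * ∑ x ∈ A, ∑ y ∈ B, (agr x y : ℝ)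
      = B.card * ∑ x ∈ A, ∑ t, q * P t (x t) := by
    rw [Finset.mul_sum, Finset.mul_sum]
    apply Finset.sum_congr rfl
    intro x _
    rw [agr_sum, Finset.mul_sum, Finset.mul_sum]
    apply Finset.sum_congr rfl
    intro t _
    rw [hP]
    field_simp
  rw [h8]
  have h9 : ∑ x ∈ A, ∑ t, h t (x t) ≤ ∑ x ∈ A, ∑ t, q * P t (x t) := by
    apply Finset.sum_le_sum
    intro x _
    apply Finset.sum_le_sum
    intro t _
    exact min_le_right _ _
  have h10 : (A.card : ℝ) * (s - dev s q θ A - dev s q θ B) ≤ ∑ x ∈ A, ∑ t, h t (x t) := by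
    refine le_trans ?_ h1
    apply mul_le_mul_of_nonneg_left _ (Nat.cast_nonneg _)
    have : Real.log ((q : ℝ) ^ s / A.card) / θ + θ * s / 2 = dev s q θ A := rfl
    rw [this]
    linarith
  calc (A.card : ℝ) * B.card * (s - dev s q θ A - dev s q θ B)
      = B.card * (A.card * (s - dev s q θ A - dev s q θ B)) := by ring
    _ ≤ B.card * ∑ x ∈ A, ∑ t, q * P t (x t) := by
        gcongr
        exact h10.trans h9

/-- the correction term of the potential -/
noncomputable def corr (s q : ℕ) (θ L : ℝ) (c : ℕ) (A B : Finset (Fin s → Fin q)) : ℝ :=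
  A.card * B.card * ((Real.log ((q : ℝ) ^ s / A.card) + Real.log ((q : ℝ) ^ s / B.card) + c * L)
    / (θ * s) + θ)

/-- the potential (here `q = 2 s`) -/
noncomputable def pot (s q : ℕ) (θ L : ℝ) (c : ℕ) (A B : Finset (Fin s → Fin q)) : ℝ :=
  ∑ x ∈ A, ∑ y ∈ B, (2 * (agr x y : ℝ) - 1) + corr s q θ L c A B

lemma log_ratio_nonneg (hq : 0 < q) (A : Finset (Fin s → Fin q)) :
    0 ≤ Real.log ((q : ℝ) ^ s / A.card) := by
  rcases A.eq_empty_or_nonempty with h | h
  · simp [h]
  · have hA' : (0 : ℝ) < A.card := by exact_mod_cast h.card_pos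
    apply Real.log_nonneg
    rw [le_div_iff₀ hA', one_mul]
    have := Finset.card_le_univ A
    rw [Fintype.card_fun, Fintype.card_fin, Fintype.card_fin] at this
    exact_mod_cast this

lemma corr_nonneg (hq : 0 < q) (θ L : ℝ) (hθ : 0 < θ) (hL : 0 ≤ L) (c : ℕ)
    (A B : Finset (Fin s → Fin q)) : 0 ≤ corr s q θ L c A B := by
  unfold corr
  have h1 := log_ratio_nonneg hq A
  have h2 := log_ratio_nonneg hq B
  positivity

lemma pot_nonneg (hs : 0 < s) (hq : q = 2 * s) (θ L : ℝ) (hθ : 0 < θ) (hL : 0 ≤ L) (c : ℕ)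
    (A B : Finset (Fin s → Fin q)) : 0 ≤ pot s q θ L c A B := by
  have hq0 : 0 < q := by omega
  have hs' : (0 : ℝ) < s := by exact_mod_cast hs
  rcases A.eq_empty_or_nonempty with h | hA
  · simp [pot, corr, h]
  rcases B.eq_empty_or_nonempty with h | hB
  · simp [pot, corr, h]
  have h1 := rect_bound hq0 θ hθ A B hA hB
  have hq' : (q : ℝ) = 2 * s := by rw [hq]; push_cast; ring
  unfold pot
  have h2 : ∑ x ∈ A, ∑ y ∈ B, (2 * (agr x y : ℝ) - 1)
      = 2 * ∑ x ∈ A, ∑ y ∈ B, (agr x y : ℝ) - A.card * B.card := by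
    simp only [Finset.sum_sub_distrib, Finset.sum_const, nsmul_eq_mul, mul_one, Finset.mul_sum]
  rw [h2]
  have h3 : (A.card : ℝ) * B.card * (s - dev s q θ A - dev s q θ B) / s
      ≤ 2 * ∑ x ∈ A, ∑ y ∈ B, (agr x y : ℝ) := by
    rw [div_le_iff₀ hs']
    calc _ ≤ _ := h1
      _ = _ := by rw [hq']; ring
  have h4 : (A.card : ℝ) * B.card * (s - dev s q θ A - dev s q θ B) / s - A.card * B.card
      + corr s q θ L c A B = A.card * B.card * (c * L / (θ * s)) := by
    unfold dev corr
    field_simp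
    ring
  have h5 : (0 : ℝ) ≤ A.card * B.card * (c * L / (θ * s)) := by positivity
  linarith

lemma pot_cert (hq : 0 < q) (θ L : ℝ) (hθ : 0 < θ) (hL : 0 ≤ L) (c : ℕ)
    (A B : Finset (Fin s → Fin q)) (h : ∀ x ∈ A, ∀ y ∈ B, 0 < agr x y) :
    (A.card : ℝ) * B.card ≤ pot s q θ L c A B := by
  have h1 := corr_nonneg hq θ L hθ hL c A B
  have h2 : ∑ x ∈ A, ∑ y ∈ B, (1 : ℝ) ≤ ∑ x ∈ A, ∑ y ∈ B, (2 * (agr x y : ℝ) - 1) := by
    apply Finset.sum_le_sum
    intro x hx
    apply Finset.sum_le_sum
    intro y hy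
    have : (1 : ℝ) ≤ agr x y := by exact_mod_cast h x hx y hy
    linarith
  simp only [Finset.sum_const, nsmul_eq_mul, mul_one] at h2
  unfold pot
  linarith

/-- entropy bound for a partition into at most `M` classes -/
lemma entropy_split {ι : Type*} (O : Finset ι) (a : ι → ℝ) (ha : ∀ o ∈ O, 0 ≤ a o) (M N : ℝ)
    (hM : (O.card : ℝ) ≤ M) (hM1 : 1 ≤ M) (hN : 0 < N) :
    ∑ o ∈ O, a o * Real.log (N / a o)
      ≤ (∑ o ∈ O, a o) * (Real.log (N / ∑ o ∈ O, a o) + Real.log M) := by
  set T := ∑ o ∈ O, a o with hT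
  have hT0 : 0 ≤ T := Finset.sum_nonneg ha
  rcases hT0.eq_or_lt with h0 | hT0
  · have hz : ∀ o ∈ O, a o = 0 := by
      have := (Finset.sum_eq_zero_iff_of_nonneg ha).1 (hT ▸ h0.symm)
      exact this
    rw [← h0]
    rw [Finset.sum_eq_zero]
    · simp
    · intro o ho; rw [hz o ho]; simp
  have key : ∀ o ∈ O, a o * Real.log (N / a o)
      ≤ a o * (Real.log (N / T) + Real.log M) + (T / M - a o) := by
    intro o ho
    rcases (ha o ho).eq_or_lt with h0 | h0
    · rw [← h0]; simp; positivity
    · have h1 : Real.log (T / M / a o) ≤ T / M / a o - 1 :=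
        Real.log_le_sub_one_of_pos (by positivity)
      have h2 : Real.log (N / a o) = Real.log (N / T) + Real.log M + Real.log (T / M / a o) := by
        rw [← Real.log_mul (by positivity) (by positivity), ← Real.log_mul (by positivity)
          (by positivity)]
        congr 1
        field_simp
      rw [h2]
      have h3 : a o * (T / M / a o - 1) = T / M - a o := by field_simp
      nlinarith
  calc ∑ o ∈ O, a o * Real.log (N / a o)
      ≤ ∑ o ∈ O, (a o * (Real.log (N / T) + Real.log M) + (T / M - a o)) :=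
        Finset.sum_le_sum key
    _ = T * (Real.log (N / T) + Real.log M) + (O.card * (T / M) - T) := by
        rw [Finset.sum_add_distrib, ← Finset.sum_mul, Finset.sum_sub_distrib, Finset.sum_const,
          nsmul_eq_mul, ← hT]
    _ ≤ T * (Real.log (N / T) + Real.log M) := by
        have : (O.card : ℝ) * (T / M) ≤ T := by
          calc (O.card : ℝ) * (T / M) ≤ M * (T / M) := by gcongr
            _ = T := by field_simp
        linarith

/-- splitting the first side -/
lemma pot_split_left {ι : Type*} [DecidableEq ι] (hs : 0 < s) (hq : 0 < q) (θ : ℝ) (hθ : 0 < θ)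
    (M : ℝ) (hM1 : 1 ≤ M) (c : ℕ) (A B : Finset (Fin s → Fin q)) (out : (Fin s → Fin q) → ι)
    (O : Finset ι) (hO : ∀ x ∈ A, out x ∈ O) (hM : (O.card : ℝ) ≤ M) :
    ∑ o ∈ O, pot s q θ (Real.log M) c (A.filter (fun x => out x = o)) B
      ≤ pot s q θ (Real.log M) (c + 1) A B := by
  have hs' : (0 : ℝ) < s := by exact_mod_cast hs
  have hq' : (0 : ℝ) < q := by exact_mod_cast hq
  unfold pot
  rw [Finset.sum_add_distrib]
  have h1 : ∑ o ∈ O, ∑ x ∈ A.filter (fun x => out x = o), ∑ y ∈ B, (2 * (agr x y : ℝ) - 1)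
      = ∑ x ∈ A, ∑ y ∈ B, (2 * (agr x y : ℝ) - 1) :=
    Finset.sum_fiberwise_of_maps_to hO _
  rw [h1]
  have hcard : ∑ o ∈ O, ((A.filter (fun x => out x = o)).card : ℝ) = A.card := by
    rw [← Nat.cast_sum, Finset.card_eq_sum_card_fiberwise hO]
  have h2 := entropy_split O (fun o => ((A.filter (fun x => out x = o)).card : ℝ))
    (fun _ _ => by positivity) M ((q : ℝ) ^ s) hM hM1 (by positivity)
  simp only [hcard] at h2
  have h3 : ∑ o ∈ O, corr s q θ (Real.log M) c (A.filter (fun x => out x = o)) B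
      = B.card / (θ * s) * (∑ o ∈ O, ((A.filter (fun x => out x = o)).card : ℝ)
          * Real.log ((q : ℝ) ^ s / (A.filter (fun x => out x = o)).card))
        + (∑ o ∈ O, ((A.filter (fun x => out x = o)).card : ℝ)) * (B.card *
          ((Real.log ((q : ℝ) ^ s / B.card) + c * Real.log M) / (θ * s) + θ)) := by
    rw [Finset.mul_sum, Finset.sum_mul, ← Finset.sum_add_distrib]
    apply Finset.sum_congr rfl
    intro o _
    unfold corr
    ring
  rw [h3, hcard]
  have h4 : corr s q θ (Real.log M) (c + 1) A B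
      = B.card / (θ * s) * (A.card * (Real.log ((q : ℝ) ^ s / A.card) + Real.log M))
        + A.card * (B.card *
          ((Real.log ((q : ℝ) ^ s / B.card) + c * Real.log M) / (θ * s) + θ)) := by
    unfold corr
    push_cast
    ring
  rw [h4]
  have h5 : (0 : ℝ) ≤ B.card / (θ * s) := by positivity
  have := mul_le_mul_of_nonneg_left h2 h5
  linarith

lemma agr_comm (x y : Fin s → Fin q) : agr x y = agr y x := by
  unfold agr; simp only [eq_comm]

lemma pot_comm (θ L : ℝ) (c : ℕ) (A B : Finset (Fin s → Fin q)) :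
    pot s q θ L c A B = pot s q θ L c B A := by
  unfold pot corr
  rw [Finset.sum_comm]
  have h : ∑ y ∈ B, ∑ x ∈ A, (2 * (agr x y : ℝ) - 1) = ∑ y ∈ B, ∑ x ∈ A, (2 * (agr y x : ℝ) - 1) := by
    apply Finset.sum_congr rfl
    intro y _
    apply Finset.sum_congr rfl
    intro x _
    rw [agr_comm]
  rw [h]
  ring

/-- value of the potential on the whole square -/
lemma pot_univ (hs : 0 < s) (hq : q = 2 * s) (θ L : ℝ) (c : ℕ) :
    pot s q θ L c univ univ
      = ((q : ℝ) ^ s) ^ 2 * (c * L / (θ * s) + θ) := by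
  have hs' : (0 : ℝ) < s := by exact_mod_cast hs
  have hq0 : 0 < q := by omega
  have hq' : (0 : ℝ) < q := by exact_mod_cast hq0
  have hN : (Finset.univ : Finset (Fin s → Fin q)).card = q ^ s := by
    simp
  unfold pot corr
  rw [hN]
  push_cast
  have h1 : Real.log ((q : ℝ) ^ s / (q : ℝ) ^ s) = 0 := by
    rw [div_self (by positivity), Real.log_one]
  rw [h1]
  have h2 : ∑ x : Fin s → Fin q, ∑ y : Fin s → Fin q, (2 * (agr x y : ℝ) - 1) = 0 := by
    have h3 : ∀ x : Fin s → Fin q, ∑ y : Fin s → Fin q, (2 * (agr x y : ℝ) - 1) = 0 := by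
      intro x
      rw [Finset.sum_sub_distrib, ← Finset.mul_sum, agr_sum]
      have h4 : ∀ t : Fin s, ((univ.filter (fun y : Fin s → Fin q => y t = x t)).card : ℝ)
          = (q : ℝ) ^ s / q := by
        intro t
        rw [eq_div_iff hq'.ne']
        have h5 : ∀ v : Fin q, (univ.filter (fun y : Fin s → Fin q => y t = v)).card
            = (univ.filter (fun y : Fin s → Fin q => y t = x t)).card := by
          intro v
          refine Finset.card_bij' (fun y _ => Function.update y t (x t))
            (fun y _ => Function.update y t v) ?_ ?_ ?_ ?_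
          · intro y hy; simp
          · intro y hy; simp
          · intro y hy
            simp only [Finset.mem_filter, Finset.mem_univ, true_and] at hy
            rw [Function.update_idem, ← hy, Function.update_eq_self]
          · intro y hy
            simp only [Finset.mem_filter, Finset.mem_univ, true_and] at hy
            rw [Function.update_idem, ← hy, Function.update_eq_self]
        have h6 : (Finset.univ : Finset (Fin s → Fin q)).card
            = ∑ v : Fin q, (univ.filter (fun y : Fin s → Fin q => y t = v)).card :=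
          Finset.card_eq_sum_card_fiberwise (fun y _ => by simp)
        rw [Finset.sum_congr rfl (fun v _ => h5 v)] at h6
        rw [hN] at h6
        simp only [Finset.sum_const, Finset.card_univ, Fintype.card_fin, smul_eq_mul] at h6
        have h7 : ((q ^ s : ℕ) : ℝ)
          = ((q * (univ.filter (fun y : Fin s → Fin q => y t = x t)).card : ℕ) : ℝ) := by
          rw [h6]
        push_cast at h7
        rw [h7]; ring
      rw [Finset.sum_congr rfl (fun t _ => h4 t)]
      simp only [Finset.sum_const, Finset.card_univ, Fintype.card_fin, nsmul_eq_mul, mul_one,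
        Fintype.card_fun]
      have : (q : ℝ) = 2 * s := by rw [hq]; push_cast; ring
      push_cast
      field_simp
      rw [this]; ring
    rw [Finset.sum_eq_zero (fun x _ => h3 x)]
  rw [h2]
  ring

lemma card_agr_zero (x : Fin s → Fin q) :
    (univ.filter (fun y : Fin s → Fin q => agr x y = 0)).card = (q - 1) ^ s := by
  have : univ.filter (fun y : Fin s → Fin q => agr x y = 0)
      = Fintype.piFinset (fun t => (univ : Finset (Fin q)).erase (x t)) := by
    ext y
    simp only [agr, Finset.card_eq_zero, Finset.filter_eq_empty_iff, Finset.mem_filter,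
      Finset.mem_univ, true_and, Fintype.mem_piFinset, Finset.mem_erase, and_true, forall_true_left]
    constructor
    · intro h t ht; exact h ht.symm
    · intro h t ht; exact h t ht.symm
  rw [this, Fintype.card_piFinset]
  simp

/-- a third of all pairs agree somewhere -/
lemma int_count (hs : 0 < s) (hq : q = 2 * s) :
    (1 / 3 : ℝ) * ((q : ℝ) ^ s) ^ 2 ≤
      ((univ.filter (fun p : (Fin s → Fin q) × (Fin s → Fin q) => 0 < agr p.1 p.2)).card : ℝ) := by
  have hq0 : 0 < q := by omega
  have hq' : (0 : ℝ) < q := by exact_mod_cast hq0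
  have hN : (Finset.univ : Finset ((Fin s → Fin q) × (Fin s → Fin q))).card = q ^ s * q ^ s := by
    simp [Fintype.card_prod]
  have h1 : (univ.filter (fun p : (Fin s → Fin q) × (Fin s → Fin q) => 0 < agr p.1 p.2)).card
      + (univ.filter (fun p : (Fin s → Fin q) × (Fin s → Fin q) => ¬ 0 < agr p.1 p.2)).card
      = q ^ s * q ^ s := by
    rw [Finset.card_filter_add_card_filter_not, hN]
  have h2 : (univ.filter (fun p : (Fin s → Fin q) × (Fin s → Fin q) => ¬ 0 < agr p.1 p.2)).card
      = q ^ s * (q - 1) ^ s := by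
    rw [Finset.card_filter, ← Finset.univ_product_univ, Finset.sum_product]
    have : ∀ x : Fin s → Fin q, (∑ y : Fin s → Fin q, if ¬ 0 < agr (x, y).1 (x, y).2 then 1 else 0)
        = (q - 1) ^ s := by
      intro x
      rw [← card_agr_zero x, Finset.card_filter]
      apply Finset.sum_congr rfl
      intro y _
      simp
    rw [Finset.sum_congr rfl (fun x _ => this x)]
    simp
  have h3 : ((q - 1 : ℕ) : ℝ) ^ s ≤ (2 / 3 : ℝ) * (q : ℝ) ^ s := by
    have h4 : ((q - 1 : ℕ) : ℝ) = q - 1 := by rw [Nat.cast_sub hq0]; simp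
    rw [h4]
    have h5 : (1 : ℝ) + s * (1 / q) ≤ (1 + 1 / q) ^ s :=
      one_add_mul_le_pow (by have : (0 : ℝ) ≤ 1 / q := by positivity
                             linarith) s
    have h6 : (s : ℝ) * (1 / q) = 1 / 2 := by
      rw [hq]; push_cast; field_simp
    rw [h6] at h5
    have h7 : ((q : ℝ) - 1) ^ s * (1 + 1 / q) ^ s ≤ (q : ℝ) ^ s := by
      rw [← mul_pow]
      apply pow_le_pow_left₀
      · have : (1 : ℝ) ≤ q := by exact_mod_cast hq0
        have h8 : (0 : ℝ) ≤ q - 1 := by linarith
        positivity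
      · have : ((q : ℝ) - 1) * (1 + 1 / q) = q - 1 / q := by field_simp; ring
        rw [this]
        have : (0 : ℝ) < 1 / q := by positivity
        linarith
    have h8 : (0 : ℝ) ≤ ((q : ℝ) - 1) ^ s := by
      apply pow_nonneg
      have : (1 : ℝ) ≤ q := by exact_mod_cast hq0
      linarith
    nlinarith
  have h9 : (((univ.filter (fun p : (Fin s → Fin q) × (Fin s → Fin q) =>
      0 < agr p.1 p.2)).card : ℕ) : ℝ)
      + (q : ℝ) ^ s * ((q - 1 : ℕ) : ℝ) ^ s = (q : ℝ) ^ s * (q : ℝ) ^ s := by
    rw [h2] at h1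
    exact_mod_cast h1
  have h10 : (0 : ℝ) < (q : ℝ) ^ s := by positivity
  nlinarith

end Pool.Agent.helper91.OT
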