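import Pool.Agent.helper91.OT.Pot

set_option autoImplicit false

namespace Pool.Agent.helper91.OT

open Finset

/-! ## Message passing systems with `2k` players and the direct product lemma -/

/-- A system of players (one for each side of each of the `k` pairs).  A node says who is active
and with which message he is addressed; the active player looks at his local state, changes it and
answers with `none` (abort), `some none` (accept) or `some (some ν)` (next message). -/
structure Sys (k : ℕ) (S 𝒩 : Type) where
  act : 𝒩 → Fin k × Bool
  step : 𝒩 → S → Option (Option 𝒩) × S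

variable {k s q : ℕ} {S 𝒩 : Type}

/-- acceptance within `N` rounds, where the players of a pair in `I` may be active at most `c`
times -/
def Sys.accB (Y : Sys k S 𝒩) (I : Finset (Fin k)) :
    ℕ → (Fin k → ℕ) → 𝒩 → (Fin k × Bool → S) → Prop
  | 0, _, _, _ => False
  | N + 1, c, ν, loc =>
    ((Y.act ν).1 ∈ I → 0 < c (Y.act ν).1) ∧
    ((Y.step ν (loc (Y.act ν))).1 = some none ∨
      ∃ ν', (Y.step ν (loc (Y.act ν))).1 = some (some ν') ∧
        Y.accB I N (Function.update c (Y.act ν).1 (c (Y.act ν).1 - 1)) ν'
          (Function.update loc (Y.act ν) (Y.step ν (loc (Y.act ν))).2))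

/-- the factor of a pair in the bound -/
noncomputable def fac (s q : ℕ) (θ L : ℝ) (I : Finset (Fin k)) (c : Fin k → ℕ)
    (A : Fin k × Bool → Finset (Fin s → Fin q)) (i : Fin k) : ℝ :=
  if i ∈ I then pot s q θ L (c i) (A (i, false)) (A (i, true))
  else ((A (i, false)).card : ℝ) * (A (i, true)).card

lemma fac_nonneg (hs : 0 < s) (hq : q = 2 * s) (θ L : ℝ) (hθ : 0 < θ) (hL : 0 ≤ L)
    (I : Finset (Fin k)) (c : Fin k → ℕ) (A : Fin k × Bool → Finset (Fin s → Fin q)) (i : Fin k) :
    0 ≤ fac s q θ L I c A i := by
  unfold fac
  split_ifs
  · exact pot_nonneg hs hq θ L hθ hL _ _ _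
  · positivity

lemma fac_congr (θ L : ℝ) (I : Finset (Fin k)) (c c' : Fin k → ℕ)
    (A A' : Fin k × Bool → Finset (Fin s → Fin q)) (i : Fin k) (hc : c i = c' i)
    (h0 : A (i, false) = A' (i, false)) (h1 : A (i, true) = A' (i, true)) :
    fac s q θ L I c A i = fac s q θ L I c' A' i := by
  unfold fac
  rw [hc, h0, h1]

/-- splitting one of the sets of the active pair -/
lemma fac_split {ι : Type*} [DecidableEq ι] (hs : 0 < s) (hq : 0 < q) (θ : ℝ) (hθ : 0 < θ)
    (M : ℝ) (hM1 : 1 ≤ M) (I : Finset (Fin k)) (c : Fin k → ℕ)
    (A : Fin k × Bool → Finset (Fin s → Fin q)) (p : Fin k × Bool) (hc : p.1 ∈ I → 0 < c p.1)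
    (out : (Fin s → Fin q) → ι) (O : Finset ι) (hO : ∀ x ∈ A p, out x ∈ O)
    (hM : (O.card : ℝ) ≤ M) :
    ∑ o ∈ O, fac s q θ (Real.log M) I (Function.update c p.1 (c p.1 - 1))
        (Function.update A p ((A p).filter (fun x => out x = o))) p.1
      ≤ fac s q θ (Real.log M) I c A p.1 := by
  obtain ⟨i, b⟩ := p
  unfold fac
  simp only [Function.update_self]
  by_cases hi : i ∈ I
  · simp only [hi, if_true]
    have hc' : c i = (c i - 1) + 1 := by have := hc hi; simp only at this; omega
    cases b
    · simp only [Function.update_self, ne_eq, Prod.mk.injEq, reduceCtorEq, and_false,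
        not_false_eq_true, Function.update_of_ne]
      conv_rhs => rw [hc']
      exact pot_split_left hs hq θ hθ M hM1 _ _ _ out O hO hM
    · simp only [Function.update_self, ne_eq, Prod.mk.injEq, reduceCtorEq, and_false,
        not_false_eq_true, Function.update_of_ne]
      conv_rhs => rw [hc', pot_comm]
      have : ∀ o, pot s q θ (Real.log M) (c i - 1) (A (i, false))
          ((A (i, true)).filter (fun x => out x = o))
          = pot s q θ (Real.log M) (c i - 1) ((A (i, true)).filter (fun x => out x = o))
            (A (i, false)) := fun o => pot_comm _ _ _ _ _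
      simp only [this]
      exact pot_split_left hs hq θ hθ M hM1 _ _ _ out O hO hM
  · simp only [hi, if_false]
    cases b
    · simp only [Function.update_self, ne_eq, Prod.mk.injEq, reduceCtorEq, and_false,
        not_false_eq_true, Function.update_of_ne]
      rw [← Finset.sum_mul, ← Nat.cast_sum, ← Finset.card_eq_sum_card_fiberwise hO]
    · simp only [Function.update_self, ne_eq, Prod.mk.injEq, reduceCtorEq, and_false,
        not_false_eq_true, Function.update_of_ne]
      rw [← Finset.mul_sum, ← Nat.cast_sum, ← Finset.card_eq_sum_card_fiberwise hO]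

open Classical in
/-- **Direct product lemma.** -/
theorem prod_lemma (hs : 0 < s) (hq : q = 2 * s) (θ : ℝ) (hθ : 0 < θ)
    (M : ℝ) (hM1 : 1 ≤ M) (Y : Sys k S 𝒩)
    (hY : ∀ ν, ∃ O : Finset (Option (Option 𝒩)), (O.card : ℝ) ≤ M ∧ ∀ l, (Y.step ν l).1 ∈ O)
    (I : Finset (Fin k)) (N : ℕ) :
    ∀ (c : Fin k → ℕ) (ν : 𝒩) (σ : Fin k × Bool → (Fin s → Fin q) → S)
      (A : Fin k × Bool → Finset (Fin s → Fin q)),
      (∀ ω ∈ Fintype.piFinset A, Y.accB I N c ν (fun p => σ p (ω p)) →
        ∀ i ∈ I, 0 < agr (ω (i, false)) (ω (i, true))) →
      (((Fintype.piFinset A).filter (fun ω => Y.accB I N c ν (fun p => σ p (ω p)))).card : ℝ)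
        ≤ ∏ i, fac s q θ (Real.log M) I c A i := by
  have hq0 : 0 < q := by omega
  have hL : 0 ≤ Real.log M := Real.log_nonneg hM1
  induction N with
  | zero =>
    intro c ν σ A _
    rw [Finset.filter_false_of_mem]
    · simp only [Finset.card_empty, Nat.cast_zero]
      exact Finset.prod_nonneg (fun i _ => fac_nonneg hs hq θ _ hθ hL _ _ _ _)
    · intro ω _ h
      exact h
  | succ N ih =>
    intro c ν σ A hcert
    set p := Y.act ν with hp
    by_cases hc : p.1 ∈ I → 0 < c p.1
    swap
    · rw [Finset.filter_false_of_mem]
      · simp only [Finset.card_empty, Nat.cast_zero]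
        exact Finset.prod_nonneg (fun i _ => fac_nonneg hs hq θ _ hθ hL _ _ _ _)
      · intro ω _ h
        exact hc h.1
    obtain ⟨O, hOM, hO⟩ := hY ν
    set out : (Fin s → Fin q) → Option (Option 𝒩) := fun z => (Y.step ν (σ p z)).1 with hout
    set Ao : Option (Option 𝒩) → Fin k × Bool → Finset (Fin s → Fin q) :=
      fun o => Function.update A p ((A p).filter (fun x => out x = o)) with hAo
    have hmem : ∀ o ω, ω ∈ Fintype.piFinset (Ao o) ↔ ω ∈ Fintype.piFinset A ∧ out (ω p) = o := by
      intro o ω
      simp only [Fintype.mem_piFinset]
      constructor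
      · intro h
        have h1 := h p
        rw [hAo] at h1
        simp only [Function.update_self, Finset.mem_filter] at h1
        refine ⟨fun a => ?_, h1.2⟩
        by_cases ha : a = p
        · rw [ha]; exact h1.1
        · have := h a
          rw [hAo] at this
          simpa only [Function.update_of_ne ha] using this
      · rintro ⟨h1, h2⟩ a
        by_cases ha : a = p
        · rw [ha, hAo]
          simp only [Function.update_self, Finset.mem_filter]
          exact ⟨h1 p, h2⟩
        · rw [hAo]
          simp only [Function.update_of_ne ha]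
          exact h1 a
    set c' := Function.update c p.1 (c p.1 - 1) with hc'
    -- bound for each outcome
    have hbound : ∀ o ∈ O, (((Fintype.piFinset (Ao o)).filter
        (fun ω => Y.accB I (N + 1) c ν (fun p => σ p (ω p)))).card : ℝ)
        ≤ ∏ i, fac s q θ (Real.log M) I c' (Ao o) i := by
      intro o _
      rcases o with _ | _ | ν'
      · rw [Finset.filter_false_of_mem]
        · simp only [Finset.card_empty, Nat.cast_zero]
          exact Finset.prod_nonneg (fun i _ => fac_nonneg hs hq θ _ hθ hL _ _ _ _)
        · intro ω hω h
          have h2 := ((hmem _ _).1 hω).2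
          have h3 : (Y.step ν (σ p (ω p))).1 = none := h2
          rcases h.2 with h4 | ⟨ν', h4, _⟩
          · change (Y.step ν (σ p (ω p))).1 = _ at h4
            rw [h3] at h4; simp at h4
          · change (Y.step ν (σ p (ω p))).1 = _ at h4
            rw [h3] at h4; simp at h4
      · have hall : ∀ ω ∈ Fintype.piFinset (Ao (some none)),
            Y.accB I (N + 1) c ν (fun p => σ p (ω p)) := by
          intro ω hω
          exact ⟨hc, Or.inl ((hmem _ _).1 hω).2⟩
        rw [Finset.filter_true_of_mem hall]
        rcases (Fintype.piFinset (Ao (some none))).eq_empty_or_nonempty with he | ⟨ω₀, hω₀⟩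
        · rw [he]
          simp only [Finset.card_empty, Nat.cast_zero]
          exact Finset.prod_nonneg (fun i _ => fac_nonneg hs hq θ _ hθ hL _ _ _ _)
        rw [Fintype.card_piFinset]
        have h5 : ∏ a : Fin k × Bool, (Ao (some none) a).card
            = ∏ i : Fin k, ((Ao (some none) (i, false)).card * (Ao (some none) (i, true)).card) := by
          rw [← Finset.univ_product_univ, Finset.prod_product]
          apply Finset.prod_congr rfl
          intro i _
          simp [mul_comm]
        rw [h5]
        push_cast
        apply Finset.prod_le_prod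
        · intro i _; positivity
        · intro i _
          unfold fac
          split_ifs with hi
          · apply pot_cert hq0 θ _ hθ hL
            intro x hx y hy
            set ω₁ := Function.update (Function.update ω₀ (i, false) x) (i, true) y with hω₁
            have hω₁m : ω₁ ∈ Fintype.piFinset (Ao (some none)) := by
              rw [Fintype.mem_piFinset] at hω₀ ⊢
              intro a
              by_cases ha : a = (i, true)
              · rw [ha, hω₁, Function.update_self]; exact hy
              · rw [hω₁, Function.update_of_ne ha]
                by_cases hb : a = (i, false)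
                · rw [hb, Function.update_self]; exact hx
                · rw [Function.update_of_ne hb]; exact hω₀ a
            have h6 := hcert ω₁ ((hmem _ _).1 hω₁m).1 (hall ω₁ hω₁m) i hi
            have h7 : ω₁ (i, false) = x := by
              rw [hω₁, Function.update_of_ne (by simp), Function.update_self]
            have h8 : ω₁ (i, true) = y := by
              rw [hω₁, Function.update_self]
            rw [h7, h8] at h6
            exact h6
          · exact le_rfl
      · set σ' := Function.update σ p (fun z => (Y.step ν (σ p z)).2) with hσ'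
        have hiff : ∀ ω ∈ Fintype.piFinset (Ao (some (some ν'))),
            (Y.accB I (N + 1) c ν (fun p => σ p (ω p))
              ↔ Y.accB I N c' ν' (fun p => σ' p (ω p))) := by
          intro ω hω
          have h2 := ((hmem _ _).1 hω).2
          have h3 : (Y.step ν (σ p (ω p))).1 = some (some ν') := h2
          have h4 : (fun a => σ' a (ω a)) = Function.update (fun a => σ a (ω a)) p
              (Y.step ν (σ p (ω p))).2 := by
            funext a
            by_cases ha : a = p
            · rw [ha, hσ']; simp only [Function.update_self]
            · rw [hσ']; simp only [Function.update_of_ne ha]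
          rw [h4]
          constructor
          · rintro ⟨_, h5 | ⟨ν'', h5, h6⟩⟩
            · change (Y.step ν (σ p (ω p))).1 = _ at h5
              rw [h3] at h5; simp at h5
            · change (Y.step ν (σ p (ω p))).1 = _ at h5
              rw [h3] at h5
              simp only [Option.some.injEq] at h5
              subst h5
              exact h6
          · intro h5
            exact ⟨hc, Or.inr ⟨ν', h3, h5⟩⟩
        rw [Finset.filter_congr hiff]
        apply ih
        intro ω hω h
        exact hcert ω ((hmem _ _).1 hω).1 ((hiff ω hω).2 h)
    have hpart : (((Fintype.piFinset A).filter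
        (fun ω => Y.accB I (N + 1) c ν (fun p => σ p (ω p)))).card : ℝ)
        = ∑ o ∈ O, (((Fintype.piFinset (Ao o)).filter
        (fun ω => Y.accB I (N + 1) c ν (fun p => σ p (ω p)))).card : ℝ) := by
      rw [← Nat.cast_sum, Finset.card_eq_sum_card_fiberwise (f := fun ω => out (ω p)) (t := O)]
      · congr 1
        apply Finset.sum_congr rfl
        intro o _
        congr 1
        ext ω
        simp only [Finset.mem_filter, hmem]
        tauto
      · intro ω _
        exact hO _
    rw [hpart]
    calc _ ≤ ∑ o ∈ O, ∏ i, fac s q θ (Real.log M) I c' (Ao o) i := Finset.sum_le_sum hbound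
      _ = ∑ o ∈ O, (fac s q θ (Real.log M) I c' (Ao o) p.1 *
            ∏ i ∈ univ.erase p.1, fac s q θ (Real.log M) I c A i) := by
          apply Finset.sum_congr rfl
          intro o _
          rw [← Finset.mul_prod_erase univ _ (Finset.mem_univ p.1)]
          congr 1
          apply Finset.prod_congr rfl
          intro i hi
          have hne : i ≠ p.1 := (Finset.mem_erase.1 hi).1
          apply fac_congr
          · rw [hc', Function.update_of_ne hne]
          · rw [hAo]
            simp only
            rw [Function.update_of_ne]
            intro h; apply hne; rw [← h]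
          · rw [hAo]
            simp only
            rw [Function.update_of_ne]
            intro h; apply hne; rw [← h]
      _ = (∑ o ∈ O, fac s q θ (Real.log M) I c' (Ao o) p.1) *
            ∏ i ∈ univ.erase p.1, fac s q θ (Real.log M) I c A i := by
          rw [Finset.sum_mul]
      _ ≤ fac s q θ (Real.log M) I c A p.1 *
            ∏ i ∈ univ.erase p.1, fac s q θ (Real.log M) I c A i := by
          apply mul_le_mul_of_nonneg_right
          · exact fac_split hs hq0 θ hθ M hM1 I c A p hc out O (fun x _ => hO _) hOM
          · exact Finset.prod_nonneg (fun i _ => fac_nonneg hs hq θ _ hθ hL _ _ _ _)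
      _ = ∏ i, fac s q θ (Real.log M) I c A i :=
          Finset.mul_prod_erase univ _ (Finset.mem_univ p.1)

end Pool.Agent.helper91.OT
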