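import Pool.Agent.helper91.OT.Mach

set_option autoImplicit false

namespace Pool.Agent.helper91.OT

/-! ## Resources used by the sieving machine -/

variable {U V : ℕ} [NeZero U] [NeZero V]

/-- is the letter an entry end -/
def Letter.isE {U : ℕ} : Letter U → Bool
  | .E _ => true
  | _ => false

/-- number of alive entries -/
def aE (u : List (Cell U)) : ℕ := u.countP (fun x => x.1.isE && x.2.1)

/-- number of alive blocks -/
def aX (u : List (Cell U)) : ℕ := u.countP (fun x => decide (x.1 = .X) && x.2.1)

lemma fin_succ_val {n : ℕ} [NeZero n] (a : Fin n) :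
    ((a + 1 : Fin n) : ℕ) = if (a : ℕ) + 1 = n then 0 else (a : ℕ) + 1 := by
  have ha := a.isLt
  rw [Fin.val_add, Fin.val_one', Nat.add_mod_mod]
  split_ifs with h
  · rw [h, Nat.mod_self]
  · exact Nat.mod_eq_of_lt (by omega)

/-- potential of a sieving state with respect to entries -/
def kap (st : SS U V) : ℤ := if (st.cnt : ℕ) ≤ (st.z : ℕ) then (st.cnt : ℕ) else (st.cnt : ℕ) - (U : ℤ)

/-- potential of a sieving state with respect to blocks -/
def lam (st : SS U V) : ℤ := if (st.sc : ℕ) = 0 then 0 else (st.sc : ℕ) - (V : ℤ)

lemma kap_zero (st : SS U V) (h : st.cnt = 0) : kap st = 0 := by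
  unfold kap; rw [h]; simp

lemma kap_succ (st : SS U V) (h : st.cnt ≠ st.z) (w : Option Bool) :
    kap { st with cnt := st.cnt + 1, w := w } = kap st + 1 := by
  unfold kap
  simp only
  rw [fin_succ_val]
  have h1 : (st.cnt : ℕ) ≠ (st.z : ℕ) := fun h' => h (Fin.ext h')
  have h2 := st.cnt.isLt
  have h3 := st.z.isLt
  split_ifs <;> push_cast <;> omega

lemma kap_succ' (st : SS U V) (h : st.cnt = st.z) (w : Option Bool) :
    kap { st with cnt := st.cnt + 1, w := w } = kap st + 1 - U := by
  unfold kap
  simp only
  rw [fin_succ_val]
  have h1 : (st.cnt : ℕ) = (st.z : ℕ) := by rw [h]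
  have h2 := st.cnt.isLt
  have h3 := st.z.isLt
  split_ifs <;> push_cast <;> omega

lemma sweep_aE {st st' : SS U V} {u u' : List (Cell U)} {g : ℕ} (h : Sweep st u g st' u') :
    (aE u : ℤ) = U * aE u' + kap st' - kap st := by
  induction h with
  | nil => simp [aE]
  | @cons st st' st'' x x' u u' g hs hr ih =>
    have key : ((if x.1.isE && x.2.1 then 1 else 0 : ℕ) : ℤ)
        = U * ((if x'.1.isE && x'.2.1 then 1 else 0 : ℕ) : ℤ) + kap st' - kap st := by
      rcases hs with ⟨h1, h2, h3, z, a, h4, h5⟩ | ⟨h1, h2⟩
      · rw [h4, h5, h1, kap_zero _ h2, kap_zero _ rfl]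
        simp [Letter.isE]
      · obtain ⟨l, f1, f2⟩ := x
        cases l with
        | X => simp at h1
        | n =>
          simp only [dstep, Option.some.injEq, Prod.mk.injEq] at h2
          rw [← h2.2, ← h2.1]; simp [Letter.isE]
        | Y =>
          simp only [dstep] at h2
          split_ifs at h2
          simp only [Option.some.injEq, Prod.mk.injEq] at h2
          rw [← h2.2, ← h2.1]; simp [Letter.isE]
        | D d =>
          simp only [dstep] at h2
          split_ifs at h2
          · split at h2
            · simp only [Option.some.injEq, Prod.mk.injEq] at h2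
              rw [← h2.2, ← h2.1]; simp [Letter.isE, kap]
            · simp only [Option.some.injEq, Prod.mk.injEq] at h2
              rw [← h2.2, ← h2.1]; simp [Letter.isE]
          · simp only [Option.some.injEq, Prod.mk.injEq] at h2
            rw [← h2.2, ← h2.1]; simp [Letter.isE]
        | E c =>
          simp only [dstep] at h2
          split at h2
          · simp at h2
          · simp only [Option.some.injEq, Prod.mk.injEq] at h2
            obtain ⟨h3, h4⟩ := h2
            rw [← h3, ← h4]
            cases f1
            · simp [Letter.isE, kap]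
            · by_cases hz : st.cnt = st.z
              · simp only [if_true]
                rw [kap_succ' st hz]
                simp [Letter.isE, hz]
              · simp only [if_true]
                rw [kap_succ st hz]
                simp [Letter.isE, hz]
    unfold aE at ih ⊢
    rw [List.countP_cons, List.countP_cons]
    push_cast at key ⊢
    rw [ih, key]
    ring

lemma lam_aux (n V : ℕ) (h : n < V) :
    (if (if n + 1 = V then 0 else n + 1) = 0 then (0 : ℤ)
      else ((if n + 1 = V then 0 else n + 1 : ℕ) : ℤ) - V)
      = (if n = 0 then (0 : ℤ) else (n : ℤ) - V) + 1 - (if n = 0 then (V : ℤ) else 0) := by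
  by_cases h1 : n + 1 = V
  · rw [if_pos h1, if_pos rfl]
    by_cases h2 : n = 0
    · rw [if_pos h2, if_pos h2]; omega
    · rw [if_neg h2, if_neg h2]; omega
  · rw [if_neg h1, if_neg (by omega)]
    by_cases h2 : n = 0
    · rw [if_pos h2, if_pos h2]; push_cast; omega
    · rw [if_neg h2, if_neg h2]; push_cast; ring

lemma sweep_aX {st st' : SS U V} {u u' : List (Cell U)} {g : ℕ} (h : Sweep st u g st' u') :
    (aX u : ℤ) = V * aX u' + lam st' - lam st := by
  induction h with
  | nil => simp [aX]
  | @cons st st' st'' x x' u u' g hs hr ih =>
    have key : ((if (decide (x.1 = .X)) && x.2.1 then 1 else 0 : ℕ) : ℤ)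
        = V * ((if (decide (x'.1 = .X)) && x'.2.1 then 1 else 0 : ℕ) : ℤ) + lam st' - lam st := by
      rcases hs with ⟨h1, h2, h3, z, a, h4, h5⟩ | ⟨h1, h2⟩
      · rw [h4, h5, h1]
        unfold lam
        simp only [decide_true, Bool.true_and]
        have hlt := st.sc.isLt
        have hV := NeZero.ne V
        rcases x.2.1 with _ | _
        · simp
        · simp only [if_true]
          rw [fin_succ_val, lam_aux _ _ hlt]
          by_cases hsc : st.sc = 0
          · have hsc' : (st.sc : ℕ) = 0 := by rw [hsc]; simp
            simp [hsc, hsc']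
          · have hsc' : (st.sc : ℕ) ≠ 0 := fun h' => hsc (Fin.ext (by simpa using h'))
            simp [hsc, hsc']
      · have hx' := dstep_fst h2
        have hsc : st'.sc = st.sc := by
          obtain ⟨l, f1, f2⟩ := x
          cases l with
          | X => simp at h1
          | n =>
            simp only [dstep, Option.some.injEq, Prod.mk.injEq] at h2
            rw [← h2.1]
          | Y =>
            simp only [dstep] at h2
            split_ifs at h2
            simp only [Option.some.injEq, Prod.mk.injEq] at h2
            rw [← h2.1]
          | D d =>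
            simp only [dstep] at h2
            split_ifs at h2
            · split at h2
              · simp only [Option.some.injEq, Prod.mk.injEq] at h2
                rw [← h2.1]
              · simp only [Option.some.injEq, Prod.mk.injEq] at h2
                rw [← h2.1]
            · simp only [Option.some.injEq, Prod.mk.injEq] at h2
              rw [← h2.1]
          | E c =>
            simp only [dstep] at h2
            split at h2
            · simp at h2
            · simp only [Option.some.injEq, Prod.mk.injEq] at h2
              rw [← h2.1]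
        rw [hx']
        unfold lam
        rw [hsc]
        simp [h1]
    unfold aX at ih ⊢
    rw [List.countP_cons, List.countP_cons]
    push_cast at key ⊢
    rw [ih, key]
    ring

/-- potential of a phase -/
def ePh : Phase → ℤ
  | .start => 0
  | .x0 => -2
  | .x1 _ => -1
  | .y0 _ => -1
  | .y1 => 0

lemma fstep_count {st st' : Bool × Phase} {x : Cell U} (h : fstep st x = some st') :
    ((if x.1.isE && x.2.1 then 1 else 0 : ℕ) : ℤ) - 2 * (if x.1 = .X then 1 else 0 : ℕ)
      = ePh st'.2 - ePh st.2 ∧
    ((if (decide (x.1 = .X)) && x.2.1 then 1 else 0 : ℕ) : ℤ)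
      = (if st'.1 then 1 else 0) - (if st.1 then 1 else 0) ∧
    (st.2 = .start → x.1 ≠ .X → st'.2 = .start) := by
  obtain ⟨l, f1, f2⟩ := x
  obtain ⟨b, ph⟩ := st
  cases l with
  | n =>
    simp only [fstep, Option.some.injEq] at h
    subst h
    simp [Letter.isE]
  | Y =>
    simp only [fstep] at h
    split at h
    · simp only [Option.some.injEq] at h
      subst h
      simp_all [Letter.isE, ePh]
    · simp at h
  | D d =>
    simp only [fstep] at h
    split_ifs at h
    simp only [Option.some.injEq] at h
    subst h
    simp [Letter.isE]
  | X =>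
    simp only [fstep] at h
    split_ifs at h with h1
    split at h
    · simp only [Option.some.injEq] at h
      subst h
      cases b <;> cases f1 <;> simp_all [Letter.isE, ePh]
    · simp only [Option.some.injEq] at h
      subst h
      cases b <;> cases f1 <;> simp_all [Letter.isE, ePh]
    · simp at h
  | E c =>
    simp only [fstep] at h
    split_ifs at h with h1 h2
    · split at h
      · simp only [Option.some.injEq] at h
        subst h
        simp_all [Letter.isE, ePh]
      · split_ifs at h with h3
        simp only [Option.some.injEq] at h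
        subst h
        simp_all [Letter.isE, ePh]
      · simp at h
    · simp only [Option.some.injEq] at h
      subst h
      simp_all [Letter.isE, ePh]

lemma frun_count (u : List (Cell U)) : ∀ (st st' : Bool × Phase), frun st u = some st' →
    (aE u : ℤ) - 2 * nX u = ePh st'.2 - ePh st.2 ∧
    (aX u : ℤ) = (if st'.1 then 1 else 0) - (if st.1 then 1 else 0) ∧
    (st.2 = .start → nX u = 0 → st'.2 = .start) := by
  induction u with
  | nil =>
    intro st st' h
    simp only [frun, Option.some.injEq] at h
    subst h
    simp [aE, nX, aX]
  | cons x u ih =>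
    intro st st' h
    rw [frun] at h
    rcases hf : fstep st x with _ | y
    · rw [hf] at h; simp at h
    · rw [hf] at h
      obtain ⟨h1, h2, h3⟩ := ih y st' h
      obtain ⟨h4, h5, h6⟩ := fstep_count hf
      unfold aE nX aX at *
      rw [List.countP_cons, List.countP_cons, List.countP_cons]
      push_cast at *
      refine ⟨?_, ?_, ?_⟩
      · by_cases hX : x.1 = .X
        · simp only [hX, if_true, decide_true] at h4 ⊢
          linarith
        · simp only [hX, if_false, decide_false] at h4 ⊢
          simp only [Bool.false_eq_true, if_false] at h4 ⊢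
          linarith
      · linarith
      · intro hs hn
        have hX : x.1 ≠ .X := by
          intro hX
          simp [hX] at hn
        exact h3 (h6 hs hX) (by omega)

/-- counts forced by a chain -/
lemma chain_count (R : ℕ) : ∀ u : List (Cell U), Chain V u R →
    aE u = 2 * nX u * U ^ R ∧ aX u ≤ V ^ R ∧ 0 < nX u := by
  induction R with
  | zero =>
    rintro u ⟨sep, h⟩
    obtain ⟨h1, h2, h3⟩ := frun_count u _ _ h
    simp only [ePh] at h1
    refine ⟨?_, ?_, ?_⟩
    · push_cast [pow_zero]; omega
    · rw [pow_zero]
      simp only [Bool.false_eq_true, if_false] at h2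
      split_ifs at h2 <;> omega
    · by_contra h0
      have := h3 rfl (by omega)
      simp at this
  | succ R ih =>
    rintro u ⟨g, st, u', hs, hc, hw, h⟩
    obtain ⟨h1, h2, h3⟩ := ih u' h
    have hn := (sweep_nX hs).1
    have h4 := sweep_aE hs
    have h5 := sweep_aX hs
    rw [kap_zero _ hc, kap_zero _ rfl, h1] at h4
    rw [hn] at h3 h4
    refine ⟨?_, ?_, h3⟩
    · have : (aE u : ℤ) = ((2 * nX u * U ^ (R + 1) : ℕ) : ℤ) := by
        rw [h4]; push_cast; ring
      exact_mod_cast this
    · have h6 : lam st ≤ 0 := by
        unfold lam
        have := st.sc.isLt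
        split_ifs <;> omega
      have h7 : lam (⟨0, 0, 0, 0, none⟩ : SS U V) = 0 := by unfold lam; simp
      rw [h7] at h5
      have h8 : (aX u : ℤ) ≤ ((V ^ (R + 1) : ℕ) : ℤ) := by
        have h9 : (V : ℤ) * aX u' ≤ V * (V ^ R : ℕ) := by
          apply mul_le_mul_of_nonneg_left _ (by positivity)
          exact_mod_cast h2
        rw [h5, pow_succ]
        push_cast at h9 ⊢
        linarith
      exact_mod_cast h8

/-- cells of an input word -/
def inp (x : List (Letter U)) : List (Cell U) := x.map (fun a => (a, true, true))

lemma tapeOf_eq (x : List (Letter U)) : (mach U V).tapeOf x = tapeW (inp x) := by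
  funext i
  unfold NTM.tapeOf tapeW inp
  split_ifs
  · rw [List.getElem?_map]
    cases x[i.toNat]? <;> rfl
  · rfl

/-- accepted words carry a chain -/
lemma accepts_chain (x : List (Letter U)) (h : (mach U V).Accepts x) :
    ∃ R, Chain V (inp x) R := by
  obtain ⟨T, g, c, hr, hq⟩ := h
  have hinit : (mach U V).init x = cfg .L 0 (inp x) := by
    unfold NTM.init
    rw [tapeOf_eq]
  rcases Nat.eq_zero_or_pos x.length with h0 | hpos
  · -- the empty word: the tape is blank everywhere
    have hx : x = [] := List.length_eq_zero_iff.1 h0
    subst hx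
    exfalso
    have key : ∀ T : ℕ, ∀ (s : St U V) (i : ℤ),
        (s = .L ∨ (∃ st : SS U V, s = .S st) ∨ ∃ b, s = .F b .start) →
        ¬ AccIn (mach U V) (cfg s i []) T := by
      intro T
      induction T with
      | zero =>
        rintro s i hs ⟨g, c', hr, hc'⟩
        cases hr
        change s = .acc at hc'
        rcases hs with rfl | ⟨st, rfl⟩ | ⟨b, rfl⟩ <;> simp at hc'
      | succ T ih =>
        intro s i hs h
        have hblank : tapeW ([] : List (Cell U)) i = none := by unfold tapeW; simp
        obtain ⟨T', hT', t, ht, h1⟩ := h.cases (by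
          change s ≠ .acc
          rcases hs with rfl | ⟨st, rfl⟩ | ⟨b, rfl⟩ <;> simp)
        have hTT : T' = T := by omega
        subst hTT
        change t ∈ delta s (tapeW [] i) at ht
        rw [hblank] at ht
        have hnext : ∀ (s' : St U V) (m : Move), (cfg s i [] : Cfg (mach U V)).next (s', none, m)
            = cfg s' (i + m.toInt) [] := by
          intro s' m
          unfold Cfg.next
          simp only
          congr 1
          exact update_none_eq _ _ hblank
        rcases hs with rfl | ⟨st, rfl⟩ | ⟨b, rfl⟩
        · simp only [delta, Set.mem_insert_iff, Set.mem_singleton_iff] at ht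
          rcases ht with rfl | rfl
          · rw [hnext] at h1
            exact ih _ _ (Or.inr (Or.inl ⟨_, rfl⟩)) h1
          · rw [hnext] at h1
            exact ih _ _ (Or.inr (Or.inr ⟨_, rfl⟩)) h1
        · simp only [delta, Set.mem_ofPred_eq] at ht
          obtain ⟨_, _, rfl⟩ := ht
          rw [hnext] at h1
          exact ih _ _ (Or.inl rfl) h1
        · simp only [delta, Set.mem_ofPred_eq] at ht
          obtain ⟨h2, _⟩ := ht
          simp at h2
    apply key T .L 0 (Or.inl rfl)
    rw [hinit] at hr
    exact ⟨g, c, hr, hq⟩
  · have h1 : AccIn (mach U V) (cfg .L (((1 : ℕ) : ℤ) - 1) (inp x)) T := by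
      rw [hinit] at hr
      exact ⟨g, c, by simpa using hr, hq⟩
    obtain ⟨T', _, h2⟩ := left_acc (inp x) 1 T (by unfold inp; simp; omega) h1
    exact chain_of_acc T' _ h2

/-- a chain on an input word gives a short accepting computation -/
lemma chain_accepts (x : List (Letter U)) (R : ℕ) (h : Chain V (inp x) R) :
    ∃ T ≤ R * (2 * x.length + 2) + x.length + 3, ∃ G ≤ R * (nX (inp x) + 1) + 1,
      (mach U V).AcceptsIn x T G := by
  have h1 := acc_of_chain R _ h
  have hlen : (inp x).length = x.length := by unfold inp; simp
  have hpos : 1 ≤ (inp x).length := by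
    have := (chain_count R _ h).2.2
    unfold nX at this
    have h2 := List.countP_le_length (p := fun y : Cell U => decide (y.1 = .X)) (l := inp x)
    omega
  have h2 := left_by (V := V) (inp x) _ _ h1 1 hpos
  have hinit : (mach U V).init x = cfg .L (((1 : ℕ) : ℤ) - 1) (inp x) := by
    unfold NTM.init
    rw [tapeOf_eq]
    simp
  obtain ⟨T, G, c, hr, hq, hT, hG⟩ := h2
  rw [hlen] at hT
  refine ⟨T, by omega, G, hG, c, ?_, hq⟩
  rw [hinit]
  exact hr

lemma nX_inp (x : List (Letter U)) : aX (inp x) = nX (inp x) := by
  unfold aX nX inp
  rw [List.countP_map, List.countP_map]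
  congr 1
  funext a
  simp

lemma aE_inp (x : List (Letter U)) : aE (inp x) ≤ x.length := by
  unfold aE
  have := List.countP_le_length (p := fun y : Cell U => y.1.isE && y.2.1) (l := inp x)
  unfold inp at this ⊢
  simpa using this

/-- **Resources**: an accepted word `x` has, for some `R` and `m` (the number of blocks), an
accepting computation with the stated bounds. -/
theorem resources (x : List (Letter U)) (h : (mach U V).Accepts x) :
    ∃ R m : ℕ, 0 < m ∧ 2 * m * U ^ R ≤ x.length ∧ m ≤ V ^ R ∧
      ∃ T ≤ R * (2 * x.length + 2) + x.length + 3, ∃ G ≤ R * (m + 1) + 1,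
        (mach U V).AcceptsIn x T G := by
  obtain ⟨R, hR⟩ := accepts_chain x h
  obtain ⟨h1, h2, h3⟩ := chain_count R _ hR
  refine ⟨R, nX (inp x), h3, ?_, ?_, chain_accepts x R hR⟩
  · rw [← h1]; exact aE_inp x
  · rw [← nX_inp]; exact h2

end Pool.Agent.helper91.OT
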