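import Pool.Agent.helper91.OT.Enc

set_option autoImplicit false

namespace Pool.Agent.helper91.OT

/-! ## The language of the machine on encodings -/

variable {U V : ℕ} [NeZero U] [NeZero V]

lemma count_mod (b Z : ℕ) (hb : 0 < b) (hZ : Z < b) (j : ℕ) :
    Nat.count (fun i => decide (i % b = Z) = true) j = j / b + if Z < j % b then 1 else 0 := by
  have h := Nat.count_modEq_card j hb Z
  rw [Nat.mod_eq_of_lt hZ] at h
  rw [← h, Nat.count_eq_card_filter_range, Nat.count_eq_card_filter_range]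
  congr 1
  ext i
  simp [Nat.ModEq, Nat.mod_eq_of_lt hZ]

lemma ofNat_eq_iff (b m : ℕ) [NeZero b] (z : Fin b) : Fin.ofNat b m = z ↔ m % b = (z : ℕ) := by
  constructor
  · rintro rfl; simp [Fin.ofNat]
  · intro h; apply Fin.ext; simp [Fin.ofNat, h]

lemma mod_succ_iff (b r j Z z : ℕ) (hb : 0 < b) (hZ : Z < b ^ r) (hz : z < b) :
    j % b ^ (r + 1) = Z + b ^ r * z ↔ j % b ^ r = Z ∧ j / b ^ r % b = z := by
  rw [Nat.mod_pow_succ]
  have hlt : j % b ^ r < b ^ r := Nat.mod_lt _ (by positivity)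
  constructor
  · intro h
    have h1 : (j % b ^ r + b ^ r * (j / b ^ r % b)) % b ^ r = (Z + b ^ r * z) % b ^ r := by rw [h]
    rw [Nat.add_mul_mod_self_left, Nat.add_mul_mod_self_left, Nat.mod_eq_of_lt hlt,
      Nat.mod_eq_of_lt hZ] at h1
    refine ⟨h1, ?_⟩
    rw [h1] at h
    have h2 : b ^ r * (j / b ^ r % b) = b ^ r * z := by omega
    exact Nat.eq_of_mul_eq_mul_left (by positivity) h2
  · rintro ⟨h1, h2⟩
    rw [h1, h2]

lemma alN_mod (b r Z : ℕ) [NeZero b] (hZ : Z < b ^ r) (z : Fin b) :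
    alN b (fun j => decide (j % b ^ r = Z)) z
      = fun j => decide (j % b ^ (r + 1) = Z + b ^ r * z) := by
  have hb : 0 < b := Nat.pos_of_ne_zero (NeZero.ne b)
  funext j
  unfold alN cn
  rw [count_mod (b ^ r) Z (by positivity) hZ j]
  have h := mod_succ_iff b r j Z z hb hZ z.isLt
  by_cases h1 : j % b ^ r = Z
  · simp only [h1, decide_true, Bool.true_and, lt_irrefl, if_false, add_zero]
    rw [decide_eq_decide, ofNat_eq_iff, h]
    simp [h1]
  · simp only [h1, decide_false, Bool.false_and]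
    symm
    rw [decide_eq_false_iff_not, h]
    simp [h1]

lemma cn_end (b r R Z : ℕ) [NeZero b] (hZ : Z < b ^ r) (hr : r < R) :
    cn b (fun j => decide (j % b ^ r = Z)) (b ^ R) = 0 := by
  have hb : 0 < b := Nat.pos_of_ne_zero (NeZero.ne b)
  unfold cn
  rw [count_mod (b ^ r) Z (by positivity) hZ]
  have h1 : b ^ R = b ^ r * b ^ (R - r) := by rw [← pow_add]; congr 1; omega
  have h2 : b ^ (R - r) = b * b ^ (R - r - 1) := by rw [← pow_succ']; congr 1; omega
  rw [ofNat_eq_iff]
  rw [h1, Nat.mul_mod_right, Nat.mul_div_cancel_left _ (by positivity)]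
  simp only [not_lt_zero', if_false, add_zero]
  rw [h2]
  simp

lemma okN_mod (r W : ℕ) (val : ℕ → ℕ) :
    okN U r (fun j => decide ((val j / 2) % U ^ r = W % U ^ r)) val (dig U r W)
      = fun j => decide ((val j / 2) % U ^ (r + 1) = W % U ^ (r + 1)) := by
  have hb : 0 < U := Nat.pos_of_ne_zero (NeZero.ne U)
  funext j
  unfold okN
  rw [← Bool.decide_and, decide_eq_decide]
  have h1 : W % U ^ (r + 1) = W % U ^ r + U ^ r * (W / U ^ r % U) := Nat.mod_pow_succ
  rw [h1, mod_succ_iff U r (val j / 2) (W % U ^ r) (W / U ^ r % U) hb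
    (Nat.mod_lt _ (by positivity)) (Nat.mod_lt _ hb)]
  unfold dig
  rw [ofNat_eq_iff]
  simp [Fin.ofNat]

/-- a cell of a block sequence is in the beginning phase or after a complete block -/
lemma frun_blks_start (R s d r : ℕ) (xa : ℕ → Bool) (al okx oky : ℕ → ℕ → Bool)
    (vx vy : ℕ → ℕ → ℕ) (i n : ℕ) (st st' : Bool × Phase)
    (h : frun st (blks U R s d r xa al okx oky vx vy i (n + 1)) = some st') :
    st.2 = .start ∨ st.2 = .y1 := by
  rw [blks, frun] at h
  cases h1 : fstep st ((.X, xa i, true) : Cell U) with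
  | none => rw [h1] at h; simp at h
  | some st1 =>
    simp only [fstep] at h1
    split_ifs at h1
    split at h1
    · rename_i hph; exact Or.inl hph
    · rename_i hph; exact Or.inr hph
    · simp at h1

lemma frun_blks_inv (R s d r : ℕ) (xa : ℕ → Bool) (al okx oky : ℕ → ℕ → Bool)
    (vx vy : ℕ → ℕ → ℕ) (n : ℕ) : ∀ (i : ℕ) (st st' : Bool × Phase),
      frun st (blks U R s d r xa al okx oky vx vy i n) = some st' → st'.2 = .y1 →
      ∀ m, i ≤ m → m < i + n →
      ∃ J J', J < s ∧ J' < s ∧ al m J = true ∧ al m J' = true ∧ okx m J = true ∧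
        oky m J' = true ∧ (vx m J % 2 = 1 ↔ vy m J' % 2 = 1) := by
  induction n with
  | zero => intro i st st' _ _ m h1 h2; omega
  | succ n ih =>
    intro i st st' h hst' m hm1 hm2
    have h0 : blks U R s d r xa al okx oky vx vy i (n + 1)
        = ((.X, xa i, true) :: body U R s d r (al i) (okx i) (oky i) (vx i) (vy i)) ++
          blks U R s d r xa al okx oky vx vy (i + 1) n := by
      rw [blks, List.cons_append]
    rw [h0, frun_append] at h
    cases h1 : frun st ((.X, xa i, true) ::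
        body U R s d r (al i) (okx i) (oky i) (vx i) (vy i)) with
    | none => rw [h1] at h; simp at h
    | some st1 =>
      rw [h1] at h
      simp only [Option.bind_some] at h
      obtain ⟨_, h2⟩ := frun_block_inv R s d r _ _ _ _ _ _ _ _ h1
      by_cases hm : m = i
      · subst hm
        rcases h2 with ⟨c, h2⟩ | ⟨_, h2⟩
        · exfalso
          rcases n with _ | n
          · simp only [blks, frun, Option.some.injEq] at h
            subst h
            rw [h2] at hst'
            simp at hst'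
          · have := frun_blks_start _ _ _ _ _ _ _ _ _ _ _ _ _ _ h
            rw [h2] at this
            simp at this
        · exact h2
      · exact ih (i + 1) st1 st' h hst' m (by omega) (by omega)

lemma frun_blks_unread (R s d r : ℕ) (hr : r < R) (hs : 0 < s) (xa : ℕ → Bool)
    (al okx oky : ℕ → ℕ → Bool) (vx vy : ℕ → ℕ → ℕ) (i n : ℕ) (st : Bool × Phase) :
    frun st (blks U R s d r xa al okx oky vx vy i (n + 1)) = none := by
  obtain ⟨s, rfl⟩ : ∃ s', s = s' + 1 := ⟨s - 1, by omega⟩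
  rw [blks, frun]
  cases h1 : fstep st ((.X, xa i, true) : Cell U) with
  | none => simp
  | some st1 =>
    simp only [Option.bind_some]
    unfold body
    rw [frun_append, frun_append, frun_append, ents, frun_append, frun_digs_fail R r _ _ hr]
    simp

/-- **Soundness**: acceptance of an encoding means that each pair has an agreement. -/
theorem chain_sound (R d k : ℕ) (hk : 0 < k) (vx vy : ℕ → ℕ → ℕ)
    (hvx : ∀ i j, vx i j / 2 < U ^ R) (hvy : ∀ i j, vy i j / 2 < U ^ R) (R' : ℕ) :
    ∀ (r : ℕ) (xa : ℕ → Bool) (al okx oky : ℕ → ℕ → Bool), r ≤ R →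
      Chain V (blks U R (U ^ R) d r xa al okx oky vx vy 0 k) R' →
      (∀ i, ∃ Z < U ^ r, al i = fun j => decide (j % U ^ r = Z)) →
      (∀ i j₁ j₂, okx i j₁ = true → oky i j₂ = true →
        (vx i j₁ / 2) % U ^ r = (vy i j₂ / 2) % U ^ r) →
      ∀ i < k, ∃ j < U ^ R, vx i j = vy i j := by
  have hb : 0 < U := Nat.pos_of_ne_zero (NeZero.ne U)
  have hs0 : 0 < U ^ R := by positivity
  induction R' with
  | zero =>
    intro r xa al okx oky hr h hal hok i hi
    obtain ⟨sep, h⟩ := h
    have hrR : r = R := by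
      by_contra hne
      obtain ⟨k, rfl⟩ : ∃ k', k = k' + 1 := ⟨k - 1, by omega⟩
      rw [frun_blks_unread R (U ^ R) d r (by omega) hs0] at h
      simp at h
    subst hrR
    obtain ⟨J, J', hJ, hJ', h1, h2, h3, h4, h5⟩ :=
      frun_blks_inv r (U ^ r) d r xa al okx oky vx vy k 0 _ _ h rfl i (by omega) (by omega)
    obtain ⟨Z, hZ, hal⟩ := hal i
    rw [hal] at h1 h2
    simp only [decide_eq_true_eq] at h1 h2
    rw [Nat.mod_eq_of_lt hJ] at h1
    rw [Nat.mod_eq_of_lt hJ'] at h2
    have hJJ : J' = J := by rw [h1, h2]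
    subst hJJ
    have h6 := hok i J' J' h3 h4
    rw [Nat.mod_eq_of_lt (hvx i J'), Nat.mod_eq_of_lt (hvy i J')] at h6
    exact ⟨J', hJ', by omega⟩
  | succ R' ih =>
    intro r xa al okx oky hr h hal hok i hi
    obtain ⟨g, st, u', hsw, _, _, hch⟩ := h
    obtain ⟨hrR, xa', zc, ac, rfl⟩ := sweep_blks_inv R (U ^ R) d r hs0 xa al okx oky vx vy k 0 g
      _ _ _ _ _ hk hsw
    refine ih (r + 1) xa' _ _ _ (by omega) hch ?_ ?_ i hi
    · intro i
      obtain ⟨Z, hZ, hal⟩ := hal i
      refine ⟨Z + U ^ r * (zc i : ℕ), ?_, ?_⟩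
      · have h1 : (zc i : ℕ) + 1 ≤ U := (zc i).isLt
        calc Z + U ^ r * (zc i : ℕ) < U ^ r + U ^ r * (zc i : ℕ) := by omega
          _ = U ^ r * ((zc i : ℕ) + 1) := by ring
          _ ≤ U ^ r * U := Nat.mul_le_mul_left _ h1
          _ = U ^ (r + 1) := by ring
      · simp only [hal]
        exact alN_mod U r Z hZ (zc i)
    · intro i j₁ j₂ h1 h2
      simp only [okN, Bool.and_eq_true, decide_eq_true_eq] at h1 h2
      have h3 := hok i j₁ j₂ h1.1 h2.1
      have h4 := h1.2.trans h2.2.symm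
      unfold dig at h4
      have h5 : (vx i j₁ / 2) / U ^ r % U = (vy i j₂ / 2) / U ^ r % U := by
        have := congrArg Fin.val h4
        simpa [Fin.ofNat] using this
      rw [Nat.mod_pow_succ, Nat.mod_pow_succ, h3, h5]

lemma frun_blks_rest (R s d : ℕ) (xa : ℕ → Bool) (al okx oky : ℕ → ℕ → Bool)
    (vx vy : ℕ → ℕ → ℕ) (J : ℕ → ℕ) (sep : Bool) (n : ℕ) : ∀ i : ℕ,
      (∀ m, i ≤ m → m < i + n → xa m = false ∧ J m < s ∧
        (∀ j, j < s → (al m j = true ↔ j = J m)) ∧ okx m (J m) = true ∧ oky m (J m) = true ∧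
        vx m (J m) % 2 = vy m (J m) % 2) →
      frun (sep, .y1) (blks U R s d R xa al okx oky vx vy i n) = some (sep, .y1) := by
  induction n with
  | zero => intro i _; rfl
  | succ n ih =>
    intro i h
    have h0 : blks U R s d R xa al okx oky vx vy i (n + 1)
        = ((.X, xa i, true) :: body U R s d R (al i) (okx i) (oky i) (vx i) (vy i)) ++
          blks U R s d R xa al okx oky vx vy (i + 1) n := by
      rw [blks, List.cons_append]
    obtain ⟨h1, h2, h3, h4, h5, h6⟩ := h i le_rfl (by omega)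
    rw [h0, frun_append, frun_block R s d (xa i) _ _ _ _ _ sep .y1 (Or.inr rfl)
      (by rw [h1]; simp) (J i) h2 h3 h4 h5 h6, h1]
    simp only [Option.bind_some, Bool.or_false]
    exact ih (i + 1) (fun m hm hm' => h m (by omega) (by omega))

/-- the contents of the tape after `r` sweeps of the accepting computation -/
def cont (U V : ℕ) [NeZero U] [NeZero V] (R d : ℕ) (vx vy : ℕ → ℕ → ℕ) (J W : ℕ → ℕ) (r k : ℕ) :
    List (Cell U) :=
  blks U R (U ^ R) d r (fun i => decide (i % V ^ r = 0))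
    (fun i j => decide (j % U ^ r = J i % U ^ r))
    (fun i j => decide ((vx i j / 2) % U ^ r = W i % U ^ r))
    (fun i j => decide ((vy i j / 2) % U ^ r = W i % U ^ r)) vx vy 0 k

/-- **Completeness.** -/
theorem chain_complete (R d : ℕ) (vx vy : ℕ → ℕ → ℕ) (J W : ℕ → ℕ)
    (hJ : ∀ i < V ^ R, J i < U ^ R)
    (hx : ∀ i < V ^ R, vx i (J i) / 2 = W i) (hy : ∀ i < V ^ R, vy i (J i) / 2 = W i)
    (hv : ∀ i < V ^ R, vx i (J i) % 2 = vy i (J i) % 2) (m : ℕ) :
    ∀ r, r + m = R → Chain V (cont U V R d vx vy J W r (V ^ R)) m := by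
  have hb : 0 < U := Nat.pos_of_ne_zero (NeZero.ne U)
  have hbV : 0 < V := Nat.pos_of_ne_zero (NeZero.ne V)
  induction m with
  | zero =>
    intro r hr
    have hrR : r = R := by omega
    subst hrR
    refine ⟨true, ?_⟩
    unfold cont
    have hVr : 0 < V ^ r := by positivity
    obtain ⟨n, hn⟩ : ∃ n, V ^ r = n + 1 := ⟨V ^ r - 1, by omega⟩
    have hgood : ∀ i < V ^ r, J i < U ^ r ∧
        (∀ j, j < U ^ r → (decide (j % U ^ r = J i % U ^ r) = true ↔ j = J i)) ∧
        decide ((vx i (J i) / 2) % U ^ r = W i % U ^ r) = true ∧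
        decide ((vy i (J i) / 2) % U ^ r = W i % U ^ r) = true ∧
        vx i (J i) % 2 = vy i (J i) % 2 := by
      intro i hi
      refine ⟨hJ i hi, ?_, by rw [hx i hi]; simp, by rw [hy i hi]; simp, hv i hi⟩
      intro j hj
      rw [decide_eq_true_eq, Nat.mod_eq_of_lt hj, Nat.mod_eq_of_lt (hJ i hi)]
    have h0 : ∀ xa al okx oky, blks U r (U ^ r) d r xa al okx oky vx vy 0 (V ^ r)
        = ((.X, xa 0, true) :: body U r (U ^ r) d r (al 0) (okx 0) (oky 0) (vx 0) (vy 0)) ++
          blks U r (U ^ r) d r xa al okx oky vx vy 1 n := by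
      intro xa al okx oky
      rw [hn, blks, List.cons_append]
    rw [h0, frun_append]
    obtain ⟨h2, h3, h4, h5, h6⟩ := hgood 0 (by omega)
    have h1 : decide (0 % V ^ r = 0) = true := by simp
    rw [frun_block r (U ^ r) d _ _ _ _ _ _ false .start (Or.inl rfl) (by simp) (J 0) h2 h3 h4 h5 h6]
    simp only [Option.bind_some, h1, Bool.false_or]
    apply frun_blks_rest r (U ^ r) d _ _ _ _ vx vy J true n 1
    intro m hm hm'
    have hmV : m < V ^ r := by omega
    obtain ⟨h2, h3, h4, h5, h6⟩ := hgood m hmV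
    refine ⟨?_, h2, h3, h4, h5, h6⟩
    rw [decide_eq_false_iff_not, Nat.mod_eq_of_lt hmV]
    omega
  | succ m ih =>
    intro r hr
    have hrR : r < R := by omega
    have h1 := ih (r + 1) (by omega)
    have hlt : ∀ i, J i % U ^ r < U ^ r := fun i => Nat.mod_lt _ (by positivity)
    obtain ⟨z', a', g, h2⟩ := sweep_blks (V := V) R (U ^ R) d r hrR
      (fun i => decide (i % V ^ r = 0))
      (fun i j => decide (j % U ^ r = J i % U ^ r))
      (fun i j => decide ((vx i j / 2) % U ^ r = W i % U ^ r))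
      (fun i j => decide ((vy i j / 2) % U ^ r = W i % U ^ r)) vx vy
      (fun i => Fin.ofNat U (J i / U ^ r)) (fun i => dig U r (W i)) (V ^ R) 0 0 0
      (fun j _ _ => cn_end U r R _ (hlt j) hrR)
    rw [cn_zero] at h2
    refine ⟨g, _, _, h2, rfl, rfl, ?_⟩
    convert h1 using 1
    unfold cont
    congr 1
    · rw [alN_mod V r 0 (by positivity) 0]
      simp
    · funext i
      rw [alN_mod U r _ (hlt i)]
      have h3 : J i % U ^ (r + 1) = J i % U ^ r + U ^ r * (J i / U ^ r % U) := Nat.mod_pow_succ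
      rw [h3]
      simp [Fin.ofNat]
    · funext i
      exact okN_mod r (W i) (vx i)
    · funext i
      exact okN_mod r (W i) (vy i)

end Pool.Agent.helper91.OT
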