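import Mathlib
import Pool.Agent.helper91.OT.Model
import Pool.Agent.helper91.OT.Final

set_option autoImplicit false

/-!
# The bounded-nondeterminism hierarchy is strict for one-tape machines below quadratic time

The model (nondeterministic one-tape machines, genuine choices, the classes `Nondet A t g`) is
defined in `Pool.Agent.helper91.OT.Model`.

Proof.  The machine of the upper bound reads its input as `k` blocks, each consisting of two lists
of `s` values with a long desert between and after the lists, and guesses for each block an index
at which the two lists agree; it finds the guessed entries by repeated sieving sweeps, which also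
check the format.  Lower bound: for a fixed guess sequence and fixed cuts in the deserts the machine
is a deterministic message passing system with `2k` players on a line, in which each pair of players
can exchange few symbols; a potential function for the one-pair problem is submultiplicative over
independent pairs, so the system accepts at most an exponentially small (in `k`) fraction of all
inputs if it never accepts a wrong input.
-/

namespace Pool.Agent.helper91.OT.Variant

open Pool.Agent.helper91.OT

/-- For all real numbers `0 ≤ a < b` and `δ ≥ 0` with `b + δ < 1` there is a language over a finite
alphabet that a nondeterministic one-tape Turing machine accepts in time `O(n log n)` with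
`O(n ^ b)` guesses, but none accepts in time `O(n ^ (1 + δ))` with `O(n ^ a)` guesses. -/
theorem result (a b δ : ℝ) (ha : 0 ≤ a) (hab : a < b) (hδ : 0 ≤ δ) (hbδ : b + δ < 1) :
    ∃ (A : Type) (_ : Finite A) (L : Set (List A)),
      L ∈ Nondet A (fun n => (n : ℝ) * Real.log n) (fun n => (n : ℝ) ^ b) ∧
      L ∉ Nondet A (fun n => (n : ℝ) ^ (1 + δ)) (fun n => (n : ℝ) ^ a) := by
  obtain ⟨u, L, h1, h2⟩ := main a b δ ha hab hδ hbδ
  exact ⟨Letter (2 ^ u), inferInstance, L, h1, h2⟩

end Pool.Agent.helper91.OT.Variant
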